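import Pool.Agent.SymExt.Notions

/-!
# Notions for topological groups, evaluated in an arbitrary logic, and their formulas
-/

set_option linter.unusedSectionVars false
set_option linter.unusedVariables false
set_option linter.unusedSimpArgs false

universe u v

namespace Pool.Agent.SymExt

namespace Lg

variable {Ω : Type u} {V : Type v} (l : Lg Ω V)

/-- `I` is inductive -/
def indv (I : V) : Ω :=
  l.and (l.ex fun e => l.and (l.empty e) (l.mem e I))
    (l.all fun z => l.imp (l.mem z I) (l.ex fun s => l.and (l.mem s I) (l.adj s z z)))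

/-- `w` is the set of natural numbers -/
def isOm (w : V) : Ω := l.all fun t => l.iff (l.mem t w) (l.all fun I => l.imp (l.indv I) (l.mem t I))

/-- `f` is a function from `A` to `B` -/
def isFun (f A B : V) : Ω :=
  l.and (l.all fun z => l.imp (l.mem z f)
      (l.ex fun x => l.ex fun y => l.and (l.mem x A) (l.and (l.mem y B) (l.isOP z x y))))
    (l.and (l.all fun x => l.imp (l.mem x A) (l.ex fun y => l.app f x y))
      (l.all fun x => l.all fun y => l.all fun y' =>
        l.imp (l.and (l.app f x y) (l.app f x y')) (l.eq y y')))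

/-- `D = A × B` -/
def isProd (D A B : V) : Ω := l.all fun z => l.iff (l.mem z D)
  (l.ex fun x => l.ex fun y => l.and (l.mem x A) (l.and (l.mem y B) (l.isOP z x y)))

/-- `f (x, y) = z` -/
def ap2 (f x y z : V) : Ω := l.ex fun p => l.and (l.isOP p x y) (l.app f p z)

/-- `G` is a group with multiplication `o` and unit `e` -/
def grp (G o e : V) : Ω :=
  l.and (l.ex fun D => l.and (l.isProd D G G) (l.isFun o D G))
  (l.and (l.all fun x => l.all fun y => l.all fun z => l.all fun a => l.all fun b =>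
      l.all fun c => l.imp (l.and (l.ap2 o x y a) (l.and (l.ap2 o a z c) (l.ap2 o y z b)))
        (l.ap2 o x b c))
  (l.and (l.mem e G)
  (l.and (l.all fun x => l.imp (l.mem x G) (l.and (l.ap2 o e x x) (l.ap2 o x e x)))
    (l.all fun x => l.imp (l.mem x G) (l.ex fun y => l.and (l.mem y G)
      (l.and (l.ap2 o x y e) (l.ap2 o y x e)))))))

/-- `τ` is a topology on `X` -/
def isTop (X τ : V) : Ω :=
  l.and (l.all fun U => l.imp (l.mem U τ) (l.sub U X))
  (l.and (l.mem X τ)
  (l.and (l.all fun U => l.all fun U' => l.all fun W =>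
      l.imp (l.and (l.mem U τ) (l.and (l.mem U' τ)
        (l.all fun t => l.iff (l.mem t W) (l.and (l.mem t U) (l.mem t U'))))) (l.mem W τ))
    (l.all fun S => l.all fun W => l.imp (l.and (l.sub S τ)
        (l.all fun t => l.iff (l.mem t W) (l.ex fun U => l.and (l.mem U S) (l.mem t U))))
      (l.mem W τ))))

/-- the multiplication is continuous -/
def cont2 (o τ : V) : Ω :=
  l.all fun x => l.all fun y => l.all fun z => l.all fun U =>
    l.imp (l.and (l.ap2 o x y z) (l.and (l.mem U τ) (l.mem z U)))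
      (l.ex fun A => l.ex fun B => l.and (l.mem A τ) (l.and (l.mem B τ) (l.and (l.mem x A)
        (l.and (l.mem y B) (l.all fun x' => l.all fun y' => l.all fun z' =>
          l.imp (l.and (l.mem x' A) (l.and (l.mem y' B) (l.ap2 o x' y' z'))) (l.mem z' U))))))

/-- the inversion is continuous -/
def conti (o e τ : V) : Ω :=
  l.all fun x => l.all fun y => l.all fun U =>
    l.imp (l.and (l.ap2 o x y e) (l.and (l.mem U τ) (l.mem y U)))
      (l.ex fun A => l.and (l.mem A τ) (l.and (l.mem x A) (l.all fun x' => l.all fun y' =>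
        l.imp (l.and (l.mem x' A) (l.ap2 o x' y' e)) (l.mem y' U))))

/-- Hausdorff -/
def t2 (X τ : V) : Ω :=
  l.all fun x => l.all fun y => l.imp (l.and (l.mem x X) (l.and (l.mem y X) (l.neg (l.eq x y))))
    (l.ex fun A => l.ex fun B => l.and (l.mem A τ) (l.and (l.mem B τ) (l.and (l.mem x A)
      (l.and (l.mem y B) (l.all fun t => l.neg (l.and (l.mem t A) (l.mem t B)))))))

/-- countably compact -/
def cc (w X τ : V) : Ω :=
  l.all fun u => l.imp (l.and (l.isFun u w τ) (l.all fun x => l.imp (l.mem x X)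
      (l.ex fun n => l.ex fun U => l.and (l.app u n U) (l.mem x U))))
    (l.ex fun n => l.and (l.mem n w) (l.all fun x => l.imp (l.mem x X)
      (l.ex fun k => l.ex fun U => l.and (l.mem k n) (l.and (l.app u k U) (l.mem x U)))))

/-- the sequence `s` converges to `x` -/
def conv (w τ s x : V) : Ω :=
  l.all fun U => l.imp (l.and (l.mem U τ) (l.mem x U)) (l.ex fun n => l.and (l.mem n w)
    (l.all fun k => l.all fun y => l.imp (l.and (l.mem n k) (l.app s k y)) (l.mem y U)))

/-- sequential -/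
def sq (w X τ : V) : Ω :=
  l.all fun A => l.imp (l.and (l.sub A X) (l.all fun s => l.all fun x =>
      l.imp (l.and (l.isFun s w A) (l.and (l.mem x X) (l.conv w τ s x))) (l.mem x A)))
    (l.ex fun U => l.and (l.mem U τ)
      (l.all fun t => l.iff (l.mem t U) (l.and (l.mem t X) (l.neg (l.mem t A)))))

/-- Frechet-Urysohn -/
def fu (w X τ : V) : Ω :=
  l.all fun A => l.all fun x => l.imp (l.and (l.sub A X) (l.and (l.mem x X)
      (l.all fun U => l.imp (l.and (l.mem U τ) (l.mem x U)) (l.meet A U))))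
    (l.ex fun s => l.and (l.isFun s w A) (l.conv w τ s x))

/-- there is a Hausdorff countably compact sequential group that is not Frechet-Urysohn -/
def tg : Ω :=
  l.ex fun w => l.ex fun X => l.ex fun o => l.ex fun e => l.ex fun τ =>
    l.and (l.isOm w) (l.and (l.grp X o e) (l.and (l.isTop X τ) (l.and (l.cont2 o τ)
      (l.and (l.conti o e τ) (l.and (l.t2 X τ) (l.and (l.cc w X τ) (l.and (l.sq w X τ)
        (l.neg (l.fu w X τ)))))))))

/-- the axiom of choice -/
def choice : Ω :=
  l.all fun F => l.imp (l.and (l.all fun x => l.imp (l.mem x F) (l.ex fun t => l.mem t x))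
      (l.all fun x => l.all fun y => l.all fun t => l.imp (l.and (l.and (l.mem x F) (l.mem y F))
        (l.and (l.mem t x) (l.mem t y))) (l.eq x y)))
    (l.ex fun C => l.all fun x => l.imp (l.mem x F) (l.ex fun t => l.and
      (l.and (l.mem t C) (l.mem t x)) (l.all fun t' => l.imp (l.and (l.mem t' C) (l.mem t' x))
        (l.eq t' t))))

end Lg

namespace Fm

/-- inductive -/
def indv (I n : ℕ) : Fm :=
  .and (.ex n (.and (.empty n (n + 1)) (.mem n I)))
    (.all n (.imp (.mem n I) (.ex (n + 1) (.and (.mem (n + 1) I) (.adj (n + 1) n n (n + 2))))))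

/-- natural numbers -/
def isOm (w n : ℕ) : Fm :=
  .all n (.iff (.mem n w) (.all (n + 1) (.imp (.indv (n + 1) (n + 2)) (.mem n (n + 1)))))

/-- function -/
def isFun (f A B n : ℕ) : Fm :=
  .and (.all n (.imp (.mem n f)
      (.ex (n + 1) (.ex (n + 2) (.and (.mem (n + 1) A) (.and (.mem (n + 2) B)
        (.isOP n (n + 1) (n + 2) (n + 3))))))))
    (.and (.all n (.imp (.mem n A) (.ex (n + 1) (.app f n (n + 1) (n + 2)))))
      (.all n (.all (n + 1) (.all (n + 2)
        (.imp (.and (.app f n (n + 1) (n + 3)) (.app f n (n + 2) (n + 3)))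
          (.eq (n + 1) (n + 2)))))))

/-- product -/
def isProd (D A B n : ℕ) : Fm := .all n (.iff (.mem n D)
  (.ex (n + 1) (.ex (n + 2) (.and (.mem (n + 1) A) (.and (.mem (n + 2) B)
    (.isOP n (n + 1) (n + 2) (n + 3)))))))

/-- value at a pair -/
def ap2 (f x y z n : ℕ) : Fm := .ex n (.and (.isOP n x y (n + 1)) (.app f n z (n + 1)))

/-- group -/
def grp (G o e n : ℕ) : Fm :=
  .and (.ex n (.and (.isProd n G G (n + 1)) (.isFun o n G (n + 1))))
  (.and (.all n (.all (n + 1) (.all (n + 2) (.all (n + 3) (.all (n + 4) (.all (n + 5)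
      (.imp (.and (.ap2 o n (n + 1) (n + 3) (n + 6)) (.and (.ap2 o (n + 3) (n + 2) (n + 5) (n + 6))
        (.ap2 o (n + 1) (n + 2) (n + 4) (n + 6)))) (.ap2 o n (n + 4) (n + 5) (n + 6)))))))))
  (.and (.mem e G)
  (.and (.all n (.imp (.mem n G) (.and (.ap2 o e n n (n + 1)) (.ap2 o n e n (n + 1)))))
    (.all n (.imp (.mem n G) (.ex (n + 1) (.and (.mem (n + 1) G)
      (.and (.ap2 o n (n + 1) e (n + 2)) (.ap2 o (n + 1) n e (n + 2))))))))))

/-- topology -/
def isTop (X τ n : ℕ) : Fm :=
  .and (.all n (.imp (.mem n τ) (.sub n X (n + 1))))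
  (.and (.mem X τ)
  (.and (.all n (.all (n + 1) (.all (n + 2)
      (.imp (.and (.mem n τ) (.and (.mem (n + 1) τ)
        (.all (n + 3) (.iff (.mem (n + 3) (n + 2)) (.and (.mem (n + 3) n)
          (.mem (n + 3) (n + 1))))))) (.mem (n + 2) τ)))))
    (.all n (.all (n + 1) (.imp (.and (.sub n τ (n + 2))
        (.all (n + 2) (.iff (.mem (n + 2) (n + 1)) (.ex (n + 3) (.and (.mem (n + 3) n)
          (.mem (n + 2) (n + 3)))))))
      (.mem (n + 1) τ))))))

/-- continuity of the multiplication -/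
def cont2 (o τ n : ℕ) : Fm :=
  .all n (.all (n + 1) (.all (n + 2) (.all (n + 3)
    (.imp (.and (.ap2 o n (n + 1) (n + 2) (n + 4)) (.and (.mem (n + 3) τ)
        (.mem (n + 2) (n + 3))))
      (.ex (n + 4) (.ex (n + 5) (.and (.mem (n + 4) τ) (.and (.mem (n + 5) τ)
        (.and (.mem n (n + 4)) (.and (.mem (n + 1) (n + 5))
        (.all (n + 6) (.all (n + 7) (.all (n + 8)
          (.imp (.and (.mem (n + 6) (n + 4)) (.and (.mem (n + 7) (n + 5))
            (.ap2 o (n + 6) (n + 7) (n + 8) (n + 9)))) (.mem (n + 8) (n + 3))))))))))))))))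

/-- continuity of the inversion -/
def conti (o e τ n : ℕ) : Fm :=
  .all n (.all (n + 1) (.all (n + 2)
    (.imp (.and (.ap2 o n (n + 1) e (n + 3)) (.and (.mem (n + 2) τ) (.mem (n + 1) (n + 2))))
      (.ex (n + 3) (.and (.mem (n + 3) τ) (.and (.mem n (n + 3)) (.all (n + 4) (.all (n + 5)
        (.imp (.and (.mem (n + 4) (n + 3)) (.ap2 o (n + 4) (n + 5) e (n + 6)))
          (.mem (n + 5) (n + 2)))))))))))

/-- Hausdorff -/
def t2 (X τ n : ℕ) : Fm :=
  .all n (.all (n + 1) (.imp (.and (.mem n X) (.and (.mem (n + 1) X) (.neg (.eq n (n + 1)))))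
    (.ex (n + 2) (.ex (n + 3) (.and (.mem (n + 2) τ) (.and (.mem (n + 3) τ)
      (.and (.mem n (n + 2)) (.and (.mem (n + 1) (n + 3))
        (.all (n + 4) (.neg (.and (.mem (n + 4) (n + 2)) (.mem (n + 4) (n + 3)))))))))))))

/-- countably compact -/
def cc (w X τ n : ℕ) : Fm :=
  .all n (.imp (.and (.isFun n w τ (n + 1)) (.all (n + 1) (.imp (.mem (n + 1) X)
      (.ex (n + 2) (.ex (n + 3) (.and (.app n (n + 2) (n + 3) (n + 4))
        (.mem (n + 1) (n + 3))))))))
    (.ex (n + 1) (.and (.mem (n + 1) w) (.all (n + 2) (.imp (.mem (n + 2) X)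
      (.ex (n + 3) (.ex (n + 4) (.and (.mem (n + 3) (n + 1)) (.and
        (.app n (n + 3) (n + 4) (n + 5)) (.mem (n + 2) (n + 4)))))))))))

/-- convergence -/
def conv (w τ s x n : ℕ) : Fm :=
  .all n (.imp (.and (.mem n τ) (.mem x n)) (.ex (n + 1) (.and (.mem (n + 1) w)
    (.all (n + 2) (.all (n + 3) (.imp (.and (.mem (n + 1) (n + 2))
      (.app s (n + 2) (n + 3) (n + 4))) (.mem (n + 3) n)))))))

/-- sequential -/
def sq (w X τ n : ℕ) : Fm :=
  .all n (.imp (.and (.sub n X (n + 1)) (.all (n + 1) (.all (n + 2)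
      (.imp (.and (.isFun (n + 1) w n (n + 3)) (.and (.mem (n + 2) X)
        (.conv w τ (n + 1) (n + 2) (n + 3)))) (.mem (n + 2) n)))))
    (.ex (n + 1) (.and (.mem (n + 1) τ)
      (.all (n + 2) (.iff (.mem (n + 2) (n + 1)) (.and (.mem (n + 2) X)
        (.neg (.mem (n + 2) n))))))))

/-- Frechet-Urysohn -/
def fu (w X τ n : ℕ) : Fm :=
  .all n (.all (n + 1) (.imp (.and (.sub n X (n + 2)) (.and (.mem (n + 1) X)
      (.all (n + 2) (.imp (.and (.mem (n + 2) τ) (.mem (n + 1) (n + 2)))
        (.meet n (n + 2) (n + 3))))))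
    (.ex (n + 2) (.and (.isFun (n + 2) w n (n + 3)) (.conv w τ (n + 2) (n + 1) (n + 3))))))

/-- the sentence -/
def tg : Fm :=
  .ex 0 (.ex 1 (.ex 2 (.ex 3 (.ex 4 (.and (.isOm 0 5) (.and (.grp 1 2 3 5) (.and (.isTop 1 4 5)
    (.and (.cont2 2 4 5) (.and (.conti 2 3 4 5) (.and (.t2 1 4 5) (.and (.cc 0 1 4 5)
      (.and (.sq 0 1 4 5) (.neg (.fu 0 1 4 5))))))))))))))

/-- the axiom of choice -/
def choice : Fm :=
  .all 0 (.imp (.and (.all 1 (.imp (.mem 1 0) (.ex 2 (.mem 2 1))))
      (.all 1 (.all 2 (.all 3 (.imp (.and (.and (.mem 1 0) (.mem 2 0))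
        (.and (.mem 3 1) (.mem 3 2))) (.eq 1 2))))))
    (.ex 1 (.all 2 (.imp (.mem 2 0) (.ex 3 (.and
      (.and (.mem 3 1) (.mem 3 2)) (.all 4 (.imp (.and (.mem 4 1) (.mem 4 2)) (.eq 4 3)))))))))

end Fm

section eval

variable {Ω : Type u} {V : Type v} (l : Lg Ω V)

theorem eval_indv {x n : ℕ} (hx : x < n) (s : ℕ → V) :
    l.eval (.indv x n) s = l.indv (s x) := by
  simp (disch := omega) only [Fm.indv, Lg.indv, Lg.eval, Lg.eval_ex, Lg.eval_and, eval_empty,
    eval_adj, Function.update_of_ne, Function.update_self]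

theorem eval_isOm {x n : ℕ} (hx : x < n) (s : ℕ → V) :
    l.eval (.isOm x n) s = l.isOm (s x) := by
  simp (disch := omega) only [Fm.isOm, Lg.isOm, Lg.eval, Lg.eval_iff, eval_indv,
    Function.update_of_ne, Function.update_self]

theorem eval_isFun {x y z n : ℕ} (hx : x < n) (hy : y < n) (hz : z < n) (s : ℕ → V) :
    l.eval (.isFun x y z n) s = l.isFun (s x) (s y) (s z) := by
  simp (disch := omega) only [Fm.isFun, Lg.isFun, Lg.eval, Lg.eval_ex, Lg.eval_and, eval_isOP,
    eval_app, Function.update_of_ne, Function.update_self]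

theorem eval_isProd {x y z n : ℕ} (hx : x < n) (hy : y < n) (hz : z < n) (s : ℕ → V) :
    l.eval (.isProd x y z n) s = l.isProd (s x) (s y) (s z) := by
  simp (disch := omega) only [Fm.isProd, Lg.isProd, Lg.eval, Lg.eval_ex, Lg.eval_and,
    Lg.eval_iff, eval_isOP, Function.update_of_ne, Function.update_self]

theorem eval_ap2 {f x y z n : ℕ} (hf : f < n) (hx : x < n) (hy : y < n) (hz : z < n)
    (s : ℕ → V) : l.eval (.ap2 f x y z n) s = l.ap2 (s f) (s x) (s y) (s z) := by
  simp (disch := omega) only [Fm.ap2, Lg.ap2, Lg.eval_ex, Lg.eval_and,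
    eval_isOP, eval_app, Function.update_of_ne, Function.update_self]

theorem eval_grp {x y z n : ℕ} (hx : x < n) (hy : y < n) (hz : z < n) (s : ℕ → V) :
    l.eval (.grp x y z n) s = l.grp (s x) (s y) (s z) := by
  simp (disch := omega) only [Fm.grp, Lg.grp, Lg.eval, Lg.eval_ex, Lg.eval_and,
    eval_isProd, eval_isFun, eval_ap2, Function.update_of_ne, Function.update_self]

theorem eval_isTop {x y n : ℕ} (hx : x < n) (hy : y < n) (s : ℕ → V) :
    l.eval (.isTop x y n) s = l.isTop (s x) (s y) := by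
  simp (disch := omega) only [Fm.isTop, Lg.isTop, Lg.eval, Lg.eval_ex, Lg.eval_and,
    Lg.eval_iff, eval_sub, Function.update_of_ne, Function.update_self]

theorem eval_cont2 {x y n : ℕ} (hx : x < n) (hy : y < n) (s : ℕ → V) :
    l.eval (.cont2 x y n) s = l.cont2 (s x) (s y) := by
  simp (disch := omega) only [Fm.cont2, Lg.cont2, Lg.eval, Lg.eval_ex, Lg.eval_and,
    eval_ap2, Function.update_of_ne, Function.update_self]

theorem eval_conti {x y z n : ℕ} (hx : x < n) (hy : y < n) (hz : z < n) (s : ℕ → V) :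
    l.eval (.conti x y z n) s = l.conti (s x) (s y) (s z) := by
  simp (disch := omega) only [Fm.conti, Lg.conti, Lg.eval, Lg.eval_ex, Lg.eval_and,
    eval_ap2, Function.update_of_ne, Function.update_self]

theorem eval_t2 {x y n : ℕ} (hx : x < n) (hy : y < n) (s : ℕ → V) :
    l.eval (.t2 x y n) s = l.t2 (s x) (s y) := by
  simp (disch := omega) only [Fm.t2, Lg.t2, Lg.eval, Lg.eval_ex, Lg.eval_and, Lg.eval_neg,
    Function.update_of_ne, Function.update_self]

theorem eval_cc {x y z n : ℕ} (hx : x < n) (hy : y < n) (hz : z < n) (s : ℕ → V) :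
    l.eval (.cc x y z n) s = l.cc (s x) (s y) (s z) := by
  simp (disch := omega) only [Fm.cc, Lg.cc, Lg.eval, Lg.eval_ex, Lg.eval_and,
    eval_isFun, eval_app, Function.update_of_ne, Function.update_self]

theorem eval_conv {x y z t n : ℕ} (hx : x < n) (hy : y < n) (hz : z < n) (ht : t < n)
    (s : ℕ → V) : l.eval (.conv x y z t n) s = l.conv (s x) (s y) (s z) (s t) := by
  simp (disch := omega) only [Fm.conv, Lg.conv, Lg.eval, Lg.eval_ex, Lg.eval_and,
    eval_app, Function.update_of_ne, Function.update_self]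

theorem eval_sq {x y z n : ℕ} (hx : x < n) (hy : y < n) (hz : z < n) (s : ℕ → V) :
    l.eval (.sq x y z n) s = l.sq (s x) (s y) (s z) := by
  simp (disch := omega) only [Fm.sq, Lg.sq, Lg.eval, Lg.eval_ex, Lg.eval_and, Lg.eval_iff,
    Lg.eval_neg, eval_isFun, eval_sub, eval_conv, Function.update_of_ne, Function.update_self]

theorem eval_fu {x y z n : ℕ} (hx : x < n) (hy : y < n) (hz : z < n) (s : ℕ → V) :
    l.eval (.fu x y z n) s = l.fu (s x) (s y) (s z) := by
  simp (disch := omega) only [Fm.fu, Lg.fu, Lg.eval, Lg.eval_ex, Lg.eval_and,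
    eval_isFun, eval_sub, eval_conv, eval_meet, Function.update_of_ne, Function.update_self]

theorem eval_tg (s : ℕ → V) : l.eval .tg s = l.tg := by
  simp (disch := omega) only [Fm.tg, Lg.tg, Lg.eval, Lg.eval_ex, Lg.eval_and, Lg.eval_neg,
    eval_isOm, eval_grp, eval_isTop, eval_cont2, eval_conti, eval_t2, eval_cc, eval_sq, eval_fu,
    Function.update_of_ne, Function.update_self]

theorem eval_choice (s : ℕ → V) : l.eval .choice s = l.choice := by
  simp (disch := omega) only [Fm.choice, Lg.choice, Lg.eval, Lg.eval_ex, Lg.eval_and,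
    Function.update_of_ne, Function.update_self]

end eval

end Pool.Agent.SymExt
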