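import Pool.Agent.SymExt.Top.Plain
import Pool.Agent.SymExt.Top.TopNotions

/-!
# The axiom of choice is forced
-/

set_option linter.unusedSectionVars false
set_option linter.unusedVariables false
set_option linter.unusedSimpArgs false

namespace Pool.Agent.SymExt

variable {P : Type} [PartialOrder P] [OrderTop P]

open SN

theorem forced_choice (p : P) : (lg : Lg (RO P) (VN P)).choice p := by
  simp only [Lg.choice, ro_and, ro_all, ro_imp, ro_mem, ro_ex, ro_eq]
  rintro F q hq ⟨h1, h2⟩ r hr
  obtain ⟨C, hC⟩ := exists_choice F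
  refine ⟨r, le_rfl, C, ?_⟩
  intro x s hs hx t ht
  obtain ⟨u, hu, y, h3, h4⟩ := hC q h1
    (fun x y u hu hx hy t htx hty => h2 x y t u hu ⟨⟨hx, hy⟩, htx, hty⟩) x s
    (hs.trans hr) hx t ht
  exact ⟨u, hu, y, h3, fun z v hv h => h4 z v hv h.1 h.2⟩

end Pool.Agent.SymExt
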