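import Pool.Agent.SymExt.Top.GT

/-!
# The generic topology has the required properties
-/

set_option linter.unusedSectionVars false
set_option linter.unusedVariables false
set_option linter.unusedSimpArgs false

namespace Pool.Agent.SymExt

variable {Z P Ix : Type} [AddCommGroup Z] [PartialOrder P] [OrderTop P]

namespace GT

open SN

variable (g : GT Z P Ix)

theorem forced_isTop (p : P) : lg.isTop (XX Z P) g.tau p := by
  simp only [Lg.isTop, ro_and, ro_all, ro_imp, ro_mem, sub_iff, ro_iff]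
  refine ⟨?_, ?_, ?_, ?_⟩
  · intro U q hq hU z r hr hz
    exact ((g.m_tau.1 hU).1) z r hr hz
  · rw [m_tau]
    refine ⟨fun x q _ h => h, fun z q hq hz r hr => ?_⟩
    exact ⟨r, le_rfl, g.i₀, g.dcd_i₀ r, fun b _ => zn_XX _ _⟩
  · rintro U U' W q hq ⟨hU, hU', hW⟩
    rw [m_tau] at hU hU' ⊢
    constructor
    · intro x r hr hx
      exact hU.1 x r hr ((hW x r hr).1 hx).1
    · intro z r hr hz s hs
      obtain ⟨h1, h2⟩ := (hW _ r hr).1 hz
      obtain ⟨t, ht, i, hi, hb⟩ := hU.2 z r hr h1 s hs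
      obtain ⟨u, hu, j, hj, hb'⟩ := hU'.2 z r hr h2 t (ht.trans hs)
      obtain ⟨k, hk, hki, hkj⟩ := g.dir u i j (g.dcd_mono hu hi) hj
      refine ⟨u, hu.trans ht, k, hk, fun b hbk => ?_⟩
      rw [hW _ u (hu.trans (ht.trans (hs.trans hr)))]
      have hbi := hki hbk
      rw [g.B_eq hu hi] at hbi
      exact ⟨RO.mono _ hu (hb b hbi), hb' b (hkj hbk)⟩
  · rintro S W q hq ⟨hS, hW⟩
    simp only [ro_ex, ro_and, ro_mem] at hW
    rw [m_tau]
    constructor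
    · intro x r hr hx
      refine RO.dense _ fun s hs => ?_
      obtain ⟨t, ht, U, hU, hxU⟩ := (hW x r hr).1 hx s hs
      have h1 := hS U t (ht.trans (hs.trans hr)) hU
      exact ⟨t, ht, (g.m_tau.1 h1).1 x t le_rfl hxU⟩
    · intro z r hr hz s hs
      obtain ⟨t, ht, U, hU, hzU⟩ := (hW _ r hr).1 hz s hs
      have h1 := hS U t (ht.trans (hs.trans hr)) hU
      obtain ⟨u, hu, i, hi, hb⟩ := (g.m_tau.1 h1).2 z t le_rfl hzU t le_rfl
      refine ⟨u, hu.trans ht, i, hi, fun b hbi => ?_⟩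
      rw [hW _ u (hu.trans (ht.trans (hs.trans hr)))]
      intro v hv
      exact ⟨v, le_rfl, U, RO.mono _ (hv.trans hu) hU, RO.mono _ hv (hb b hbi)⟩

theorem forced_cont2 (p : P) : lg.cont2 (oo Z P) g.tau p := by
  simp only [Lg.cont2, ro_and, ro_all, ro_imp, ro_mem, ap2_iff, ro_ex2]
  rintro x y z U q hq ⟨hxy, hU, hz⟩ r hr
  obtain ⟨s, hs, a, b, hx, hy, hab⟩ := m_oo.1 hxy r hr
  have hsq : s ≤ q := hs.trans hr
  have hzU : m (zn (a + b)) U s := m_left hab (RO.mono _ hsq hz)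
  obtain ⟨t, ht, i, hi, hbU⟩ := (g.m_tau.1 hU).2 (a + b) s hsq hzU s le_rfl
  refine ⟨t, ht.trans hs, g.ball t i a, g.ball t i b, g.ball_tau a hi le_rfl,
    g.ball_tau b hi le_rfl, ?_, ?_, ?_⟩
  · refine m_left (e_symm (RO.mono _ ht hx)) ?_
    rw [m_ball, sub_self]
    exact (g.B t i).zero_mem
  · refine m_left (e_symm (RO.mono _ ht hy)) ?_
    rw [m_ball, sub_self]
    exact (g.B t i).zero_mem
  · rintro x' y' z' u hu ⟨hx', hy', hz'⟩
    refine RO.dense _ fun v hv => ?_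
    obtain ⟨v1, hv1, b1, hb1, e1⟩ := g.of_ball hx' v hv
    obtain ⟨v2, hv2, b2, hb2, e2⟩ := g.of_ball hy' v1 (hv1.trans hv)
    obtain ⟨v3, hv3, a', b', e3, e4, e5⟩ := m_oo.1 hz' v2 (hv2.trans (hv1.trans hv))
    have h1 : a' = a + b1 := rig_zn _ _ v3 (e_trans (e_symm e3) (RO.mono _ (hv3.trans hv2) e1))
    have h2 : b' = b + b2 := rig_zn _ _ v3 (e_trans (e_symm e4) (RO.mono _ hv3 e2))
    have h3 : a' + b' = a + b + (b1 + b2) := by rw [h1, h2]; abel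
    rw [h3] at e5
    refine ⟨v3, hv3.trans (hv2.trans hv1), m_left (e_symm e5) ?_⟩
    exact RO.mono _ (hv3.trans (hv2.trans (hv1.trans (hv.trans hu))))
      (hbU _ ((g.B t i).add_mem hb1 hb2))

theorem forced_conti (p : P) : lg.conti (oo Z P) (zn (0 : Z)) g.tau p := by
  simp only [Lg.conti, ro_and, ro_all, ro_imp, ro_mem, ap2_iff, ro_ex]
  rintro x y U q hq ⟨hxy, hU, hy⟩ r hr
  obtain ⟨s, hs, a, b, hxa, hyb, hab⟩ := m_oo.1 hxy r hr
  have hsq : s ≤ q := hs.trans hr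
  have h0 : a + b = 0 := (rig_zn _ _ s hab).symm
  have hyU : m (zn b) U s := m_left hyb (RO.mono _ hsq hy)
  obtain ⟨t, ht, i, hi, hbU⟩ := (g.m_tau.1 hU).2 b s hsq hyU s le_rfl
  refine ⟨t, ht.trans hs, g.ball t i a, g.ball_tau a hi le_rfl, ?_, ?_⟩
  · refine m_left (e_symm (RO.mono _ ht hxa)) ?_
    rw [m_ball, sub_self]
    exact (g.B t i).zero_mem
  · rintro x' y' u hu ⟨hx', hxy'⟩
    refine RO.dense _ fun v hv => ?_
    obtain ⟨v1, hv1, b1, hb1, e1⟩ := g.of_ball hx' v hv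
    obtain ⟨v3, hv3, a', b', e3, e4, e5⟩ := m_oo.1 hxy' v1 (hv1.trans hv)
    have h1 : a' = a + b1 := rig_zn _ _ v3 (e_trans (e_symm e3) (RO.mono _ hv3 e1))
    have h2 : a' + b' = 0 := (rig_zn _ _ v3 e5).symm
    have h3 : b' = b + (-b1) := by
      have e6 : b' = -a' := (neg_eq_of_add_eq_zero_right h2).symm
      have e7 : b = -a := (neg_eq_of_add_eq_zero_right h0).symm
      rw [e6, e7, h1]
      abel
    refine ⟨v3, hv3.trans hv1, m_left (e_symm e4) ?_⟩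
    rw [h3]
    exact RO.mono _ (hv3.trans (hv1.trans (hv.trans hu))) (hbU _ ((g.B t i).neg_mem hb1))

theorem forced_t2 (p : P) : lg.t2 (XX Z P) g.tau p := by
  simp only [Lg.t2, ro_and, ro_all, ro_imp, ro_mem, ro_ex2, ro_neg, ro_eq]
  rintro x y q hq ⟨hx, hy, hne⟩ r hr
  obtain ⟨s, hs, a, ha⟩ := m_XX.1 hx r hr
  obtain ⟨t, ht, b, hb⟩ := m_XX.1 hy s (hs.trans hr)
  have hab : a - b ≠ 0 := by
    intro h
    rw [sub_eq_zero] at h
    subst h
    exact hne t (ht.trans (hs.trans hr)) (e_trans (RO.mono _ ht ha) (e_symm hb))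
  obtain ⟨u, hu, i, hi, hni⟩ := g.t2 t (a - b) hab
  refine ⟨u, hu.trans (ht.trans hs), g.ball u i a, g.ball u i b, g.ball_tau a hi le_rfl,
    g.ball_tau b hi le_rfl, ?_, ?_, ?_⟩
  · refine m_left (e_symm (RO.mono _ (hu.trans ht) ha)) ?_
    rw [m_ball, sub_self]
    exact (g.B u i).zero_mem
  · refine m_left (e_symm (RO.mono _ hu hb)) ?_
    rw [m_ball, sub_self]
    exact (g.B u i).zero_mem
  · rintro z w hw ⟨h1, h2⟩
    obtain ⟨w1, hw1, b1, hb1, e1⟩ := g.of_ball h1 w le_rfl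
    obtain ⟨w2, hw2, b2, hb2, e2⟩ := g.of_ball h2 w1 hw1
    have h3 : a + b1 = b + b2 := rig_zn _ _ w2 (e_trans (e_symm (RO.mono _ hw2 e1)) e2)
    apply hni
    have h4 : a - b = b2 - b1 := by
      rw [sub_eq_sub_iff_add_eq_add, h3]
      abel
    rw [h4]
    exact (g.B u i).sub_mem hb2 hb1

theorem forced_cc (p : P) : lg.cc (om P) (XX Z P) g.tau p := by
  simp only [Lg.cc, ro_and, ro_all, ro_imp, ro_mem, ro_ex2, app_iff]
  rintro u q hq ⟨hu, hcov⟩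
  rw [ro_ex]
  simp only [ro_and, ro_all, ro_imp, ro_mem, ro_ex2, app_iff]
  intro q₀ hq₀
  by_contra hcon
  push Not at hcon
  have hstep : ∀ n : ℕ, ∀ r ≤ q₀, ∃ s ≤ r, ∃ z : Z, ∀ t ≤ s, ¬ ∃ k U, m k (on n) t ∧
      m (op k U) u t ∧ m (zn z) U t := by
    intro n r hr
    obtain ⟨x, s, hs, hx, t, ht, h⟩ := hcon r hr (on n) (m_on_om n r)
    obtain ⟨v, hv, z, hz⟩ := m_XX.1 hx t ht
    refine ⟨v, hv.trans (ht.trans hs), z, ?_⟩
    rintro w hw ⟨k, U, h1, h2, h3⟩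
    exact h w (hw.trans hv) k U h1 h2 (m_left (e_symm (RO.mono _ hw hz)) h3)
  obtain ⟨r, hr, f, hf⟩ := decide_seq g.closed (fun n z s => ∀ t ≤ s, ¬ ∃ k U, m k (on n) t ∧
      m (op k U) u t ∧ m (zn z) U t) (fun n z p q hqp h t ht => h t (ht.trans hqp)) q₀ hstep
  obtain ⟨r2, hr2, z, hz⟩ := g.cc r f
  have hr2q : r2 ≤ q := hr2.trans (hr.trans hq₀)
  obtain ⟨r3, hr3, n', U, hnU, hzU⟩ := hcov (zn z) r2 hr2q (zn_XX z r2) r2 le_rfl
  have hr3q : r3 ≤ q := hr3.trans hr2q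
  obtain ⟨h1, hUτ⟩ := arg_on hu hr3q hnU
  obtain ⟨r4, hr4, n, hn⟩ := h1 r3 le_rfl
  obtain ⟨r5, hr5, i, hi, hb⟩ := (g.m_tau.1 hUτ).2 z r3 le_rfl hzU r4 hr4
  have hr5' : r5 ≤ r2 := hr5.trans (hr4.trans hr3)
  obtain ⟨k, hk, hkB⟩ := hz r5 hr5' i hi n
  have h5 : m (zn (f k)) U r5 := by
    have := hb _ hkB
    rwa [add_sub_cancel] at this
  refine hf k r5 (hr5'.trans hr2) ⟨n', U, ?_, RO.mono _ (hr5.trans hr4) hnU, h5⟩
  exact m_left (e_symm (RO.mono _ hr5 hn)) (m_on_on.2 hk)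

include g in
/-- sequences of elements, in the forcing language -/
theorem exists_seq {s A : VN P} {p : P} (hs : lg.isFun s (om P) A p)
    (hA : ∀ x, ∀ q ≤ p, m x A q → m x (XX Z P) q) :
    ∃ r ≤ p, ∃ f : ℕ → Z, ∀ n, m (op (on n) (zn (f n))) s r ∧ m (zn (f n)) A r := by
  refine decide_seq g.closed (fun n z r => m (op (on n) (zn z)) s r ∧ m (zn z) A r)
    (fun n z p q hqp h => ⟨RO.mono _ hqp h.1, RO.mono _ hqp h.2⟩) p ?_
  intro n q hq
  obtain ⟨r, hr, y, hy, hyA⟩ := app_on hs n q hq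
  obtain ⟨t, ht, z, hz⟩ := m_XX.1 (hA y r (hr.trans hq) hyA) r le_rfl
  exact ⟨t, ht.trans hr, z, m_left (op_congr (e_refl _ _) hz) (RO.mono _ ht hy),
    m_left hz (RO.mono _ ht hyA)⟩

theorem conv_iff {s A : VN P} {p : P} (hs : lg.isFun s (om P) A p) {f : ℕ → Z}
    (hf : ∀ n, m (op (on n) (zn (f n))) s p) (b : Z) :
    lg.conv (om P) g.tau s (zn b) p ↔ ∀ r ≤ p, ∀ i, g.dcd r i → ∃ n, ∀ k > n,
      f k - b ∈ g.B r i := by
  simp only [Lg.conv, ro_and, ro_all, ro_imp, ro_mem, ro_ex, app_iff]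
  constructor
  · intro h r hr i hi
    obtain ⟨t, ht, n', hn', h1⟩ := h (g.ball r i b) r hr ⟨g.ball_tau b hi le_rfl, by
      rw [m_ball, sub_self]; exact (g.B r i).zero_mem⟩ r le_rfl
    obtain ⟨u, hu, n, hn⟩ := m_om.1 hn' t le_rfl
    refine ⟨n, fun k hk => ?_⟩
    have h2 := h1 (on k) (zn (f k)) u hu ⟨m_left (e_symm hn) (m_on_on.2 hk),
      RO.mono _ (hu.trans (ht.trans hr)) (hf k)⟩
    exact g.m_ball.1 h2
  · rintro h U q hq ⟨hU, hb⟩ r hr
    obtain ⟨t, ht, i, hi, hball⟩ := (g.m_tau.1 hU).2 b q le_rfl hb r hr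
    obtain ⟨n, hn⟩ := h t (ht.trans (hr.trans hq)) i hi
    refine ⟨t, ht, on n, m_on_om n t, ?_⟩
    rintro k y u hu ⟨hk, hy⟩
    have hup : u ≤ p := hu.trans (ht.trans (hr.trans hq))
    refine RO.dense _ fun v hv => ?_
    obtain ⟨w, hw, k', hk'⟩ := (arg_on hs hup hy).1 v hv
    have h1 : n < k' := m_on_on.1 (m_right hk' (RO.mono _ (hw.trans hv) hk))
    have h2 : m (op (on k') y) s w :=
      m_left (op_congr hk' (e_refl _ _)) (RO.mono _ (hw.trans hv) hy)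
    have h3 : e y (zn (f k')) w := fun_unique hs (hw.trans (hv.trans hup)) h2
      (RO.mono _ (hw.trans (hv.trans hup)) (hf k'))
    refine ⟨w, hw, m_left (e_symm h3) ?_⟩
    have h4 := hball _ (hn k' h1)
    rw [add_sub_cancel] at h4
    exact RO.mono _ (hw.trans (hv.trans hu)) h4

theorem forced_sq (p : P) : lg.sq (om P) (XX Z P) g.tau p := by
  simp only [Lg.sq, ro_and, ro_all, ro_imp, ro_mem, ro_ex, sub_iff, ro_iff, ro_neg]
  rintro A q hq ⟨hA, hcl⟩ r hr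
  let ν : Z → RO P := fun z => (lg : Lg (RO P) (VN P)).neg (m (zn z) A)
  have hν : ∀ z p, ν z p ↔ ∀ q ≤ p, ¬ m (zn z) A q := fun z p => Iff.rfl
  refine ⟨r, le_rfl, nn zn ν, ?_, ?_⟩
  · rw [m_tau]
    constructor
    · intro x s hs hx
      refine m_XX.2 fun t ht => ?_
      obtain ⟨u, hu, z, _, hz⟩ := m_nn.1 hx t ht
      exact ⟨u, hu, z, hz⟩
    · intro z s hs hz t ht
      rw [m_nn_iff rig_zn, hν] at hz
      by_contra hcon
      push Not at hcon
      refine hz t ht (g.seq t z (fun z => m (zn z) A) ?_ ?_)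
      · intro u hu i hi
        obtain ⟨b, hb, hbn⟩ := hcon u hu i hi
        rw [m_nn_iff rig_zn, hν] at hbn
        push Not at hbn
        obtain ⟨v, hv, hm⟩ := hbn
        refine ⟨v, hv, z + b, hm, ?_⟩
        rw [add_sub_cancel_left]
        exact hb
      · intro u hu f b hfA hconv
        have huq : u ≤ q := hu.trans (ht.trans (hs.trans hr))
        refine hcl (fnm on (fun n => zn (f n))) (zn b) u huq ⟨?_, zn_XX b u, ?_⟩
        · exact isFun_fnm rig_on (fun x v hv hx w hw => m_om.1 hx w hw)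
            (fun n => m_on_om n u) hfA
        · rw [g.conv_iff (A := A) (f := f) ?_ ?_]
          · exact hconv
          · exact isFun_fnm rig_on (fun x v hv hx w hw => m_om.1 hx w hw)
              (fun n => m_on_om n u) hfA
          · intro n
            exact m_fm_self (y := fun n => op (on n) (zn (f n))) n
  · intro x s hs
    constructor
    · intro hx
      constructor
      · refine m_XX.2 fun t ht => ?_
        obtain ⟨u, hu, z, _, hz⟩ := m_nn.1 hx t ht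
        exact ⟨u, hu, z, hz⟩
      · intro t ht hxA
        obtain ⟨u, hu, z, hνz, hz⟩ := m_nn.1 hx t ht
        exact hνz u le_rfl (m_left hz (RO.mono _ hu hxA))
    · rintro ⟨hx, hxn⟩
      refine m_nn.2 fun t ht => ?_
      obtain ⟨u, hu, z, hz⟩ := m_XX.1 hx t ht
      refine ⟨u, hu, z, ?_, hz⟩
      rw [hν]
      intro v hv hm
      exact hxn v (hv.trans (hu.trans ht)) (m_left (e_symm (RO.mono _ hv hz)) hm)

theorem forced_not_fu (p : P) : ¬ lg.fu (om P) (XX Z P) g.tau p := by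
  intro h
  simp only [Lg.fu, ro_and, ro_all, ro_imp, ro_mem, ro_ex, sub_iff, Lg.meet] at h
  have hsub : ∀ x, ∀ q ≤ p, m x (fm fun y : g.Y => (zn y.1 : VN P)) q → m x (XX Z P) q := by
    intro x r hr hx
    refine m_XX.2 fun u hu => ?_
    obtain ⟨v, hv, y, hy⟩ := m_fm.1 hx u hu
    exact ⟨v, hv, y, hy⟩
  have hcl : ∀ U, ∀ q ≤ p, (m U g.tau q ∧ m (zn (0 : Z)) U q) → ∀ r ≤ q, ∃ s ≤ r, ∃ z,
      m z (fm fun y : g.Y => (zn y.1 : VN P)) s ∧ m z U s := by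
    rintro U r hr ⟨hU, h0⟩ t ht
    obtain ⟨u, hu, i, hi, hb⟩ := (g.m_tau.1 hU).2 0 r le_rfl h0 t ht
    obtain ⟨y, hy, hyB⟩ := g.fu1 u i hi
    refine ⟨u, hu, zn y, m_fm_self (y := fun y : g.Y => zn y.1) ⟨y, hy⟩, ?_⟩
    have := hb y hyB
    rwa [zero_add] at this
  obtain ⟨q, hq, s, hs, hconv⟩ := h (fm fun y : g.Y => (zn y.1 : VN P)) (zn (0 : Z)) p le_rfl
    ⟨hsub, zn_XX _ _, hcl⟩ p le_rfl
  obtain ⟨r, hr, f, hf⟩ := g.exists_seq hs (fun x t ht => hsub x t (ht.trans hq))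
  have hfY : ∀ n, f n ∈ g.Y := by
    intro n
    obtain ⟨t, _, y, hy⟩ := m_fm.1 (hf n).2 r le_rfl
    have := rig_zn _ _ t hy
    rw [this]
    exact y.2
  obtain ⟨t, ht, i, hi, hni⟩ := g.fu2 r f hfY
  have hs' := RO.mono _ hr hs
  have hconv' := RO.mono _ hr hconv
  rw [g.conv_iff hs' (fun n => (hf n).1)] at hconv'
  obtain ⟨n, hn⟩ := hconv' t ht i hi
  obtain ⟨k, hk, hkn⟩ := hni n
  have := hn k hk
  rw [sub_zero] at this
  exact hkn this

theorem ro_ex_of {f : VN P → RO P} {p : P} (x : VN P) (h : f x p) :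
    (lg : Lg (RO P) (VN P)).ex f p :=
  (ro_ex _ _ _).2 fun q hq => ⟨q, le_rfl, x, (f x).mono hq h⟩

include g in
theorem forced_tg (p : P) : (lg : Lg (RO P) (VN P)).tg p := by
  unfold Lg.tg
  refine ro_ex_of (om P) (ro_ex_of (XX Z P) (ro_ex_of (oo Z P) (ro_ex_of (zn (0 : Z))
    (ro_ex_of g.tau ?_))))
  rw [ro_and, ro_and, ro_and, ro_and, ro_and, ro_and, ro_and, ro_and, ro_neg]
  exact ⟨isOm_om p, forced_grp p, g.forced_isTop p, g.forced_cont2 p, g.forced_conti p,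
    g.forced_t2 p, g.forced_cc p, g.forced_sq p, fun r _ => g.forced_not_fu r⟩

end GT

end Pool.Agent.SymExt
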