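import Pool.Agent.SymExt.Top.Bits

/-!
# Finite sets of finite sequences are in the ground model
-/

set_option linter.unusedSectionVars false
set_option linter.unusedVariables false
set_option linter.unusedSimpArgs false

namespace Pool.Agent.SymExt

variable {P : Type} [PartialOrder P] [OrderTop P]

namespace SN

/-- the name of a finite set of sequences -/
noncomputable def gn {l : ℕ} (G : Set (Fin l → Bool)) : VN P := fm fun s : G => stn s.1

theorem m_gn {l : ℕ} {G : Set (Fin l → Bool)} {x : VN P} {p : P} :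
    m x (gn G) p ↔ ∀ q ≤ p, ∃ r ≤ q, ∃ s ∈ G, e x (stn s) r := by
  unfold gn
  rw [m_fm]
  refine forall_congr' fun q => forall_congr' fun _ => exists_congr fun r =>
    and_congr_right fun _ => ?_
  constructor
  · rintro ⟨⟨s, hs⟩, h⟩
    exact ⟨s, hs, h⟩
  · rintro ⟨s, hs, h⟩
    exact ⟨⟨s, hs⟩, h⟩

theorem stn_gn {l : ℕ} {G : Set (Fin l → Bool)} {s : Fin l → Bool} {p : P} :
    m (stn s) (gn G) p ↔ s ∈ G := by
  rw [m_gn]
  constructor
  · intro h
    obtain ⟨r, _, s', hs', he⟩ := h p le_rfl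
    rwa [stn_inj he]
  · intro h q _
    exact ⟨q, le_rfl, s, h, e_refl _ _⟩

theorem decide_set {c : VN P} {l : ℕ} {p : P}
    (hc : ∀ x, ∀ q ≤ p, m x c q → lg.isFun x (on l) (on 2) q) :
    ∀ q ≤ p, ∃ r ≤ q, ∃ G : Set (Fin l → Bool), e c (gn G) r := by
  classical
  intro q hq
  obtain ⟨r, hr, M, h1, _⟩ := list_dense (P := P)
    (fun (s : Fin l → Bool) (b : Bool) t => (b = true → m (stn s) c t) ∧
      (b = false → ∀ u ≤ t, ¬ m (stn s) c u))
    (fun s b {t u} hut h => ⟨fun hb => RO.mono _ hut (h.1 hb),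
      fun hb v hv => h.2 hb v (hv.trans hut)⟩)
    (Finset.univ : Finset (Fin l → Bool)).toList q (fun s _ t ht => by
      by_cases h : ∃ u ≤ t, m (stn s) c u
      · obtain ⟨u, hu, h⟩ := h
        exact ⟨u, hu, true, fun _ => h, fun h => by simp at h⟩
      · exact ⟨t, le_rfl, false, fun h => by simp at h, fun _ u hu h' => h ⟨u, hu, h'⟩⟩)
  refine ⟨r, hr, {s | m (stn s) c r}, e_ext fun t ht z => ?_⟩
  rw [m_gn]
  constructor
  · intro hz u hu
    have hut := hu.trans ht
    obtain ⟨v, hv, s, hs⟩ := decide_stn (hc z u (hut.trans (hr.trans hq)) (RO.mono _ hu hz))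
      u le_rfl
    obtain ⟨b, _, hb1, hb2⟩ := h1 s (by simp)
    have h3 : m (stn s) c v := m_left hs (RO.mono _ (hv.trans hu) hz)
    refine ⟨v, hv, s, ?_, hs⟩
    by_cases hb : b = true
    · exact hb1 hb
    · exact absurd h3 (hb2 (by simpa using hb) v (hv.trans hut))
  · intro h
    refine RO.dense _ fun u hu => ?_
    obtain ⟨v, hv, s, hs, he⟩ := h u hu
    exact ⟨v, hv, m_left (e_symm he) (RO.mono _ (hv.trans (hu.trans ht)) hs)⟩

theorem small_card {c : VN P} {l j : ℕ} {G : Set (Fin l → Bool)} {p : P}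
    (h : lg.small (on 2) c (on l) (on j) p) (hc : e c (gn G) p) :
    Nat.card G * 2 ^ j ≤ 2 ^ l := by
  classical
  simp only [Lg.small, ro_all, ro_imp, ro_and, ro_mem, ro_ex, ro_eq, app_iff, empty_iff] at h
  obtain ⟨q, hq, e', h1, h2⟩ := h.2 p le_rfl
  obtain ⟨r, hr, M, h3, _⟩ := list_dense (P := P)
    (fun (s : Fin l → Bool) (b : Fin l → Bool) t => m (op (stn s) (stn b)) e' t ∧
      (∀ i : Fin l, i.1 < j → b i = false) ∧ j ≤ l)
    (fun s b {t u} hut h => ⟨RO.mono _ hut h.1, h.2⟩)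
    G.toFinset.toList q (fun s hs t ht => by
      rw [Finset.mem_toList, Set.mem_toFinset] at hs
      obtain ⟨u, hu, y, h4, h5, h6⟩ := h1 (stn s) t ht
        (m_right (e_symm (RO.mono _ (ht.trans hq) hc)) (stn_gn.2 hs)) t le_rfl
      obtain ⟨v, hv, b, hb⟩ := decide_stn h5 u le_rfl
      refine ⟨v, hv.trans hu, b, m_left (op_congr (e_refl _ _) hb) (RO.mono _ hv h4), ?_, ?_⟩
      · intro i hi
        obtain ⟨w, hw, z, h7, h8⟩ := h6 (on i) v hv (m_on_on.2 hi) v le_rfl
        have h9 : m (op (on i) (on (false.toNat))) (stn b) w :=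
          m_right (RO.mono _ hw hb) (m_left (op_congr (e_refl _ _) h7) h8)
        exact m_stn.1 h9
      · by_contra hjl
        push Not at hjl
        obtain ⟨w, hw, z, h7, h8⟩ := h6 (on l) u le_rfl (m_on_on.2 hjl) u le_rfl
        obtain ⟨w1, hw1, a, a', ha, _, hea⟩ := (isFun_iff.1 h5).1 _ w hw h8 w le_rfl
        obtain ⟨h10, _⟩ := op_inj hea
        have h11 : m (on l) (on l : VN P) w1 := m_left (e_symm h10) ha
        exact absurd (m_on_on.1 h11) (lt_irrefl l))
  have h4 : ∀ s : G, ∃ b : Fin l → Bool, m (op (stn s.1) (stn b)) e' r ∧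
      (∀ i : Fin l, i.1 < j → b i = false) ∧ j ≤ l := by
    rintro ⟨s, hs⟩
    obtain ⟨b, _, hb⟩ := h3 s (by rw [Finset.mem_toList, Set.mem_toFinset]; exact hs)
    exact ⟨b, hb⟩
  choose b hb1 hb2 hb3 using h4
  rcases isEmpty_or_nonempty G with hG | ⟨⟨s0⟩⟩
  · simp
  · have hjl := hb3 s0
    let f : G → (Fin (l - j) → Bool) := fun s i => b s ⟨i.1 + j, by omega⟩
    have hf : Function.Injective f := by
      intro s s' hss
      have hbb : b s = b s' := by
        funext i
        by_cases hi : i.1 < j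
        · rw [hb2 s i hi, hb2 s' i hi]
        · have := congrFun hss ⟨i.1 - j, by omega⟩
          simp only [f] at this
          have hi' : (⟨i.1 - j + j, by omega⟩ : Fin l) = i := Fin.ext (by simp; omega)
          rwa [hi'] at this
      have h5 := hb1 s'
      rw [← hbb] at h5
      have hsm := (h2 (stn s.1) (stn s'.1) (stn (b s)) r hr ⟨?_, ?_, hb1 s, h5⟩)
      · exact Subtype.ext (stn_inj hsm)
      · exact m_right (e_symm (RO.mono _ (hr.trans hq) hc)) (stn_gn.2 s.2)
      · exact m_right (e_symm (RO.mono _ (hr.trans hq) hc)) (stn_gn.2 s'.2)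
    have hcard := Nat.card_le_card_of_injective f hf
    have h6 : Nat.card (Fin (l - j) → Bool) = 2 ^ (l - j) := by simp
    rw [h6] at hcard
    calc Nat.card G * 2 ^ j ≤ 2 ^ (l - j) * 2 ^ j := Nat.mul_le_mul_right _ hcard
      _ = 2 ^ l := by rw [← pow_add]; congr 1; omega

end SN

end Pool.Agent.SymExt
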