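import Pool.Agent.SymExt.Top.GSFu

/-!
# Generic topologies: the space of quasicontinuous functions is Frechet-Urysohn
-/

set_option linter.unusedSectionVars false
set_option linter.unusedVariables false
set_option linter.unusedSimpArgs false

namespace Pool.Agent.SymExt

namespace GS

open SN

variable {Z P Ix : Type} [PartialOrder P] [OrderTop P] (g : GS Z P Ix)

variable {g}

theorem fu_dense {A G : VN P} {p : P}
    (hA : ∀ f, ∀ q ≤ p, m f A q → lg.qc g.XX (g.tau g.ok) (RR P) (LL P) f q)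
    (hG : lg.qc g.XX (g.tau g.ok) (RR P) (LL P) G p)
    (hcl : lg.clos (om P) g.XX (RR P) (LL P) G A p) {ε : ℝ} (hε : 0 < ε) {q : P} (hq : q ≤ p)
    (F : List Z) (S : List Ix) (hF : ∀ x ∈ F, g.pt q x) (hS : ∀ k ∈ S, g.ok q k) :
    ∃ r ≤ q, ∃ S' : List Ix, (∀ k ∈ S, ∃ k' ∈ S', g.ok r k' ∧ ∀ y, g.mm y k' → g.mm y k) ∧
      ∃ f, m f A r ∧ ∀ x, ∀ u ≤ r, g.pt u x → (x ∈ F ∨ ∃ k ∈ S', g.mm x k) → ∀ a b : ℝ,
        m (op (zn x) (zn a)) f u → m (op (zn x) (zn b)) G u → |a - b| < 4 * ε := by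
  have hGf := qc_fun hG
  -- values at the points of `F`
  obtain ⟨q1, hq1, L1, hL1, hL1'⟩ := list_dense
    (fun (x : Z) (a : Z × ℝ) s => a.1 = x ∧ g.pt s a.1 ∧ m (op (zn a.1) (zn a.2)) G s)
    (fun x a {s t} hts h => ⟨h.1, g.pt_mono hts h.2.1, RO.mono _ hts h.2.2⟩) F q
    (fun x hx s hs => by
      obtain ⟨t, ht, d, hd⟩ := exists_val (RO.mono _ hq hGf) (hF x hx) s hs
      exact ⟨t, ht, (x, d), rfl, g.pt_mono (ht.trans hs) (hF x hx), hd⟩)
  -- small sets in `S`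
  obtain ⟨q2, hq2, L2, hL2, hL2'⟩ := list_dense
    (fun (k : Ix) (a : Ix × Z × ℝ) s => g.ok s a.1 ∧ g.pt s a.2.1 ∧ g.mm a.2.1 a.1 ∧
      (∀ y, g.mm y a.1 → g.mm y k) ∧ m (op (zn a.2.1) (zn a.2.2)) G s ∧
      g.vb G a.1 a.2.2 (2 * ε) s)
    (fun x a {s t} hts h => ⟨g.ok_mono hts h.1, g.pt_mono hts h.2.1, h.2.2.1, h.2.2.2.1,
      RO.mono _ hts h.2.2.2.2.1, vb_mono hts h.2.2.2.2.2⟩) S q1
    (fun k hk s hs => by
      obtain ⟨t, ht, x, hx, _, hxk⟩ := g.add s k (g.ok_mono (hs.trans hq1) (hS k hk))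
      have htp : t ≤ p := ht.trans (hs.trans (hq1.trans hq))
      obtain ⟨u, hu, d, hd⟩ := exists_val (RO.mono _ htp hGf) hx t le_rfl
      obtain ⟨v, hv, l, y, hl, hy, hyl, hlk, hvb⟩ := qc_ext hG hε (hu.trans htp)
        (g.pt_mono hu hx) (g.ok_mono (hu.trans (ht.trans (hs.trans hq1))) (hS k hk)) hxk hd
      obtain ⟨w, hw, c, hc⟩ := exists_val (RO.mono _ (hv.trans (hu.trans htp)) hGf) hy v le_rfl
      have hcd := hvb y w hw (g.pt_mono hw hy) hyl c hc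
      refine ⟨w, hw.trans (hv.trans (hu.trans ht)), (l, y, c), g.ok_mono hw hl,
        g.pt_mono hw hy, hyl, hlk, hc, fun y' w' hw' h1 h2 b hb => ?_⟩
      have hbd := hvb y' w' (hw'.trans hw) h1 h2 b hb
      rw [abs_lt] at hcd hbd ⊢
      constructor <;> linarith [hcd.1, hcd.2, hbd.1, hbd.2])
  -- the function
  obtain ⟨r, hr, f, hf, hfL⟩ := clos_ext hGf hcl hε (hq2.trans (hq1.trans hq))
    (L1 ++ L2.map fun a => a.2) (fun a ha => by
      rcases List.mem_append.1 ha with ha | ha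
      · obtain ⟨x, _, _, h1, h2⟩ := hL1' a ha
        exact ⟨g.pt_mono hq2 h1, RO.mono _ hq2 h2⟩
      · obtain ⟨b, hb, rfl⟩ := List.mem_map.1 ha
        obtain ⟨x, _, _, h1, _, _, h2, _⟩ := hL2' b hb
        exact ⟨h1, h2⟩)
  have hrp : r ≤ p := hr.trans (hq2.trans (hq1.trans hq))
  have hqf := hA f r hrp hf
  have hff := qc_fun hqf
  obtain ⟨r', hr', M, hM, hM'⟩ := list_dense
    (fun (a : Ix × Z × ℝ) (k : Ix) s => g.ok s k ∧ (∀ y, g.mm y k → g.mm y a.1) ∧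
      g.vb f k a.2.2 (2 * ε) s)
    (fun x a {s t} hts h => ⟨g.ok_mono hts h.1, h.2.1, vb_mono hts h.2.2⟩) L2 r
    (fun a ha s hs => by
      obtain ⟨x, _, h1, h2, h3, _, _, _⟩ := hL2' a ha
      have hs2 : s ≤ q2 := hs.trans hr
      obtain ⟨t, ht, d, hd⟩ := exists_val (RO.mono _ hs hff) (g.pt_mono hs2 h2) s le_rfl
      have hdc := hfL a.2 (List.mem_append.2 (Or.inr (List.mem_map.2 ⟨a, ha, rfl⟩))) t
        (ht.trans hs) d hd
      obtain ⟨v, hv, l, y, hl, hy, hyl, hlk, hvb⟩ := qc_ext hqf hε (ht.trans hs)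
        (g.pt_mono (ht.trans hs2) h2) (g.ok_mono (ht.trans hs2) h1) h3 hd
      refine ⟨v, hv.trans ht, l, hl, hlk, fun y' w' hw' h1 h2 b hb => ?_⟩
      have hbd := hvb y' w' hw' h1 h2 b hb
      rw [abs_lt] at hdc hbd ⊢
      constructor <;> linarith [hdc.1, hdc.2, hbd.1, hbd.2])
  refine ⟨r', hr'.trans (hr.trans (hq2.trans hq1)), M, fun k hk => ?_, f, RO.mono _ hr' hf,
    fun x u hu hx hxFM a b ha hb => ?_⟩
  · obtain ⟨a, ha, _, _, _, h1, _⟩ := hL2 k hk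
    obtain ⟨k', hk', h2, h3, _⟩ := hM a ha
    exact ⟨k', hk', h2, fun y hy => h1 y (h3 y hy)⟩
  · have hur : u ≤ r := hu.trans hr'
    rcases hxFM with hxF | ⟨k, hk, hxk⟩
    · obtain ⟨c, hc, rfl, h1, h2⟩ := hL1 x hxF
      have h3 := hfL c (List.mem_append.2 (Or.inl hc)) u hur a ha
      have h4 := val_unique hGf (hur.trans hrp) hb (RO.mono _ (hur.trans (hr.trans hq2)) h2)
      subst h4
      exact h3.trans (by linarith)
    · obtain ⟨c, hc, h1, h2, h3⟩ := hM' k hk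
      obtain ⟨_, _, _, _, _, _, _, h4⟩ := hL2' c hc
      have h5 := h3 x u hu hx hxk a ha
      have h6 := h4 x u (hur.trans hr) hx (h2 x hxk) b hb
      rw [abs_lt] at h5 h6 ⊢
      constructor <;> linarith [h5.1, h5.2, h6.1, h6.2]

theorem forced_qfu (g : GS Z P Ix) (p : P) :
    lg.qfu (om P) g.XX (g.tau g.ok) (RR P) (LL P) p := by
  simp only [Lg.qfu, ro_and, ro_all, ro_imp, ro_mem, ro_ex]
  rintro A G q hq ⟨hA, hG, hcl⟩ r0 hr0
  let Θ : ℕ → P → List Z → List Ix → Prop := fun n s F S => ∃ f, m f A s ∧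
    ∀ x, ∀ u ≤ s, g.pt u x → (x ∈ F ∨ ∃ k ∈ S, g.mm x k) → ∀ a b : ℝ,
        m (op (zn x) (zn a)) f u → m (op (zn x) (zn b)) G u → |a - b| < 1 / (n + 1 : ℝ)
  obtain ⟨r, hr, F, S, h1, h2⟩ := g.fus (fun n s F S => (∀ t ≤ s, ¬ t ≤ q) ∨ Θ n s F S)
    (fun n s t F S hts h => by
      rcases h with h | ⟨f, h3, h4⟩
      · exact Or.inl fun u hu => h u (hu.trans hts)
      · exact Or.inr ⟨f, RO.mono _ hts h3, fun x u hu => h4 x u (hu.trans hts)⟩)
    (fun n s F S hF hS => by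
      by_cases h : ∀ t ≤ s, ¬ t ≤ q
      · exact ⟨s, le_rfl, S, fun k hk => ⟨k, hk, hS k hk, fun _ h => h⟩, Or.inl h⟩
      · push Not at h
        obtain ⟨t, ht, htq⟩ := h
        have hn : (0 : ℝ) < 1 / (n + 1 : ℝ) := by positivity
        obtain ⟨u, hu, S', h3, f, h4, h5⟩ := fu_dense hA hG hcl
          (ε := 1 / (n + 1 : ℝ) / 4) (by positivity) htq F S
          (fun x hx => g.pt_mono ht (hF x hx)) (fun k hk => g.ok_mono ht (hS k hk))
        refine ⟨u, hu.trans ht, S', h3, Or.inr ⟨f, h4, fun x v hv h6 h7 a b h8 h9 => ?_⟩⟩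
        have := h5 x v hv h6 h7 a b h8 h9
        linarith) r0
  have hrq : r ≤ q := hr.trans hr0
  have hΘ : ∀ n, Θ n r (F n) (S n) := fun n => by
    rcases h1 n with h | h
    · exact absurd hrq (h r le_rfl)
    · exact h
  choose f hf hfG using hΘ
  refine ⟨r, hr, fnm on f, isFun_fnm rig_on (fun x r hr hx s hs =>
    m_om.1 hx s hs) (fun n => m_on_om n r) hf, ?_⟩
  simp only [Lg.pconv, Lg.btw, ro_and, ro_all, ro_imp, ro_mem, ro_ex, app_iff]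
  rintro x y a b s hs ⟨hxy, hay, hyb⟩ t ht
  have hGf := qc_fun hG
  obtain ⟨u, hu, z, c, hz, hxz, hyc, hGz⟩ := app_XX hGf (hs.trans hrq) hxy t ht
  have hus := hu.trans ht
  have hay' := LL_congr (e_refl _ _) hyc (RO.mono _ hus hay)
  have hyb' := LL_congr hyc (e_refl _ _) (RO.mono _ hus hyb)
  obtain ⟨u1, hu1, a', c1, hac, ha', hc1⟩ := m_LL.1 hay' u le_rfl
  have := rig_zn _ _ _ hc1
  subst this
  obtain ⟨v, hv, b', hcb, hb'⟩ := LL_left.1 hyb' u1 hu1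
  have hvu : v ≤ u := hv.trans hu1
  have hvr : v ≤ r := hvu.trans (hus.trans hs)
  have ha'' : e a (zn a') v := RO.mono _ hv ha'
  obtain ⟨N1, hN1⟩ := h2 v hvr z (g.pt_mono hvu hz)
  obtain ⟨N2, hN2⟩ := exists_nat_one_div_lt (sub_pos.2 hac)
  obtain ⟨N3, hN3⟩ := exists_nat_one_div_lt (sub_pos.2 hcb)
  refine ⟨v, hvu.trans hu, on (max N1 (max N2 N3)), m_on_om _ _, ?_⟩
  rintro k f' y' w hw ⟨hk, hkf, hfy⟩
  have hwr : w ≤ r := hw.trans hvr
  have key : ∀ w1 ≤ w, ∃ w2 ≤ w1, m (op a y') (LL P) w2 ∧ m (op y' b) (LL P) w2 := by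
    intro w1 hw1
    obtain ⟨w2, hw2, k', hkk, hff⟩ := m_op_fnm.1 hkf w1 hw1
    have hw2w : w2 ≤ w := hw2.trans hw1
    have hkN : max N1 (max N2 N3) < k' := m_on_on.1 (m_right hkk (RO.mono _ hw2w hk))
    have hqf := hA (f k') w2 (hw2w.trans (hwr.trans hrq))
      (RO.mono _ (hw2w.trans hwr) (hf k'))
    obtain ⟨w3, hw3, z', d, hz', hxz', hyd, hfz⟩ := app_XX (qc_fun hqf) le_rfl
      (m_right hff (RO.mono _ hw2w hfy)) w2 le_rfl
    have hw3w : w3 ≤ w := hw3.trans hw2w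
    have hw3v : w3 ≤ v := hw3w.trans hw
    have := rig_zn _ _ _ (e_trans (e_symm (RO.mono _ (hw3v.trans hvu) hxz)) hxz')
    subst this
    have h5 := hfG k' z w3 (hw3v.trans hvr) hz' (hN1 k' (by omega)) d c hfz
      (RO.mono _ (hw3v.trans hvu) hGz)
    have h6 : (1 : ℝ) / (k' + 1 : ℝ) ≤ 1 / (N2 + 1 : ℝ) := by
      apply one_div_le_one_div_of_le (by positivity)
      have : (N2 : ℝ) ≤ k' := by exact_mod_cast (by omega : N2 ≤ k')
      linarith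
    have h7 : (1 : ℝ) / (k' + 1 : ℝ) ≤ 1 / (N3 + 1 : ℝ) := by
      apply one_div_le_one_div_of_le (by positivity)
      have : (N3 : ℝ) ≤ k' := by exact_mod_cast (by omega : N3 ≤ k')
      linarith
    rw [abs_lt] at h5
    refine ⟨w3, hw3.trans hw2, ?_, ?_⟩
    · exact LL_congr (e_symm (RO.mono _ hw3v ha'')) (e_symm hyd) (LL_zn.2 (by linarith [h5.1]))
    · exact LL_congr (e_symm hyd) (e_symm (RO.mono _ hw3v hb')) (LL_zn.2 (by linarith [h5.2]))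
  exact ⟨RO.dense _ fun t ht => (key t ht).imp fun v hv => ⟨hv.1, hv.2.1⟩,
    RO.dense _ fun t ht => (key t ht).imp fun v hv => ⟨hv.1, hv.2.2⟩⟩

theorem forced_qs (g : GS Z P Ix) (p : P) : (lg : Lg (RO P) (VN P)).qs p := by
  simp only [Lg.qs, ro_ex, ro_and]
  intro q _
  refine ⟨q, le_rfl, om P, fun q1 _ => ⟨q1, le_rfl, RR P, fun q2 _ => ⟨q2, le_rfl, LL P,
    fun q3 _ => ⟨q3, le_rfl, g.XX, fun q4 _ => ⟨q4, le_rfl, g.tau g.ok, isOm_om _,
      forced_real g.closed _, g.forced_isTop g.fam_ok _, g.forced_t2 g.fam_ok _,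
      g.forced_reg g.fam_ok _, g.forced_sreg g.fam_ok _, g.forced_owhy _, g.forced_fctb _,
      g.forced_smet _, g.forced_unc _, g.forced_qfu _⟩⟩⟩⟩⟩

end GS

end Pool.Agent.SymExt
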