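import Pool.Agent.SymExt.Top.Fun

/-!
# Generic group topologies on a ground model group

`GT`: a countably closed set of conditions deciding a linear group topology on a ground model
abelian group `Z`.
-/

set_option linter.unusedSectionVars false
set_option linter.unusedVariables false
set_option linter.unusedSimpArgs false

namespace Pool.Agent.SymExt

/-- generic linear group topology -/
structure GT (Z P Ix : Type) [AddCommGroup Z] [PartialOrder P] [OrderTop P] where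
  closed : ∀ c : ℕ → P, (∀ n, c (n + 1) ≤ c n) → ∃ d, ∀ n, d ≤ c n
  dcd : P → Ix → Prop
  B : P → Ix → AddSubgroup Z
  dcd_mono : ∀ {p q : P} {i : Ix}, q ≤ p → dcd p i → dcd q i
  B_eq : ∀ {p q : P} {i : Ix}, q ≤ p → dcd p i → B q i = B p i
  i₀ : Ix
  dcd_i₀ : ∀ p, dcd p i₀
  dir : ∀ p i j, dcd p i → dcd p j → ∃ k, dcd p k ∧ B p k ≤ B p i ∧ B p k ≤ B p j
  t2 : ∀ p z, z ≠ 0 → ∃ q ≤ p, ∃ i, dcd q i ∧ z ∉ B q i
  cc : ∀ p (s : ℕ → Z), ∃ q ≤ p, ∃ z, ∀ r ≤ q, ∀ i, dcd r i → ∀ n, ∃ k > n, s k - z ∈ B r i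
  seq : ∀ p a (A : Z → RO P),
    (∀ q ≤ p, ∀ i, dcd q i → ∃ r ≤ q, ∃ b, A b r ∧ b - a ∈ B q i) →
    (∀ q ≤ p, ∀ (s : ℕ → Z) b, (∀ n, A (s n) q) →
      (∀ r ≤ q, ∀ i, dcd r i → ∃ n, ∀ k > n, s k - b ∈ B r i) → A b q) → A a p
  Y : Set Z
  fu1 : ∀ p i, dcd p i → ∃ y ∈ Y, y ∈ B p i
  fu2 : ∀ p (s : ℕ → Z), (∀ n, s n ∈ Y) → ∃ q ≤ p, ∃ i, dcd q i ∧ ∀ n, ∃ k > n, s k ∉ B q i

variable {Z P Ix : Type} [AddCommGroup Z] [PartialOrder P] [OrderTop P]

/-- deciding countably many things -/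
theorem decide_seq (closed : ∀ c : ℕ → P, (∀ n, c (n + 1) ≤ c n) → ∃ d, ∀ n, d ≤ c n)
    {α : Type} (Φ : ℕ → α → P → Prop) (hm : ∀ n a {p q}, q ≤ p → Φ n a p → Φ n a q) (p : P)
    (h : ∀ n, ∀ q ≤ p, ∃ r ≤ q, ∃ a, Φ n a r) : ∃ r ≤ p, ∃ f : ℕ → α, ∀ n, Φ n (f n) r := by
  obtain ⟨_, _, a0, _⟩ := h 0 p le_rfl
  have : Nonempty α := ⟨a0⟩
  choose! g hg f hf using h
  let c : ℕ → P := fun n => Nat.rec p (fun n q => g n q) n
  have hc : ∀ n, c n ≤ p := by
    intro n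
    induction n with
    | zero => exact le_rfl
    | succ n ih => exact (hg n (c n) ih).trans ih
  have hd : ∀ n, c (n + 1) ≤ c n := fun n => hg n (c n) (hc n)
  obtain ⟨d, hd'⟩ := closed c hd
  exact ⟨d, hd' 0, fun n => f n (c n), fun n => hm _ _ (hd' (n + 1)) (hf n (c n) (hc n))⟩

namespace GT

open SN

variable (g : GT Z P Ix)

variable (Z P) in
/-- the name of the set `Z` -/
noncomputable def XX : VN P := fm (zn : Z → VN P)

theorem m_XX {x : VN P} {p : P} : m x (XX Z P) p ↔ ∀ q ≤ p, ∃ r ≤ q, ∃ z : Z, e x (zn z) r := m_fm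

theorem zn_XX (z : Z) (p : P) : m (zn z) (XX Z P) p := m_fm_self z

variable (Z P) in
/-- the name of the group operation -/
noncomputable def oo : VN P :=
  fnm (fun a : Z × Z => op (zn a.1) (zn a.2)) (fun a : Z × Z => zn (a.1 + a.2))

theorem m_oo {x y w : VN P} {p : P} : m (op (op x y) w) (oo Z P) p ↔
    ∀ q ≤ p, ∃ r ≤ q, ∃ a b : Z, e x (zn a) r ∧ e y (zn b) r ∧ e w (zn (a + b)) r := by
  unfold oo
  rw [m_op_fnm]
  refine forall_congr' fun q => forall_congr' fun _ => exists_congr fun r =>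
    and_congr_right fun _ => ?_
  constructor
  · rintro ⟨⟨a, b⟩, h1, h2⟩
    obtain ⟨h3, h4⟩ := op_inj h1
    exact ⟨a, b, h3, h4, h2⟩
  · rintro ⟨a, b, h1, h2, h3⟩
    exact ⟨(a, b), op_congr h1 h2, h3⟩

theorem oo_zn {a b : Z} {w : VN P} {p : P} :
    m (op (op (zn a) (zn b)) w) (oo Z P) p ↔ e w (zn (a + b)) p := by
  rw [m_oo]
  constructor
  · intro h
    refine RO.dense _ fun q hq => ?_
    obtain ⟨r, hr, a', b', h1, h2, h3⟩ := h q hq
    have ha := rig_zn a a' r h1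
    have hb := rig_zn b b' r h2
    subst ha; subst hb
    exact ⟨r, hr, h3⟩
  · intro h q hq
    exact ⟨q, le_rfl, a, b, e_refl _ _, e_refl _ _, RO.mono _ hq h⟩

/-- open sets of elements -/
def Opn (U : VN P) (p : P) : Prop := ∀ z : Z, ∀ q ≤ p, m (zn z) U q → ∀ r ≤ q, ∃ s ≤ r, ∃ i,
  g.dcd s i ∧ ∀ b ∈ g.B s i, m (zn (z + b)) U s

theorem Opn_mono {U : VN P} {p q : P} (hq : q ≤ p) (h : g.Opn U p) : g.Opn U q :=
  fun z r hr => h z r (hr.trans hq)

theorem exists_tau : ∃ τ : VN P, ∀ U p, m U τ p ↔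
    (∀ x, ∀ q ≤ p, m x U q → m x (XX Z P) q) ∧ g.Opn U p := by
  obtain ⟨τ, hτ⟩ := exists_nn (P := P) (ι := Z → RO P) (fun ν => nn zn ν)
    (fun ν p => g.Opn (nn zn ν) p) (fun ν p q hq h => g.Opn_mono hq h)
  refine ⟨τ, fun U p => ?_⟩
  rw [hτ]
  constructor
  · intro h
    constructor
    · intro x q hq hx
      refine RO.dense _ fun r hr => ?_
      obtain ⟨s, hs, ν, _, he⟩ := h r (hr.trans hq)
      have hx' : m x (nn zn ν) s := m_right he (RO.mono _ (hs.trans hr) hx)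
      obtain ⟨t, ht, z, _, hz⟩ := m_nn.1 hx' s le_rfl
      exact ⟨t, ht.trans hs, m_left (e_symm hz) (zn_XX z t)⟩
    · intro z q hq hz r hr
      obtain ⟨s, hs, ν, hν, he⟩ := h r (hr.trans hq)
      have hz' : m (zn z) (nn zn ν) s := m_right he (RO.mono _ (hs.trans hr) hz)
      obtain ⟨t, ht, i, hi, hb⟩ := hν z s le_rfl hz' s le_rfl
      exact ⟨t, ht.trans hs, i, hi, fun b hb' => m_right (e_symm (RO.mono _ ht he)) (hb b hb')⟩
  · rintro ⟨h1, h2⟩ q hq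
    let ν : Z → RO P := fun z => m (zn z) U
    have he : e U (nn zn ν) q := by
      refine e_ext fun r hr z => ?_
      constructor
      · intro hz
        refine m_nn.2 fun s hs => ?_
        obtain ⟨t, ht, z', hz'⟩ := m_XX.1 (h1 z r (hr.trans hq) hz) s hs
        exact ⟨t, ht, z', m_left hz' (RO.mono _ (ht.trans hs) hz), hz'⟩
      · intro hz
        refine RO.dense _ fun s hs => ?_
        obtain ⟨t, ht, z', hz', he⟩ := m_nn.1 hz s hs
        exact ⟨t, ht, m_left (e_symm he) hz'⟩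
    refine ⟨q, le_rfl, ν, fun z r hr hz s hs => ?_, he⟩
    have hz' : m (zn z) U r := m_right (e_symm (RO.mono _ hr he)) hz
    obtain ⟨t, ht, i, hi, hb⟩ := h2 z r (hr.trans hq) hz' s hs
    exact ⟨t, ht, i, hi, fun b hb' => m_right (RO.mono _ (ht.trans (hs.trans hr)) he) (hb b hb')⟩

/-- the name of the topology -/
noncomputable def tau : VN P := g.exists_tau.choose

theorem m_tau {U : VN P} {p : P} : m U g.tau p ↔
    (∀ x, ∀ q ≤ p, m x U q → m x (XX Z P) q) ∧ g.Opn U p := g.exists_tau.choose_spec U p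

/-- balls -/
noncomputable def ball (p : P) (i : Ix) (z : Z) : VN P := fm fun b : g.B p i => zn (z + b)

theorem m_ball {p q : P} {i : Ix} {z w : Z} : m (zn w) (g.ball p i z) q ↔ w - z ∈ g.B p i := by
  unfold ball
  rw [m_fm]
  constructor
  · intro h
    obtain ⟨r, _, b, hb⟩ := h q le_rfl
    have := rig_zn _ _ _ hb
    rw [this, add_sub_cancel_left]
    exact b.2
  · intro h r _
    refine ⟨r, le_rfl, ⟨_, h⟩, ?_⟩
    have : z + (w - z) = w := by abel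
    rw [this]
    exact e_refl _ _

theorem of_ball {p q : P} {i : Ix} {z : Z} {x : VN P} (h : m x (g.ball p i z) q) :
    ∀ r ≤ q, ∃ s ≤ r, ∃ b ∈ g.B p i, e x (zn (z + b)) s := by
  intro r hr
  obtain ⟨s, hs, b, hb⟩ := m_fm.1 h r hr
  exact ⟨s, hs, b, b.2, hb⟩

theorem ball_tau {p q : P} {i : Ix} (z : Z) (hp : g.dcd p i) (hq : q ≤ p) :
    m (g.ball p i z) g.tau q := by
  rw [m_tau]
  constructor
  · intro x r hr hx
    refine m_XX.2 fun s hs => ?_
    obtain ⟨t, ht, b, _, hb⟩ := g.of_ball hx s hs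
    exact ⟨t, ht, _, hb⟩
  · intro w r hr hw s hs
    have hsp : s ≤ p := hs.trans (hr.trans hq)
    refine ⟨s, le_rfl, i, g.dcd_mono hsp hp, fun b hb => ?_⟩
    rw [g.B_eq hsp hp] at hb
    rw [m_ball] at hw ⊢
    have : w + b - z = (w - z) + b := by abel
    rw [this]
    exact (g.B p i).add_mem hw hb

/-! ### the group -/

theorem forced_grp (p : P) : lg.grp (XX Z P) (oo Z P) (zn (0 : Z)) p := by
  simp only [Lg.grp, ro_and, ro_all, ro_imp, ro_mem, ap2_iff]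
  refine ⟨?_, ?_, zn_XX (0 : Z) p, ?_, ?_⟩
  · rw [ro_ex]
    intro q hq
    refine ⟨q, le_rfl, fm fun a : Z × Z => op (zn a.1) (zn a.2), ?_⟩
    rw [ro_and]
    constructor
    · rw [isProd_iff]
      intro z r hr
      rw [m_fm]
      refine forall_congr' fun s => forall_congr' fun _ => ?_
      constructor
      · rintro ⟨t, ht, a, ha⟩
        exact ⟨t, ht, zn a.1, zn a.2, zn_XX _ _, zn_XX _ _, ha⟩
      · rintro ⟨t, ht, x, y, hx, hy, he⟩
        obtain ⟨u, hu, a, ha⟩ := m_XX.1 hx t le_rfl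
        obtain ⟨v, hv, b, hb⟩ := m_XX.1 hy u hu
        exact ⟨v, hv.trans (hu.trans ht), (a, b), e_trans (RO.mono _ (hv.trans hu) he)
          (op_congr (RO.mono _ hv ha) hb)⟩
    · refine isFun_fnm ?_ (fun x r hr hx s hs => ?_) (fun a => m_fm_self a)
        (fun a => zn_XX _ _)
      · intro a b r h
        obtain ⟨h1, h2⟩ := op_inj h
        exact Prod.ext (rig_zn _ _ _ h1) (rig_zn _ _ _ h2)
      · exact m_fm.1 hx s hs
  · intro x y z a b c q hq h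
    obtain ⟨h1, h2, h3⟩ := h
    refine RO.dense _ fun r hr => ?_
    obtain ⟨r1, hr1, x1, y1, hx, hy, ha⟩ := m_oo.1 h1 r hr
    obtain ⟨r2, hr2, a2, z2, ha2, hz2, hc⟩ := m_oo.1 h2 r1 (hr1.trans hr)
    obtain ⟨r3, hr3, y3, z3, hy3, hz3, hb⟩ := m_oo.1 h3 r2 (hr2.trans (hr1.trans hr))
    have e1 : a2 = x1 + y1 := rig_zn _ _ r2 (e_trans (e_symm ha2) (RO.mono _ hr2 ha))
    have e2 : y3 = y1 := rig_zn _ _ r3 (e_trans (e_symm hy3) (RO.mono _ (hr3.trans hr2) hy))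
    have e3 : z3 = z2 := rig_zn _ _ r3 (e_trans (e_symm hz3) (RO.mono _ hr3 hz2))
    subst e1; subst e2; subst e3
    refine ⟨r3, hr3.trans (hr2.trans hr1), m_oo.2 fun s hs => ⟨s, le_rfl, x1, y3 + z3,
      RO.mono _ (hs.trans (hr3.trans hr2)) hx, RO.mono _ hs hb, ?_⟩⟩
    rw [← add_assoc]
    exact RO.mono _ (hs.trans hr3) hc
  · intro x q hq hx
    constructor
    · refine RO.dense _ fun r hr => ?_
      obtain ⟨s, hs, a, ha⟩ := m_XX.1 hx r hr
      refine ⟨s, hs, m_oo.2 fun t ht => ⟨t, le_rfl, 0, a, e_refl _ _, RO.mono _ ht ha, ?_⟩⟩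
      rw [zero_add]
      exact RO.mono _ ht ha
    · refine RO.dense _ fun r hr => ?_
      obtain ⟨s, hs, a, ha⟩ := m_XX.1 hx r hr
      refine ⟨s, hs, m_oo.2 fun t ht => ⟨t, le_rfl, a, 0, RO.mono _ ht ha, e_refl _ _, ?_⟩⟩
      rw [add_zero]
      exact RO.mono _ ht ha
  · intro x q hq hx
    rw [ro_ex]
    intro r hr
    obtain ⟨s, hs, a, ha⟩ := m_XX.1 hx r hr
    refine ⟨s, hs, zn (-a), ?_⟩
    simp only [ro_and, ro_mem, ap2_iff]
    refine ⟨zn_XX _ _, m_oo.2 fun t ht => ⟨t, le_rfl, a, -a, RO.mono _ ht ha, e_refl _ _, ?_⟩,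
      m_oo.2 fun t ht => ⟨t, le_rfl, -a, a, e_refl _ _, RO.mono _ ht ha, ?_⟩⟩
    · rw [add_neg_cancel]
      exact e_refl _ _
    · rw [neg_add_cancel]
      exact e_refl _ _

end GT

end Pool.Agent.SymExt
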