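import Pool.Agent.SymExt.Top.GSFu
import Pool.Agent.Lib.MP_547692_lc.Notions

/-!
# Names for sequences of zeros and ones
-/

set_option linter.unusedSectionVars false
set_option linter.unusedVariables false
set_option linter.unusedSimpArgs false

namespace Pool.Agent.SymExt

variable {P : Type} [PartialOrder P] [OrderTop P]

namespace SN

theorem m_on1 {x : VN P} {p : P} : m x (on 1) p ↔ e x (on 0) p := by
  rw [m_on]
  constructor
  · intro h
    refine RO.dense _ fun q hq => ?_
    obtain ⟨r, hr, k, hk, he⟩ := h q hq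
    have : k = 0 := by omega
    subst this
    exact ⟨r, hr, he⟩
  · intro h q hq
    exact ⟨q, le_rfl, 0, by omega, RO.mono _ hq h⟩

theorem one_iff {o : VN P} {p : P} : lg.one o p ↔ e o (on 1) p := by
  simp only [Lg.one, ro_all, ro_iff, ro_mem, empty_iff]
  constructor
  · intro h
    refine e_ext fun q hq z => ?_
    rw [h z q hq, m_on1]
  · intro h z q hq
    have h1 := RO.mono _ hq h
    rw [← m_on1]
    exact ⟨fun h2 => m_right h1 h2, fun h2 => m_right (e_symm h1) h2⟩

theorem forced_two (p : P) : lg.two (on 2 : VN P) p := by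
  simp only [Lg.two, ro_all, ro_iff, ro_mem, ro_or, empty_iff, one_iff]
  intro x q hq
  rw [m_on]
  refine forall_congr' fun r => forall_congr' fun hr => exists_congr fun s =>
    and_congr_right fun hs => ?_
  constructor
  · rintro ⟨k, hk, he⟩
    have : k = 0 ∨ k = 1 := by omega
    rcases this with rfl | rfl
    · exact Or.inl he
    · exact Or.inr he
  · rintro (h | h)
    · exact ⟨0, by omega, h⟩
    · exact ⟨1, by omega, h⟩

theorem bit_iff {x n : VN P} {p : P} : lg.bit x n p ↔ m (op n (on 1)) x p := by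
  simp only [Lg.bit, ro_ex, ro_and, one_iff, app_iff]
  constructor
  · intro h
    refine RO.dense _ fun q hq => ?_
    obtain ⟨r, hr, o, ho, ho'⟩ := h q hq
    exact ⟨r, hr, m_left (op_congr (e_refl _ _) ho) ho'⟩
  · intro h q hq
    exact ⟨q, le_rfl, on 1, e_refl _ _, RO.mono _ hq h⟩

theorem dif_iff {x y n : VN P} {p : P} : lg.dif x y n p ↔ ∀ q ≤ p,
    ¬ ∀ r ≤ q, (m (op n (on 1)) x r ↔ m (op n (on 1)) y r) := by
  simp only [Lg.dif, ro_neg, ro_iff, bit_iff]

theorem dif_congr {x y n x' y' n' : VN P} {p : P} (hx : e x x' p) (hy : e y y' p)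
    (hn : e n n' p) (h : lg.dif x y n p) : lg.dif x' y' n' p := by
  rw [dif_iff] at h ⊢
  intro q hq hcon
  refine h q hq fun r hr => ?_
  have hrp := hr.trans hq
  have hx' := RO.mono _ hrp hx
  have hy' := RO.mono _ hrp hy
  have hn' := op_congr (RO.mono _ hrp hn) (e_refl (on 1 : VN P) r)
  constructor
  · intro h1
    have h2 := (hcon r hr).1 (m_left hn' (m_right hx' h1))
    exact m_left (e_symm hn') (m_right (e_symm hy') h2)
  · intro h1
    have h2 := (hcon r hr).2 (m_left hn' (m_right hy' h1))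
    exact m_left (e_symm hn') (m_right (e_symm hx') h2)

/-- functions with the same domain -/
theorem fun_eq {f g A B B' : VN P} {p : P} (hf : lg.isFun f A B p) (hg : lg.isFun g A B' p)
    (h : ∀ x y, ∀ q ≤ p, m (op x y) f q → m (op x y) g q) : e f g p := by
  have hf' := isFun_iff.1 hf
  have hg' := isFun_iff.1 hg
  refine e_ext fun q hq z => ⟨fun hz => RO.dense _ fun r hr => ?_,
    fun hz => RO.dense _ fun r hr => ?_⟩
  · obtain ⟨s, hs, x, y, _, _, he⟩ := hf'.1 z q hq hz r hr
    have hsq := hs.trans hr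
    exact ⟨s, hs, m_left (e_symm he) (h x y s (hsq.trans hq) (m_left he (RO.mono _ hsq hz)))⟩
  · obtain ⟨s, hs, x, y, hx, _, he⟩ := hg'.1 z q hq hz r hr
    have hsq := hs.trans hr
    obtain ⟨t, ht, y', hy'⟩ := hf'.2.1 x s (hsq.trans hq) hx s le_rfl
    have htq := ht.trans hsq
    have h1 := h x y' t (htq.trans hq) hy'
    have h2 : m (op x y) g t := m_left (RO.mono _ ht he) (RO.mono _ htq hz)
    have h3 := hg'.2.2 x y y' t (htq.trans hq) h2 h1
    exact ⟨t, ht.trans hs, m_left (e_trans (op_congr (e_refl _ _) (e_symm h3))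
      (e_symm (RO.mono _ ht he))) hy'⟩

/-- the name of a sequence of zeros and ones -/
noncomputable def rnm (z : ℕ → Bool) : VN P := fnm on fun n => on (z n).toNat

theorem toNat_lt (b : Bool) : b.toNat < 2 := by cases b <;> simp

theorem isFun_rnm (z : ℕ → Bool) (p : P) : lg.isFun (rnm z) (om P) (on 2) p :=
  isFun_fnm rig_on (fun x r hr hx s hs => m_om.1 hx s hs) (fun n => m_on_om n p)
    (fun n => m_on_on.2 (toNat_lt _))

/-- the name of a finite sequence of zeros and ones -/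
noncomputable def stn {l : ℕ} (s : Fin l → Bool) : VN P :=
  fnm (fun i : Fin l => on i) fun i => on (s i).toNat

theorem rig_fin {l : ℕ} : Rig (P := P) (fun i : Fin l => on i) :=
  fun i j p h => Fin.ext (rig_on _ _ _ h)

theorem dom_fin {l : ℕ} (p : P) : ∀ x, ∀ q ≤ p, m x (on l) q → ∀ r ≤ q, ∃ s ≤ r, ∃ i : Fin l,
    e x (on i) s := by
  intro x q hq hx r hr
  obtain ⟨s, hs, k, hk, he⟩ := m_on.1 hx r hr
  exact ⟨s, hs, ⟨k, hk⟩, he⟩

theorem isFun_stn {l : ℕ} (s : Fin l → Bool) (p : P) : lg.isFun (stn s) (on l) (on 2) p :=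
  isFun_fnm rig_fin (dom_fin p) (fun i => m_on_on.2 i.2) (fun i => m_on_on.2 (toNat_lt _))

theorem toNat_inj {a b : Bool} {p : P} (h : e (on a.toNat) (on b.toNat) p) : a = b := by
  have := rig_on _ _ _ h
  cases a <;> cases b <;> simp_all

theorem m_stn {l : ℕ} {s : Fin l → Bool} {i : Fin l} {b : Bool} {p : P} :
    m (op (on i) (on b.toNat)) (stn s) p ↔ s i = b := by
  unfold stn
  rw [m_op_fnm]
  constructor
  · intro h
    obtain ⟨r, _, j, h1, h2⟩ := h p le_rfl
    have := rig_fin _ _ _ h1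
    subst this
    exact (toNat_inj h2).symm
  · rintro rfl q _
    exact ⟨q, le_rfl, i, e_refl _ _, e_refl _ _⟩

theorem m_rnm {z : ℕ → Bool} {n : ℕ} {b : Bool} {p : P} :
    m (op (on n) (on b.toNat)) (rnm z) p ↔ z n = b := by
  unfold rnm
  rw [m_op_fnm]
  constructor
  · intro h
    obtain ⟨r, _, j, h1, h2⟩ := h p le_rfl
    have := rig_on _ _ _ h1
    subst this
    exact (toNat_inj h2).symm
  · rintro rfl q _
    exact ⟨q, le_rfl, n, e_refl _ _, e_refl _ _⟩

theorem stn_inj {l : ℕ} {s s' : Fin l → Bool} {p : P} (h : e (stn s) (stn s') p) : s = s' := by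
  funext i
  have h1 : m (op (on i) (on (s i).toNat)) (stn s : VN P) p := m_stn.2 rfl
  exact (m_stn.1 (m_right h h1)).symm

/-- values of a sequence of zeros and ones -/
theorem bool_val {f A : VN P} {p : P} (hf : lg.isFun f A (on 2) p) {x : VN P} (hx : m x A p) :
    ∀ q ≤ p, ∃ r ≤ q, ∃ b : Bool, m (op x (on b.toNat)) f r := by
  have hf' := isFun_iff.1 hf
  intro q hq
  obtain ⟨r, hr, y, hy⟩ := hf'.2.1 x q hq (RO.mono _ hq hx) q le_rfl
  obtain ⟨s, hs, a, c, _, hc, he⟩ := hf'.1 _ r (hr.trans hq) hy r le_rfl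
  obtain ⟨h1, h2⟩ := op_inj he
  obtain ⟨t, ht, k, hk, hek⟩ := m_on.1 hc s le_rfl
  have h3 : e y (on k) t := e_trans (RO.mono _ ht h2) hek
  have h4 := m_left (op_congr (e_refl x t) h3) (RO.mono _ (ht.trans hs) hy)
  have : k = 0 ∨ k = 1 := by omega
  rcases this with rfl | rfl
  · exact ⟨t, ht.trans (hs.trans hr), false, h4⟩
  · exact ⟨t, ht.trans (hs.trans hr), true, h4⟩

/-- finite sequences are in the ground model -/
theorem decide_stn {x : VN P} {l : ℕ} {p : P} (hx : lg.isFun x (on l) (on 2) p) :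
    ∀ q ≤ p, ∃ r ≤ q, ∃ s : Fin l → Bool, e x (stn s) r := by
  intro q hq
  obtain ⟨r, hr, M, h1, _⟩ := list_dense (P := P)
    (fun (i : Fin l) (b : Fin l × Bool) s => b.1 = i ∧ m (op (on i) (on b.2.toNat)) x s)
    (fun i b {s t} hts h => ⟨h.1, RO.mono _ hts h.2⟩) (List.finRange l) q (fun i _ s hs => by
      obtain ⟨t, ht, b, hb⟩ := bool_val (RO.mono _ (hs.trans hq) hx)
        (x := on i) (m_on_on.2 i.2) s le_rfl
      exact ⟨t, ht, (i, b), rfl, hb⟩)
  have h2 : ∀ i : Fin l, ∃ b : Bool, m (op (on i) (on b.toNat)) x r := by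
    intro i
    obtain ⟨b, _, _, hb⟩ := h1 i (List.mem_finRange i)
    exact ⟨b.2, hb⟩
  choose s hs using h2
  refine ⟨r, hr, s, e_symm (fun_eq (isFun_stn s r) (RO.mono _ (hr.trans hq) hx) ?_)⟩
  intro a b t ht h
  refine RO.dense _ fun u hu => ?_
  obtain ⟨v, hv, i, h3, h4⟩ := m_op_fnm.1 h u hu
  exact ⟨v, hv, m_left (op_congr (e_symm h3) (e_symm h4))
    (RO.mono _ (hv.trans (hu.trans ht)) (hs i))⟩

end SN

end Pool.Agent.SymExt
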