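import Pool.Agent.SymExt.Top.Grd

/-!
# Functions in the forcing language
-/

set_option linter.unusedSectionVars false
set_option linter.unusedVariables false
set_option linter.unusedSimpArgs false

namespace Pool.Agent.SymExt

theorem ro_ex2 {P : Type} [Preorder P] {V : Type 1} {m e : V → V → RO P} {p : P}
    (f : V → V → RO P) : (roLg m e).ex (fun x => (roLg m e).ex fun y => f x y) p ↔
      ∀ q ≤ p, ∃ r ≤ q, ∃ x y, f x y r := by
  simp only [ro_ex]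
  constructor
  · intro h q hq
    obtain ⟨r, hr, x, h⟩ := h q hq
    obtain ⟨s, hs, y, h⟩ := h r le_rfl
    exact ⟨s, hs.trans hr, x, y, h⟩
  · intro h q hq
    obtain ⟨r, hr, x, y, h⟩ := h q hq
    exact ⟨r, hr, x, fun s hs => ⟨s, le_rfl, y, (f x y).mono hs h⟩⟩

variable {P : Type} [PartialOrder P] [OrderTop P]

namespace SN

theorem app_iff {f x y : VN P} {p : P} : lg.app f x y p ↔ m (op x y) f p := by
  simp only [Lg.app, ro_ex, ro_and, ro_mem]
  constructor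
  · intro h
    refine RO.dense _ fun q hq => ?_
    obtain ⟨r, hr, z, hz, hz'⟩ := h q hq
    exact ⟨r, hr, m_left ((isOP_iff _ _ _ _).1 hz') hz⟩
  · intro h q hq
    exact ⟨q, le_rfl, op x y, RO.mono _ hq h, (isOP_iff _ _ _ _).2 (e_refl _ _)⟩

theorem ap2_iff {f x y z : VN P} {p : P} : lg.ap2 f x y z p ↔ m (op (op x y) z) f p := by
  simp only [Lg.ap2, ro_ex, ro_and, app_iff]
  constructor
  · intro h
    refine RO.dense _ fun q hq => ?_
    obtain ⟨r, hr, w, hw, hw'⟩ := h q hq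
    exact ⟨r, hr, m_left (op_congr ((isOP_iff _ _ _ _).1 hw) (e_refl _ _)) hw'⟩
  · intro h q hq
    exact ⟨q, le_rfl, op x y, (isOP_iff _ _ _ _).2 (e_refl _ _), RO.mono _ hq h⟩

theorem sub_iff {x y : VN P} {p : P} : lg.sub x y p ↔ ∀ z, ∀ q ≤ p, m z x q → m z y q := by
  simp only [Lg.sub, ro_all, ro_imp, ro_mem]

theorem isFun_iff {f A B : VN P} {p : P} : lg.isFun f A B p ↔
    (∀ z, ∀ q ≤ p, m z f q → ∀ r ≤ q, ∃ s ≤ r, ∃ x y, m x A s ∧ m y B s ∧ e z (op x y) s) ∧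
    (∀ x, ∀ q ≤ p, m x A q → ∀ r ≤ q, ∃ s ≤ r, ∃ y, m (op x y) f s) ∧
    (∀ x y y', ∀ q ≤ p, m (op x y) f q → m (op x y') f q → e y y' q) := by
  simp only [Lg.isFun, ro_all, ro_imp, ro_and, ro_ex2, ro_mem, ro_eq, app_iff, isOP_iff, and_imp]
  simp only [ro_ex, app_iff]

theorem isProd_iff {D A B : VN P} {p : P} : lg.isProd D A B p ↔
    ∀ z, ∀ q ≤ p, (m z D q ↔ ∀ r ≤ q, ∃ s ≤ r, ∃ x y, m x A s ∧ m y B s ∧ e z (op x y) s) := by
  simp only [Lg.isProd, ro_all, ro_imp, ro_and, ro_ex2, ro_mem, ro_iff, isOP_iff]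

/-- the set of the `y i` -/
noncomputable def fm {ι : Type} (y : ι → VN P) : VN P := fl y (famSym y)

theorem m_fm {ι : Type} {y : ι → VN P} {z : VN P} {p : P} :
    m z (fm y) p ↔ ∀ q ≤ p, ∃ r ≤ q, ∃ i, e z (y i) r := m_fl

theorem m_fm_self {ι : Type} {y : ι → VN P} (i : ι) {p : P} : m (y i) (fm y) p := m_fl_self i

/-- the function `y i ↦ z i` -/
noncomputable def fnm {ι : Type} (y z : ι → VN P) : VN P := fm fun i => op (y i) (z i)

theorem m_op_fnm {ι : Type} {y z : ι → VN P} {a b : VN P} {p : P} :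
    m (op a b) (fnm y z) p ↔ ∀ q ≤ p, ∃ r ≤ q, ∃ i, e a (y i) r ∧ e b (z i) r := by
  unfold fnm
  rw [m_fm]
  refine forall_congr' fun q => forall_congr' fun _ => exists_congr fun r =>
    and_congr_right fun _ => exists_congr fun i => ?_
  exact ⟨op_inj, fun h => op_congr h.1 h.2⟩

theorem isFun_fnm {ι : Type} {y z : ι → VN P} (hy : Rig y) {A B : VN P} {p : P}
    (hA : ∀ x, ∀ q ≤ p, m x A q → ∀ r ≤ q, ∃ s ≤ r, ∃ i, e x (y i) s) (hA' : ∀ i, m (y i) A p)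
    (hB : ∀ i, m (z i) B p) : lg.isFun (fnm y z) A B p := by
  rw [isFun_iff]
  refine ⟨fun w q hq hw r hr => ?_, fun x q hq hx r hr => ?_, fun x w w' q hq h h' => ?_⟩
  · obtain ⟨s, hs, i, hi⟩ := m_fm.1 hw r hr
    have hsp := hs.trans (hr.trans hq)
    exact ⟨s, hs, y i, z i, RO.mono _ hsp (hA' i), RO.mono _ hsp (hB i), hi⟩
  · obtain ⟨s, hs, i, hi⟩ := hA x q hq hx r hr
    exact ⟨s, hs, z i, m_op_fnm.2 fun u hu => ⟨u, le_rfl, i, RO.mono _ hu hi, e_refl _ _⟩⟩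
  · refine RO.dense _ fun r hr => ?_
    obtain ⟨s, hs, i, hi, hi'⟩ := m_op_fnm.1 h r hr
    obtain ⟨t, ht, j, hj, hj'⟩ := m_op_fnm.1 h' s (hs.trans hr)
    have hij : i = j := hy i j t (e_trans (e_symm (RO.mono _ ht hi)) hj)
    subst hij
    exact ⟨t, ht.trans hs, e_trans (RO.mono _ ht hi') (e_symm hj')⟩

/-- values of a function from the natural numbers -/
theorem app_on {f B : VN P} {p : P} (hf : lg.isFun f (om P) B p) (n : ℕ) :
    ∀ q ≤ p, ∃ r ≤ q, ∃ y, m (op (on n) y) f r ∧ m y B r := by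
  rw [isFun_iff] at hf
  intro q hq
  obtain ⟨r, hr, y, hy⟩ := hf.2.1 (on n) q hq (m_on_om n q) q le_rfl
  obtain ⟨s, hs, a, b, ha, hb, he⟩ := hf.1 _ r (hr.trans hq) hy r le_rfl
  obtain ⟨_, h2⟩ := op_inj he
  exact ⟨s, hs.trans hr, y, RO.mono _ hs hy, m_left (e_symm h2) hb⟩

/-- arguments of a function from the natural numbers -/
theorem arg_on {f B x y : VN P} {p : P} (hf : lg.isFun f (om P) B p) {q : P} (hq : q ≤ p)
    (h : m (op x y) f q) : (∀ r ≤ q, ∃ s ≤ r, ∃ n, e x (on n) s) ∧ m y B q := by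
  rw [isFun_iff] at hf
  constructor
  · intro r hr
    obtain ⟨s, hs, a, b, ha, hb, he⟩ := hf.1 _ q hq h r hr
    obtain ⟨h1, _⟩ := op_inj he
    obtain ⟨t, ht, n, hn⟩ := m_om.1 ha s le_rfl
    exact ⟨t, ht.trans hs, n, e_trans (RO.mono _ ht h1) hn⟩
  · refine RO.dense _ fun r hr => ?_
    obtain ⟨s, hs, a, b, ha, hb, he⟩ := hf.1 _ q hq h r hr
    obtain ⟨_, h2⟩ := op_inj he
    exact ⟨s, hs, m_left (e_symm h2) hb⟩

theorem fun_unique {f A B x y y' : VN P} {p : P} (hf : lg.isFun f A B p) {q : P} (hq : q ≤ p)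
    (h : m (op x y) f q) (h' : m (op x y') f q) : e y y' q :=
  (isFun_iff.1 hf).2.2 x y y' q hq h h'

end SN

end Pool.Agent.SymExt
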