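import Pool.Agent.SymExt.Top.Reals

/-!
# Generic topologies on a generic set of points

`GS`: a countably closed set of conditions deciding points and basic clopen sets.
-/

set_option linter.unusedSectionVars false
set_option linter.unusedVariables false
set_option linter.unusedSimpArgs false

namespace Pool.Agent.SymExt

/-- generic space -/
structure GS (Z P Ix : Type) [PartialOrder P] [OrderTop P] where
  closed : ∀ c : ℕ → P, (∀ n, c (n + 1) ≤ c n) → ∃ d, ∀ n, d ≤ c n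
  pt : P → Z → Prop
  pt_mono : ∀ {p q : P} {x : Z}, q ≤ p → pt p x → pt q x
  ok : P → Ix → Prop
  ok_mono : ∀ {p q : P} {k : Ix}, q ≤ p → ok p k → ok q k
  mm : Z → Ix → Prop
  ok_top : ∀ p z, ∃ k, ok p k ∧ mm z k
  base : ∀ {p : P} {x : Z} {k k' : Ix}, pt p x → ok p k → ok p k' → mm x k → mm x k' →
    ∃ l, ok p l ∧ mm x l ∧ ∀ y, mm y l → mm y k ∧ mm y k'
  clos : ∀ {p : P} {x : Z} {k : Ix}, pt p x → ok p k → ¬ mm x k →
    ∃ l, ok p l ∧ mm x l ∧ ∀ y, mm y l → ¬ mm y k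
  old : ∀ {p q : P} {x : Z} {k : Ix}, q ≤ p → pt p x → ok q k → mm x k → ok p k
  cntK : ∀ p, {k | ok p k}.Countable
  D : ℕ → Ix
  D_ok : ∀ p n, ok p (D n)
  D_top : ∀ z, ∃ n, mm z (D n)
  D_base : ∀ z m n, mm z (D m) → mm z (D n) →
    ∃ k, mm z (D k) ∧ ∀ y, mm y (D k) → mm y (D m) ∧ mm y (D n)
  D_clos : ∀ z n, ¬ mm z (D n) → ∃ k, mm z (D k) ∧ ∀ y, mm y (D k) → ¬ mm y (D n)
  D_sep : ∀ x y, x ≠ y → ∃ n, mm x (D n) ∧ ¬ mm y (D n)
  add : ∀ p k, ok p k → ∃ q ≤ p, ∃ x, pt q x ∧ ¬ pt p x ∧ mm x k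
  fus : ∀ Θ : ℕ → P → List Z → List Ix → Prop,
    (∀ n p q F S, q ≤ p → Θ n p F S → Θ n q F S) →
    (∀ n p (F : List Z) (S : List Ix), (∀ x ∈ F, pt p x) → (∀ k ∈ S, ok p k) →
      ∃ q ≤ p, ∃ S' : List Ix, (∀ k ∈ S, ∃ k' ∈ S', ok q k' ∧ ∀ y, mm y k' → mm y k) ∧
        Θ n q F S') →
    ∀ p, ∃ q ≤ p, ∃ (F : ℕ → List Z) (S : ℕ → List Ix), (∀ n, Θ n q (F n) (S n)) ∧
      ∀ r ≤ q, ∀ x, pt r x → ∃ N, ∀ n ≥ N, x ∈ F n ∨ ∃ k ∈ S n, mm x k

variable {Z P Ix : Type} [PartialOrder P] [OrderTop P]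

namespace GS

open SN

variable (g : GS Z P Ix)

/-- a system of basic sets -/
structure Fam (O : P → Ix → Prop) : Prop where
  mono : ∀ {p q : P} {k : Ix}, q ≤ p → O p k → O q k
  top : ∀ p z, ∃ k, O p k ∧ g.mm z k
  base : ∀ {p : P} {x : Z} {k k' : Ix}, g.pt p x → O p k → O p k' → g.mm x k → g.mm x k' →
    ∃ l, O p l ∧ g.mm x l ∧ ∀ y, g.mm y l → g.mm y k ∧ g.mm y k'
  clos : ∀ {p : P} {x : Z} {k : Ix}, g.pt p x → O p k → ¬ g.mm x k →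
    ∃ l, O p l ∧ g.mm x l ∧ ∀ y, g.mm y l → ¬ g.mm y k
  sep : ∀ (p : P) (x y : Z), x ≠ y → ∃ k, O p k ∧ g.mm x k ∧ ¬ g.mm y k

theorem fam_ok : g.Fam g.ok where
  mono := g.ok_mono
  top := g.ok_top
  base := g.base
  clos := g.clos
  sep := fun p x y h => by
    obtain ⟨n, h1, h2⟩ := g.D_sep x y h
    exact ⟨_, g.D_ok p n, h1, h2⟩

/-- the coarser system -/
def Dk (_ : P) (k : Ix) : Prop := ∃ n, g.D n = k

theorem fam_D : g.Fam g.Dk where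
  mono := fun _ h => h
  top := fun p z => by
    obtain ⟨n, hn⟩ := g.D_top z
    exact ⟨_, ⟨n, rfl⟩, hn⟩
  base := by
    rintro p x _ _ _ ⟨m, rfl⟩ ⟨n, rfl⟩ h1 h2
    obtain ⟨k, h3, h4⟩ := g.D_base x m n h1 h2
    exact ⟨_, ⟨k, rfl⟩, h3, h4⟩
  clos := by
    rintro p x _ _ ⟨n, rfl⟩ h
    obtain ⟨k, h3, h4⟩ := g.D_clos x n h
    exact ⟨_, ⟨k, rfl⟩, h3, h4⟩
  sep := fun p x y h => by
    obtain ⟨n, h1, h2⟩ := g.D_sep x y h
    exact ⟨_, ⟨n, rfl⟩, h1, h2⟩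

/-- `z` is forced to be a point -/
def In (p : P) (z : Z) : Prop := ∀ q ≤ p, ∃ r ≤ q, g.pt r z

theorem In_pt {p : P} {z : Z} (h : g.pt p z) : g.In p z := fun q hq => ⟨q, le_rfl, g.pt_mono hq h⟩

theorem exists_XX : ∃ X : VN P, ∀ x p, m x X p ↔ ∀ q ≤ p, ∃ r ≤ q, ∃ z, g.pt r z ∧ e x (zn z) r :=
  exists_nn zn (fun z p => g.pt p z) (fun z p q hq h => g.pt_mono hq h)

/-- the name of the set of points -/
noncomputable def XX : VN P := g.exists_XX.choose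

theorem m_XX {x : VN P} {p : P} : m x g.XX p ↔ ∀ q ≤ p, ∃ r ≤ q, ∃ z, g.pt r z ∧ e x (zn z) r :=
  g.exists_XX.choose_spec x p

theorem zn_XX {z : Z} {p : P} : m (zn z) g.XX p ↔ g.In p z := by
  rw [m_XX]
  refine forall_congr' fun q => forall_congr' fun _ => exists_congr fun r =>
    and_congr_right fun _ => ?_
  constructor
  · rintro ⟨z', h, he⟩
    rwa [rig_zn _ _ _ he]
  · intro h
    exact ⟨z, h, e_refl _ _⟩

theorem pt_XX {z : Z} {p : P} (h : g.pt p z) : m (zn z) g.XX p := g.zn_XX.2 (g.In_pt h)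

theorem exists_bo (k : Ix) : ∃ X : VN P, ∀ x p, m x X p ↔
    ∀ q ≤ p, ∃ r ≤ q, ∃ z, (g.pt r z ∧ g.mm z k) ∧ e x (zn z) r :=
  exists_nn zn (fun z p => g.pt p z ∧ g.mm z k) (fun z p q hq h => ⟨g.pt_mono hq h.1, h.2⟩)

/-- basic sets -/
noncomputable def bo (k : Ix) : VN P := (g.exists_bo k).choose

theorem m_bo {x : VN P} {k : Ix} {p : P} : m x (g.bo k) p ↔
    ∀ q ≤ p, ∃ r ≤ q, ∃ z, (g.pt r z ∧ g.mm z k) ∧ e x (zn z) r :=
  (g.exists_bo k).choose_spec x p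

theorem zn_bo {z : Z} {k : Ix} {p : P} (hz : g.pt p z) (hk : g.mm z k) : m (zn z) (g.bo k) p :=
  g.m_bo.2 fun q hq => ⟨q, le_rfl, z, ⟨g.pt_mono hq hz, hk⟩, e_refl _ _⟩

theorem of_zn_bo {z : Z} {k : Ix} {p : P} (h : m (zn z) (g.bo k) p) : g.mm z k := by
  obtain ⟨r, _, z', h1, he⟩ := g.m_bo.1 h p le_rfl
  rw [rig_zn _ _ _ he]
  exact h1.2

variable (O : P → Ix → Prop)

/-- open sets of points -/
def Opn (U : VN P) (p : P) : Prop := ∀ z : Z, ∀ q ≤ p, g.pt q z → m (zn z) U q →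
  ∀ r ≤ q, ∃ s ≤ r, ∃ k, O s k ∧ g.mm z k ∧ ∀ y, ∀ t ≤ s, g.pt t y → g.mm y k → m (zn y) U t

theorem Opn_mono {U : VN P} {p q : P} (hq : q ≤ p) (h : g.Opn O U p) : g.Opn O U q :=
  fun z r hr => h z r (hr.trans hq)

theorem exists_tau : ∃ τ : VN P, ∀ U p, m U τ p ↔
    (∀ x, ∀ q ≤ p, m x U q → m x g.XX q) ∧ g.Opn O U p := by
  obtain ⟨τ, hτ⟩ := exists_nn (P := P) (ι := {ν : Z → RO P // ∀ z p, ν z p → g.In p z})
    (fun ν => nn zn ν.1) (fun ν p => g.Opn O (nn zn ν.1) p) (fun ν p q hq h => g.Opn_mono O hq h)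
  refine ⟨τ, fun U p => ?_⟩
  rw [hτ]
  constructor
  · intro h
    constructor
    · intro x q hq hx
      refine RO.dense _ fun r hr => ?_
      obtain ⟨s, hs, ν, _, he⟩ := h r (hr.trans hq)
      have hx' : m x (nn zn ν.1) s := m_right he (RO.mono _ (hs.trans hr) hx)
      obtain ⟨t, ht, z, h1, hz⟩ := m_nn.1 hx' s le_rfl
      exact ⟨t, ht.trans hs, m_left (e_symm hz) (g.zn_XX.2 (ν.2 z t h1))⟩
    · intro z q hq hz0 hz r hr
      obtain ⟨s, hs, ν, hν, he⟩ := h r (hr.trans hq)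
      have hz' : m (zn z) (nn zn ν.1) s := m_right he (RO.mono _ (hs.trans hr) hz)
      obtain ⟨t, ht, i, hi, hi', hb⟩ := hν z s le_rfl (g.pt_mono (hs.trans hr) hz0) hz' s le_rfl
      exact ⟨t, ht.trans hs, i, hi, hi', fun y u hu h1 h2 =>
        m_right (e_symm (RO.mono _ (hu.trans ht) he)) (hb y u hu h1 h2)⟩
  · rintro ⟨h1, h2⟩ q hq
    let ν : Z → RO P := fun z => m (zn z) U
    -- cut down to the points below `q`
    have hνp : ∀ r ≤ q, ∀ z, ν z r → g.In r z := fun r hr z h =>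
      g.zn_XX.1 (h1 _ r (hr.trans hq) h)
    let ν' : Z → RO P := fun z => (lg : Lg (RO P) (VN P)).and (m (zn z) U) (m (zn z) g.XX)
    have hν' : ∀ z r, ν' z r ↔ m (zn z) U r ∧ m (zn z) g.XX r := fun z r =>
      ro_and (p := r) m e (m (zn z) U) (m (zn z) g.XX)
    have he : e U (nn zn ν') q := by
      refine e_ext fun r hr z => ?_
      constructor
      · intro hz
        refine m_nn.2 fun s hs => ?_
        have hsq := hs.trans hr
        obtain ⟨t, ht, z', h3, hz'⟩ := g.m_XX.1 (h1 z r (hr.trans hq) hz) s hs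
        exact ⟨t, ht, z', (hν' _ _).2 ⟨m_left hz' (RO.mono _ (ht.trans hs) hz), g.pt_XX h3⟩, hz'⟩
      · intro hz
        refine RO.dense _ fun s hs => ?_
        obtain ⟨t, ht, z', hz', he⟩ := m_nn.1 hz s hs
        exact ⟨t, ht, m_left (e_symm he) ((hν' _ _).1 hz').1⟩
    refine ⟨q, le_rfl, ⟨ν', fun z p h => g.zn_XX.1 ((hν' _ _).1 h).2⟩,
      fun z r hr hz0 hz s hs => ?_, he⟩
    have hz' : m (zn z) U r := m_right (e_symm (RO.mono _ hr he)) hz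
    obtain ⟨t, ht, i, hi, hi', hb⟩ := h2 z r (hr.trans hq) hz0 hz' s hs
    exact ⟨t, ht, i, hi, hi', fun y u hu h1 h2 =>
      m_right (RO.mono _ (hu.trans (ht.trans (hs.trans hr))) he) (hb y u hu h1 h2)⟩

/-- the name of the topology -/
noncomputable def tau : VN P := (g.exists_tau O).choose

theorem m_tau {U : VN P} {p : P} : m U (g.tau O) p ↔
    (∀ x, ∀ q ≤ p, m x U q → m x g.XX q) ∧ g.Opn O U p := (g.exists_tau O).choose_spec U p

variable {O}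

theorem bo_tau (hO : g.Fam O) {p : P} {k : Ix} (hk : O p k) : m (g.bo k) (g.tau O) p := by
  rw [m_tau]
  constructor
  · intro x q hq hx
    refine g.m_XX.2 fun r hr => ?_
    obtain ⟨s, hs, z, h1, he⟩ := g.m_bo.1 hx r hr
    exact ⟨s, hs, z, h1.1, he⟩
  · intro z q hq hz0 hz r hr
    refine ⟨r, le_rfl, k, hO.mono (hr.trans hq) hk, g.of_zn_bo hz, fun y t ht h1 h2 =>
      g.zn_bo h1 h2⟩

/-- neighbourhoods -/
theorem nbhd {U x : VN P} {p : P} (hU : m U (g.tau O) p) (hx : m x U p) : ∀ q ≤ p, ∃ r ≤ q,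
    ∃ z k, e x (zn z) r ∧ g.pt r z ∧ O r k ∧ g.mm z k ∧
      ∀ y, ∀ t ≤ r, g.pt t y → g.mm y k → m (zn y) U t := by
  intro q hq
  rw [m_tau] at hU
  obtain ⟨r, hr, z, h1, he⟩ := g.m_XX.1 (hU.1 x p le_rfl hx) q hq
  obtain ⟨s, hs, k, h2, h3, h4⟩ := hU.2 z r (hr.trans hq) h1
    (m_left he (RO.mono _ (hr.trans hq) hx)) r le_rfl
  exact ⟨s, hs.trans hr, z, k, RO.mono _ hs he, g.pt_mono hs h1, h2, h3, h4⟩

theorem bo_sub {U : VN P} {p : P} {k : Ix}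
    (h : ∀ y, ∀ t ≤ p, g.pt t y → g.mm y k → m (zn y) U t) {x : VN P} {q : P} (hq : q ≤ p)
    (hx : m x (g.bo k) q) : m x U q := by
  refine RO.dense _ fun r hr => ?_
  obtain ⟨s, hs, z, h1, he⟩ := g.m_bo.1 hx r hr
  exact ⟨s, hs, m_left (e_symm he) (h z s (hs.trans (hr.trans hq)) h1.1 h1.2)⟩

/-! ### topological properties -/

theorem forced_isTop (hO : g.Fam O) (p : P) : lg.isTop g.XX (g.tau O) p := by
  simp only [Lg.isTop, ro_and, ro_all, ro_imp, ro_mem, sub_iff, ro_iff]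
  refine ⟨?_, ?_, ?_, ?_⟩
  · intro U q hq hU z r hr hz
    exact ((g.m_tau O).1 hU).1 z r hr hz
  · rw [m_tau]
    refine ⟨fun x q _ h => h, fun z q hq hz0 hz r hr => ?_⟩
    obtain ⟨k, hk, hk'⟩ := hO.top r z
    exact ⟨r, le_rfl, k, hk, hk', fun y t _ h _ => g.pt_XX h⟩
  · rintro U U' W q hq ⟨hU, hU', hW⟩
    rw [m_tau] at hU hU' ⊢
    constructor
    · intro x r hr hx
      exact hU.1 x r hr ((hW x r hr).1 hx).1
    · intro z r hr hz0 hz s hs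
      obtain ⟨h1, h2⟩ := (hW _ r hr).1 hz
      obtain ⟨t, ht, i, hi, hi', hb⟩ := hU.2 z r hr hz0 h1 s hs
      obtain ⟨u, hu, j, hj, hj', hb'⟩ := hU'.2 z r hr hz0 h2 t (ht.trans hs)
      obtain ⟨k, hk, hk', hkk⟩ := hO.base (g.pt_mono (hu.trans (ht.trans hs)) hz0)
        (hO.mono hu hi) hj hi' hj'
      refine ⟨u, hu.trans ht, k, hk, hk', fun y v hv h3 h4 => ?_⟩
      rw [hW _ v (hv.trans (hu.trans (ht.trans (hs.trans hr))))]
      exact ⟨hb y v (hv.trans hu) h3 (hkk y h4).1, hb' y v hv h3 (hkk y h4).2⟩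
  · rintro S W q hq ⟨hS, hW⟩
    simp only [ro_ex, ro_and, ro_mem] at hW
    rw [m_tau]
    constructor
    · intro x r hr hx
      refine RO.dense _ fun s hs => ?_
      obtain ⟨t, ht, U, hU, hxU⟩ := (hW x r hr).1 hx s hs
      have h1 := hS U t (ht.trans (hs.trans hr)) hU
      exact ⟨t, ht, ((g.m_tau O).1 h1).1 x t le_rfl hxU⟩
    · intro z r hr hz0 hz s hs
      obtain ⟨t, ht, U, hU, hzU⟩ := (hW _ r hr).1 hz s hs
      have h1 := hS U t (ht.trans (hs.trans hr)) hU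
      obtain ⟨u, hu, i, hi, hi', hb⟩ := ((g.m_tau O).1 h1).2 z t le_rfl
        (g.pt_mono (ht.trans hs) hz0) hzU t le_rfl
      refine ⟨u, hu.trans ht, i, hi, hi', fun y v hv h3 h4 => ?_⟩
      rw [hW _ v (hv.trans (hu.trans (ht.trans (hs.trans hr))))]
      intro a ha
      exact ⟨a, le_rfl, U, RO.mono _ (ha.trans (hv.trans hu)) hU, RO.mono _ ha (hb y v hv h3 h4)⟩

theorem forced_t2 (hO : g.Fam O) (p : P) : lg.t2 g.XX (g.tau O) p := by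
  simp only [Lg.t2, ro_and, ro_all, ro_imp, ro_mem, ro_ex2, ro_neg, ro_eq]
  rintro x y q hq ⟨hx, hy, hne⟩ r hr
  obtain ⟨s, hs, a, ha, hea⟩ := g.m_XX.1 hx r hr
  obtain ⟨t, ht, b, hb, heb⟩ := g.m_XX.1 hy s (hs.trans hr)
  have hea' := RO.mono _ ht hea
  have ha' := g.pt_mono ht ha
  have htq : t ≤ q := ht.trans (hs.trans hr)
  have hab : a ≠ b := by
    rintro rfl
    exact hne t htq (e_trans hea' (e_symm heb))
  obtain ⟨k, hk, h1, h2⟩ := hO.sep t a b hab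
  obtain ⟨l, hl, h3, h4⟩ := hO.clos hb hk h2
  refine ⟨t, ht.trans hs, g.bo k, g.bo l, g.bo_tau hO hk, g.bo_tau hO hl,
    m_left (e_symm hea') (g.zn_bo ha' h1), m_left (e_symm heb) (g.zn_bo hb h3), ?_⟩
  rintro z u hu ⟨h5, h6⟩
  obtain ⟨v, hv, c, hc, hec⟩ := g.m_bo.1 h5 u le_rfl
  have h7 := g.of_zn_bo (m_left hec (RO.mono _ hv h6))
  exact h4 c h7 hc.2

/-- basic sets are closed -/
theorem adh_bo (hO : g.Fam O) {x : VN P} {k : Ix} {p : P} (hk : O p k)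
    (hx : m x g.XX p) (h : lg.adh (g.tau O) x (g.bo k) p) : m x (g.bo k) p := by
  refine RO.dense _ fun q hq => ?_
  obtain ⟨r, hr, z, hz, he⟩ := g.m_XX.1 hx q hq
  have hrp := hr.trans hq
  by_cases hzk : g.mm z k
  · exact ⟨r, hr, m_left (e_symm he) (g.zn_bo hz hzk)⟩
  · exfalso
    obtain ⟨l, hl, h1, h2⟩ := hO.clos hz (hO.mono hrp hk) hzk
    simp only [Lg.adh, Lg.meet, ro_all, ro_imp, ro_and, ro_mem, ro_ex] at h
    obtain ⟨s, hs, w, hw1, hw2⟩ := h (g.bo l) r hrp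
      ⟨g.bo_tau hO hl, m_left (e_symm he) (g.zn_bo hz h1)⟩ r le_rfl
    obtain ⟨t, ht, c, hc, hec⟩ := g.m_bo.1 hw1 s le_rfl
    exact h2 c (g.of_zn_bo (m_left hec (RO.mono _ ht hw2))) hc.2

theorem forced_reg (hO : g.Fam O) (p : P) : lg.reg g.XX (g.tau O) p := by
  simp only [Lg.reg, ro_and, ro_all, ro_imp, ro_mem, ro_ex]
  rintro x U q hq ⟨hU, hx⟩ r hr
  obtain ⟨s, hs, z, k, he, hz, hk, hzk, hb⟩ := g.nbhd hU hx r hr
  refine ⟨s, hs, g.bo k, g.bo_tau hO hk, m_left (e_symm he) (g.zn_bo hz hzk), ?_⟩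
  rintro y t ht ⟨hy, hadh⟩
  exact g.bo_sub hb ht (g.adh_bo hO (hO.mono ht hk) hy hadh)

theorem forced_sreg (hO : g.Fam O) (p : P) : lg.sreg (g.tau O) p := by
  simp only [Lg.sreg, ro_and, ro_all, ro_imp, ro_mem, ro_ex, sub_iff]
  rintro x U q hq ⟨hU, hx⟩ r hr
  obtain ⟨s, hs, z, k, he, hz, hk, hzk, hb⟩ := g.nbhd hU hx r hr
  refine ⟨s, hs, g.bo k, g.bo_tau hO hk, m_left (e_symm he) (g.zn_bo hz hzk),
    fun y t ht hy => g.bo_sub hb ht hy, ?_⟩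
  rintro y W t ht ⟨hW, hy, h⟩
  exact g.adh_bo hO (hO.mono ht hk) (((g.m_tau O).1 hW).1 y t le_rfl hy) (h y t le_rfl hy)

theorem forced_unc (p : P) : lg.unc (om P) g.XX p := by
  simp only [Lg.unc, ro_neg, ro_ex, ro_and, ro_all, ro_imp, ro_mem, app_iff]
  refine ⟨fun q _ => ?_, ?_⟩
  · obtain ⟨s, hs, x, h1, _⟩ := g.add q (g.D 0) (g.D_ok q 0)
    exact ⟨s, hs, zn x, g.pt_XX h1⟩
  intro q hq hcon
  obtain ⟨q1, hq1, u, hu, hon⟩ := hcon q le_rfl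
  obtain ⟨r, hr, z, hz⟩ := decide_seq g.closed
    (fun n (z : Z) s => g.pt s z ∧ m (op (on n) (zn z)) u s)
    (fun n z {s t} hts h => ⟨g.pt_mono hts h.1, RO.mono _ hts h.2⟩) q1 (fun n s hs => by
      obtain ⟨t, ht, y, h1, h2⟩ := app_on hu n s hs
      obtain ⟨v, hv, a, ha, he⟩ := g.m_XX.1 h2 t le_rfl
      exact ⟨v, hv.trans ht, a, ha, m_left (op_congr (e_refl _ _) he) (RO.mono _ hv h1)⟩)
  obtain ⟨k, hk, _⟩ := g.ok_top r (z 0)
  obtain ⟨s, hs, x, h1, h2, _⟩ := g.add r k hk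
  obtain ⟨t, ht, n, hn⟩ := hon (zn x) s (hs.trans hr) (g.pt_XX h1) s le_rfl
  obtain ⟨v, hv, j, hj⟩ := (arg_on hu (ht.trans (hs.trans hr)) hn).1 t le_rfl
  have h3 : m (op (on j) (zn x)) u v := m_left (op_congr hj (e_refl _ _)) (RO.mono _ hv hn)
  have h4 : m (op (on j) (zn (z j))) u v := RO.mono _ (hv.trans (ht.trans hs)) (hz j).2
  have h5 := fun_unique hu (hv.trans (ht.trans (hs.trans hr))) h3 h4
  have := rig_zn _ _ _ h5
  subst this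
  exact h2 (hz j).1

theorem forced_sctb (p : P) : lg.sctb (om P) (g.tau g.Dk) p := by
  simp only [Lg.sctb, ro_ex, ro_and, ro_all, ro_imp, ro_mem, app_iff, sub_iff]
  intro q _
  refine ⟨q, le_rfl, fnm on (fun n => g.bo (g.D n)), isFun_fnm rig_on (fun x r hr hx s hs =>
    m_om.1 hx s hs) (fun n => m_on_om n q) (fun n => g.bo_tau g.fam_D ⟨n, rfl⟩), ?_⟩
  rintro x U r hr ⟨hU, hx⟩ s hs
  obtain ⟨t, ht, z, k, he, hz, ⟨n, rfl⟩, hzk, hb⟩ := g.nbhd hU hx s hs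
  refine ⟨t, ht, on n, fun v hv => ⟨v, le_rfl, g.bo (g.D n), m_op_fnm.2 fun a ha =>
    ⟨a, le_rfl, n, e_refl _ _, e_refl _ _⟩, ?_, fun y a ha hy => g.bo_sub hb (ha.trans hv) hy⟩⟩
  exact m_left (e_symm (RO.mono _ hv he)) (g.zn_bo (g.pt_mono hv hz) hzk)

theorem forced_smet (p : P) : lg.smet (om P) g.XX (g.tau g.ok) p := by
  simp only [Lg.smet, ro_ex, ro_and, sub_iff]
  intro q _
  refine ⟨q, le_rfl, g.tau g.Dk, g.forced_isTop g.fam_D q, fun U r hr hU => ?_,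
    g.forced_t2 g.fam_D q, g.forced_reg g.fam_D q, g.forced_sctb q⟩
  rw [m_tau] at hU ⊢
  refine ⟨hU.1, fun z s hs h1 h2 t ht => ?_⟩
  obtain ⟨v, hv, k, ⟨n, rfl⟩, h3, h4⟩ := hU.2 z s hs h1 h2 t ht
  exact ⟨v, hv, _, g.D_ok v n, h3, h4⟩

/-- an enumeration of the basic neighbourhoods of a point -/
theorem exists_enum {p : P} {z : Z} (hz : g.pt p z) : ∃ k : ℕ → Ix, (∀ n, g.ok p (k n) ∧
    g.mm z (k n)) ∧ ∀ q ≤ p, ∀ l, g.ok q l → g.mm z l → ∃ n, k n = l := by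
  have hc : {k | g.ok p k ∧ g.mm z k}.Countable := (g.cntK p).mono fun k hk => hk.1
  have hne : {k | g.ok p k ∧ g.mm z k}.Nonempty := g.ok_top p z
  obtain ⟨k, hk⟩ := hc.exists_eq_range hne
  refine ⟨k, fun n => ?_, fun q hq l h1 h2 => ?_⟩
  · have : k n ∈ {k | g.ok p k ∧ g.mm z k} := by
      rw [hk]
      exact Set.mem_range_self n
    exact this
  · have : l ∈ {k | g.ok p k ∧ g.mm z k} := ⟨g.old hq hz h1 h2, h2⟩
    rw [hk] at this
    exact this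

theorem forced_fctb (p : P) : lg.fctb (om P) g.XX (g.tau g.ok) p := by
  simp only [Lg.fctb, ro_ex, ro_and, ro_all, ro_imp, ro_mem, app_iff, sub_iff]
  rintro x q hq hx r hr
  obtain ⟨s, hs, z, hz, he⟩ := g.m_XX.1 hx r hr
  obtain ⟨k, hk, hk'⟩ := g.exists_enum hz
  refine ⟨s, hs, fnm on (fun n => g.bo (k n)), isFun_fnm rig_on (fun x r hr hx s hs =>
    m_om.1 hx s hs) (fun n => m_on_om n s) (fun n => g.bo_tau g.fam_ok (hk n).1), ?_, ?_⟩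
  · intro n U t ht h
    refine RO.dense _ fun v hv => ?_
    obtain ⟨a, ha, i, _, hU⟩ := m_op_fnm.1 h v hv
    have has := ha.trans (hv.trans ht)
    exact ⟨a, ha, m_right (e_symm hU) (m_left (e_symm (RO.mono _ has he))
      (g.zn_bo (g.pt_mono has hz) (hk i).2))⟩
  · rintro U t ht ⟨hU, hxU⟩ v hv
    obtain ⟨a, ha, z', l, he', hz', hl, hzl, hb⟩ := g.nbhd hU hxU v hv
    have has := ha.trans (hv.trans ht)
    have : z' = z := rig_zn _ _ _ (e_trans (e_symm he') (RO.mono _ has he))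
    subst this
    obtain ⟨n, rfl⟩ := hk' a has l hl hzl
    exact ⟨a, ha, on n, fun b hb' => ⟨b, le_rfl, g.bo (k n), m_op_fnm.2 fun c hc =>
      ⟨c, le_rfl, n, e_refl _ _, e_refl _ _⟩, fun y c hc hy => g.bo_sub hb (hc.trans hb') hy⟩⟩

end GS

end Pool.Agent.SymExt
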