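import Pool.Agent.SymExt.Top.GS

/-!
# Generic topologies: the open Whyburn property
-/

set_option linter.unusedSectionVars false
set_option linter.unusedVariables false
set_option linter.unusedSimpArgs false

namespace Pool.Agent.SymExt

namespace GS

open SN

variable {Z P Ix : Type} [PartialOrder P] [OrderTop P] (g : GS Z P Ix)

/-- a neighbourhood missing finitely many basic sets -/
theorem base_lt {p : P} {w : Z} (hw : g.pt p w) (l : ℕ → Ix) (hl : ∀ n, g.ok p (l n)) {k : Ix}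
    (hk : g.ok p k) (hwk : g.mm w k) (n0 : ℕ) (h : ∀ i < n0, ¬ g.mm w (l i)) :
    ∃ l', g.ok p l' ∧ g.mm w l' ∧ (∀ y, g.mm y l' → g.mm y k) ∧
      ∀ i < n0, ∀ y, g.mm y l' → ¬ g.mm y (l i) := by
  induction n0 with
  | zero => exact ⟨k, hk, hwk, fun _ h => h, fun i hi => by omega⟩
  | succ n0 ih =>
    obtain ⟨l', h1, h2, h3, h4⟩ := ih fun i hi => h i (by omega)
    obtain ⟨l'', h5, h6, h7⟩ := g.clos hw (hl n0) (h n0 (by omega))
    obtain ⟨a, ha, ha', haa⟩ := g.base hw h1 h5 h2 h6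
    refine ⟨a, ha, ha', fun y hy => h3 y (haa y hy).1, fun i hi y hy => ?_⟩
    rcases Nat.lt_succ_iff_lt_or_eq.1 hi with hi | hi
    · exact h4 i hi y (haa y hy).1
    · subst hi
      exact h7 y (haa y hy).2

/-- a decreasing base at a point -/
theorem exists_dec {p : P} {z : Z} (hz : g.pt p z) : ∃ c : ℕ → Ix,
    (∀ n, g.ok p (c n) ∧ g.mm z (c n)) ∧ (∀ n m, n ≤ m → ∀ y, g.mm y (c m) → g.mm y (c n)) ∧
    ∀ q ≤ p, ∀ l, g.ok q l → g.mm z l → ∃ n, ∀ y, g.mm y (c n) → g.mm y l := by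
  obtain ⟨k, hk, hk'⟩ := g.exists_enum hz
  have hstep : ∀ a : {a // g.ok p a ∧ g.mm z a}, ∀ n, ∃ b : {a // g.ok p a ∧ g.mm z a},
      ∀ y, g.mm y b.1 → g.mm y a.1 ∧ g.mm y (k n) := by
    intro a n
    obtain ⟨l, h1, h2, h3⟩ := g.base hz a.2.1 (hk n).1 a.2.2 (hk n).2
    exact ⟨⟨l, h1, h2⟩, h3⟩
  choose F hF using hstep
  let c : ℕ → {a // g.ok p a ∧ g.mm z a} := fun n =>
    Nat.rec ⟨k 0, hk 0⟩ (fun n a => F a n) n
  have hc : ∀ n y, g.mm y (c (n + 1)).1 → g.mm y (c n).1 ∧ g.mm y (k n) := fun n => hF (c n) n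
  refine ⟨fun n => (c n).1, fun n => (c n).2, fun n m hnm => ?_, fun q hq l h1 h2 => ?_⟩
  · induction m, hnm using Nat.le_induction with
    | base => exact fun y h => h
    | succ m hm ih => exact fun y h => ih y (hc m y h).1
  · obtain ⟨n, rfl⟩ := hk' q hq l h1 h2
    exact ⟨n + 1, fun y h => (hc n y h).2⟩

theorem forced_owhy (p : P) : lg.owhy g.XX (g.tau g.ok) p := by
  simp only [Lg.owhy, ro_and, ro_all, ro_imp, ro_mem, ro_ex, ro_neg, ro_iff, ro_eq, sub_iff]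
  rintro A x q hq ⟨hA, hx, hadh, hxA⟩ r0 hr0
  obtain ⟨r, hr, z, hz, he⟩ := g.m_XX.1 hx r0 hr0
  have hrq := hr.trans hr0
  obtain ⟨c, hc1, hc2, hc3⟩ := g.exists_dec hz
  simp only [Lg.adh, Lg.meet, ro_all, ro_imp, ro_and, ro_mem, ro_ex] at hadh
  obtain ⟨s, hs, yl, hyl⟩ := decide_seq g.closed
    (fun n (a : Z × Ix) s => g.pt s a.1 ∧ g.ok s a.2 ∧ g.mm a.1 a.2 ∧
      (∀ w, g.mm w a.2 → g.mm w (c n)) ∧ ∀ w, ∀ t ≤ s, g.pt t w → g.mm w a.2 → m (zn w) A t)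
    (fun n a {s t} hts h => ⟨g.pt_mono hts h.1, g.ok_mono hts h.2.1, h.2.2.1, h.2.2.2.1,
      fun w u hu => h.2.2.2.2 w u (hu.trans hts)⟩) r (fun n s hs => by
      obtain ⟨t, ht, w, hw1, hw2⟩ := hadh (g.bo (c n)) s (hs.trans hrq)
        ⟨g.bo_tau g.fam_ok (g.ok_mono hs (hc1 n).1), m_left (e_symm (RO.mono _ hs he))
          (g.zn_bo (g.pt_mono hs hz) (hc1 n).2)⟩ s le_rfl
      obtain ⟨u, hu, y, k, hey, hy, hk, hyk, hb⟩ :=
        g.nbhd (RO.mono _ (ht.trans (hs.trans hrq)) hA) hw1 t le_rfl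
      have hyc : g.mm y (c n) := g.of_zn_bo (m_left hey (RO.mono _ hu hw2))
      obtain ⟨l, hl, hyl, hll⟩ := g.base hy hk (g.ok_mono (hu.trans (ht.trans hs)) (hc1 n).1)
        hyk hyc
      exact ⟨u, hu.trans ht, (y, l), hy, hl, hyl, fun w hw => (hll w hw).2,
        fun w v hv h1 h2 => hb w v hv h1 (hll w h2).1⟩)
  have hsq : s ≤ q := hs.trans hrq
  obtain ⟨B, hB⟩ := exists_nn (P := P) (zn : Z → VN P) (fun w p => g.pt p w ∧
    ∃ n, g.mm w (yl n).2) (fun w p q hq h => ⟨g.pt_mono hq h.1, h.2⟩)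
  have hBA : ∀ y, ∀ t ≤ s, m y B t → m y A t := by
    intro y t ht hy
    refine RO.dense _ fun u hu => ?_
    obtain ⟨v, hv, w, ⟨h1, n, h2⟩, hw⟩ := (hB _ _).1 hy u hu
    exact ⟨v, hv, m_left (e_symm hw) ((hyl n).2.2.2.2 w v (hv.trans (hu.trans ht)) h1 h2)⟩
  have hznB : ∀ w t, m (zn w) B t → ∃ n, g.mm w (yl n).2 := by
    intro w t h
    obtain ⟨v, _, w', ⟨_, h2⟩, hw⟩ := (hB _ _).1 h t le_rfl
    rwa [rig_zn _ _ _ hw]
  refine ⟨s, hs.trans hr, B, ?_, fun y t ht hy => hBA y t ht hy, ?_⟩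
  · rw [m_tau]
    refine ⟨fun y t ht hy => ((g.m_tau _).1 (RO.mono _ hsq hA)).1 y t ht (hBA y t ht hy), ?_⟩
    intro w t ht hw hwB u hu
    obtain ⟨n, hn⟩ := hznB w t hwB
    exact ⟨u, le_rfl, (yl n).2, g.ok_mono (hu.trans ht) (hyl n).2.1, hn, fun y v hv h1 h2 =>
      (hB _ _).2 fun v' hv' => ⟨v', le_rfl, y, ⟨g.pt_mono hv' h1, n, h2⟩, e_refl _ _⟩⟩
  · intro y t0 ht0 hy0 t htt
    have ht := htt.trans ht0
    have hy := RO.mono _ htt hy0
    have htq := ht.trans hsq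
    constructor
    · rintro ⟨h1, h2⟩
      refine RO.dense _ fun u hu => ?_
      obtain ⟨v, hv, w, hw, hew⟩ := g.m_XX.1 hy u hu
      have hvs : v ≤ s := hv.trans (hu.trans ht)
      have hvt : v ≤ t := hv.trans hu
      have hzv : e x (zn z) v := RO.mono _ (hvs.trans hs) he
      refine ⟨v, hv, ?_⟩
      suffices hwz : w = z by
        subst hwz
        exact e_trans hew (e_symm hzv)
      by_contra hwz
      obtain ⟨n, hn1, hn2⟩ := g.D_sep z w (fun h => hwz h.symm)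
      obtain ⟨l, hl, hwl, hll⟩ := g.clos hw (g.D_ok v n) hn2
      obtain ⟨n0, hn0⟩ := hc3 v (hvs.trans hs) (g.D n) (g.D_ok v n) hn1
      obtain ⟨l', hl', hwl', h3, h4⟩ := g.base_lt hw (fun i => (yl i).2)
        (fun i => g.ok_mono hvs (hyl i).2.1) hl hwl n0 (fun i _ hi => h2 v hvt
          (m_left (e_symm hew) ((hyl i).2.2.2.2 w v hvs hw hi)))
      simp only [Lg.adh, Lg.meet, ro_all, ro_imp, ro_and, ro_mem, ro_ex] at h1
      obtain ⟨a, ha, b, hb1, hb2⟩ := h1 (g.bo l') v hvt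
        ⟨g.bo_tau g.fam_ok hl', m_left (e_symm hew) (g.zn_bo hw hwl')⟩ v le_rfl
      obtain ⟨a', ha', b', hb', heb⟩ := g.m_bo.1 hb2 a le_rfl
      obtain ⟨i, hi⟩ := hznB b' a' (m_left heb (RO.mono _ ha' hb1))
      by_cases hi0 : i < n0
      · exact h4 i hi0 b' hb'.2 hi
      · exact hll b' (h3 b' hb'.2) (hn0 b' (hc2 n0 i (by omega) b' ((hyl i).2.2.2.1 b' hi)))
    · intro hyx
      constructor
      · simp only [Lg.adh, Lg.meet, ro_all, ro_imp, ro_and, ro_mem, ro_ex]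
        rintro O u hu ⟨hO, hyO⟩ v hv
        obtain ⟨v1, hv1, z', k, hez, hz', hk, hzk, hb⟩ := g.nbhd hO hyO v hv
        have hv1s : v1 ≤ s := hv1.trans (hv.trans (hu.trans ht))
        have hv1t : v1 ≤ t := hv1.trans (hv.trans hu)
        have : z' = z := rig_zn _ _ _ (e_trans (e_symm hez) (e_trans (RO.mono _ hv1t hyx)
          (RO.mono _ (hv1s.trans hs) he)))
        subst this
        obtain ⟨n, hn⟩ := hc3 v1 (hv1s.trans hs) k hk hzk
        have hpt := g.pt_mono hv1s (hyl n).1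
        refine ⟨v1, hv1, zn (yl n).1, (hB _ _).2 fun v' hv' => ⟨v', le_rfl, (yl n).1,
          ⟨g.pt_mono hv' hpt, n, (hyl n).2.2.1⟩, e_refl _ _⟩, ?_⟩
        exact hb _ v1 le_rfl hpt (hn _ ((hyl n).2.2.2.1 _ (hyl n).2.2.1))
      · intro u hu hyA
        exact hxA u (hu.trans htq) (m_left (RO.mono _ hu hyx) hyA)

end GS

end Pool.Agent.SymExt
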