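import Pool.Agent.SymExt.Top.GSForced

/-!
# Generic topologies: the space of quasicontinuous functions
-/

set_option linter.unusedSectionVars false
set_option linter.unusedVariables false
set_option linter.unusedSimpArgs false

namespace Pool.Agent.SymExt

theorem list_dense {P : Type} [PartialOrder P] {α β : Type} (Φ : α → β → P → Prop)
    (hm : ∀ a b {p q}, q ≤ p → Φ a b p → Φ a b q) (L : List α) (p : P)
    (h : ∀ a ∈ L, ∀ q ≤ p, ∃ r ≤ q, ∃ b, Φ a b r) : ∃ r ≤ p, ∃ M : List β,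
      (∀ a ∈ L, ∃ b ∈ M, Φ a b r) ∧ ∀ b ∈ M, ∃ a ∈ L, Φ a b r := by
  induction L with
  | nil => exact ⟨p, le_rfl, [], by simp, by simp⟩
  | cons a L ih =>
    obtain ⟨r, hr, M, h1, h2⟩ := ih fun a ha => h a (List.mem_cons_of_mem _ ha)
    obtain ⟨s, hs, b, hb⟩ := h a List.mem_cons_self r hr
    refine ⟨s, hs.trans hr, b :: M, fun a' ha' => ?_, fun b' hb' => ?_⟩
    · rcases List.mem_cons.1 ha' with rfl | ha'
      · exact ⟨b, List.mem_cons_self, hb⟩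
      · obtain ⟨b', h3, h4⟩ := h1 a' ha'
        exact ⟨b', List.mem_cons_of_mem _ h3, hm _ _ hs h4⟩
    · rcases List.mem_cons.1 hb' with rfl | hb'
      · exact ⟨a, List.mem_cons_self, hb⟩
      · obtain ⟨a', h3, h4⟩ := h2 b' hb'
        exact ⟨a', List.mem_cons_of_mem _ h3, hm _ _ hs h4⟩

namespace GS

open SN

variable {Z P Ix : Type} [PartialOrder P] [OrderTop P] (g : GS Z P Ix)

/-- `f` is close to `d` on `l` -/
def vb (f : VN P) (l : Ix) (d ε : ℝ) (s : P) : Prop :=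
  ∀ y, ∀ u ≤ s, g.pt u y → g.mm y l → ∀ b : ℝ, m (op (zn y) (zn b)) f u → |b - d| < ε

variable {g}

theorem vb_mono {f : VN P} {l : Ix} {d ε : ℝ} {s t : P} (hts : t ≤ s) (h : g.vb f l d ε s) :
    g.vb f l d ε t := fun y u hu => h y u (hu.trans hts)

theorem exists_val {f : VN P} {p : P} (hf : lg.isFun f g.XX (RR P) p) {y : Z} (hy : g.pt p y) :
    ∀ q ≤ p, ∃ r ≤ q, ∃ d : ℝ, m (op (zn y) (zn d)) f r := by
  rw [isFun_iff] at hf
  intro q hq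
  obtain ⟨r, hr, w, hw⟩ := hf.2.1 (zn y) q hq (g.pt_XX (g.pt_mono hq hy)) q le_rfl
  obtain ⟨s, hs, a, b, ha, hb, he⟩ := hf.1 _ r (hr.trans hq) hw r le_rfl
  obtain ⟨h1, h2⟩ := op_inj he
  obtain ⟨t, ht, d, hd⟩ := m_RR.1 hb s le_rfl
  exact ⟨t, ht.trans (hs.trans hr), d, m_left (op_congr (e_refl _ _)
    (e_trans (RO.mono _ ht h2) hd)) (RO.mono _ (ht.trans hs) hw)⟩

theorem app_XX {f x y : VN P} {p q : P} (hf : lg.isFun f g.XX (RR P) p) (hq : q ≤ p)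
    (h : m (op x y) f q) : ∀ r ≤ q, ∃ s ≤ r, ∃ (z : Z) (d : ℝ), g.pt s z ∧ e x (zn z) s ∧
      e y (zn d) s ∧ m (op (zn z) (zn d)) f s := by
  rw [isFun_iff] at hf
  intro r hr
  obtain ⟨s, hs, a, b, ha, hb, he⟩ := hf.1 _ q hq h r hr
  obtain ⟨h1, h2⟩ := op_inj he
  obtain ⟨t, ht, z, hz, hez⟩ := g.m_XX.1 ha s le_rfl
  obtain ⟨u, hu, d, hd⟩ := m_RR.1 (RO.mono _ ht hb) t le_rfl
  have h3 : e x (zn z) u := e_trans (RO.mono _ (hu.trans ht) h1) (RO.mono _ hu hez)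
  have h4 : e y (zn d) u := e_trans (RO.mono _ (hu.trans ht) h2) hd
  exact ⟨u, hu.trans (ht.trans hs), z, d, g.pt_mono hu hz, h3, h4,
    m_left (op_congr h3 h4) (RO.mono _ (hu.trans (ht.trans (hs.trans hr))) h)⟩

theorem val_unique {f : VN P} {p q : P} (hf : lg.isFun f g.XX (RR P) p) (hq : q ≤ p) {y : Z}
    {a b : ℝ} (h : m (op (zn y) (zn a)) f q) (h' : m (op (zn y) (zn b)) f q) : a = b :=
  rig_zn _ _ _ (fun_unique hf hq h h')

theorem qc_fun {f : VN P} {p : P} (hf : lg.qc g.XX (g.tau g.ok) (RR P) (LL P) f p) :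
    lg.isFun f g.XX (RR P) p := by
  simp only [Lg.qc, ro_and] at hf
  exact hf.1

theorem qc_ext {f : VN P} {p : P} (hf : lg.qc g.XX (g.tau g.ok) (RR P) (LL P) f p) {y : Z}
    {k : Ix} {d ε : ℝ} (hε : 0 < ε) {q : P} (hq : q ≤ p) (hy : g.pt q y) (hk : g.ok q k)
    (hyk : g.mm y k) (hd : m (op (zn y) (zn d)) f q) : ∃ s ≤ q, ∃ l t, g.ok s l ∧ g.pt s t ∧
      g.mm t l ∧ (∀ y', g.mm y' l → g.mm y' k) ∧ g.vb f l d ε s := by
  simp only [Lg.qc, Lg.btw, ro_and, ro_all, ro_imp, ro_ex, ro_mem, app_iff, sub_iff] at hf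
  obtain ⟨hf1, hf2⟩ := hf
  obtain ⟨r, hr, W, hW, hne, hsub, hval⟩ := hf2 (zn y) (zn d) (g.bo k) (zn (d - ε)) (zn (d + ε))
    q hq ⟨hd, g.bo_tau g.fam_ok hk, g.zn_bo hy hyk, LL_zn.2 (by linarith),
      LL_zn.2 (by linarith)⟩ q le_rfl
  obtain ⟨s, hs, t, ht⟩ := hne r le_rfl
  obtain ⟨u, hu, t', l0, het, hpt, hl0, htl, hb⟩ := g.nbhd (RO.mono _ hs hW) ht s le_rfl
  have hur : u ≤ r := hu.trans hs
  have htk : g.mm t' k := g.of_zn_bo (hsub _ u hur (m_left het (RO.mono _ hu ht)))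
  obtain ⟨l, hl, htl', hll⟩ := g.base hpt hl0 (g.ok_mono (hur.trans hr) hk) htl htk
  refine ⟨u, hur.trans hr, l, t', hl, hpt, htl', fun y' h => (hll y' h).2, ?_⟩
  intro y' v hv h1 h2 b hb'
  obtain ⟨h3, h4⟩ := hval (zn y') (zn b) v (hv.trans hur) ⟨hb y' v hv h1 (hll y' h2).1, hb'⟩
  have h5 := LL_zn.1 h3
  have h6 := LL_zn.1 h4
  rw [abs_lt]
  constructor <;> linarith

/-- finitely many points -/
theorem clos_ext {A G : VN P} {p : P} (hG : lg.isFun G g.XX (RR P) p)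
    (hcl : lg.clos (om P) g.XX (RR P) (LL P) G A p) {ε : ℝ} (hε : 0 < ε) {q : P} (hq : q ≤ p)
    (L : List (Z × ℝ)) (hL : ∀ a ∈ L, g.pt q a.1 ∧ m (op (zn a.1) (zn a.2)) G q) :
    ∃ r ≤ q, ∃ f, m f A r ∧ ∀ a ∈ L, ∀ u ≤ r, ∀ d : ℝ, m (op (zn a.1) (zn d)) f u →
      |d - a.2| < ε := by
  simp only [Lg.clos, Lg.bas, Lg.btw, ro_and, ro_all, ro_imp, ro_ex, ro_mem, app_iff] at hcl
  let N := L.length
  let yy : Fin N → VN P := fun i => on i
  have hyy : Rig yy := fun i j p h => Fin.ext (rig_on _ _ _ h)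
  have hdom : ∀ x, ∀ r ≤ q, m x (on N) r → ∀ s ≤ r, ∃ t ≤ s, ∃ i, e x (yy i) t := by
    intro x r hr hx s hs
    obtain ⟨t, ht, k, hk, he⟩ := m_on.1 hx s hs
    exact ⟨t, ht, ⟨k, hk⟩, he⟩
  have hpt : ∀ i : Fin N, g.pt q (L.get i).1 := fun i => (hL _ (List.get_mem _ _)).1
  have hval : ∀ i : Fin N, m (op (zn (L.get i).1) (zn (L.get i).2)) G q :=
    fun i => (hL _ (List.get_mem _ _)).2
  obtain ⟨r, hr, f, hf, hb⟩ := hcl (on N) (fnm yy fun i => zn (L.get i).1)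
    (fnm yy fun i => zn ((L.get i).2 - ε)) (fnm yy fun i => zn ((L.get i).2 + ε)) q hq
    ⟨m_on_om _ _, isFun_fnm hyy hdom (fun i => m_on_on.2 i.2) (fun i => g.pt_XX (hpt i)),
      isFun_fnm hyy hdom (fun i => m_on_on.2 i.2) (fun i => zn_RR _ _),
      isFun_fnm hyy hdom (fun i => m_on_on.2 i.2) (fun i => zn_RR _ _), by
      rintro i u y c d s hs ⟨h1, h2, h3, h4⟩
      have key : ∀ t ≤ s, ∃ v ≤ t, m (op c y) (LL P) v ∧ m (op y d) (LL P) v := by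
        intro t ht
        obtain ⟨t1, ht1, i1, e1, e2⟩ := m_op_fnm.1 h1 t ht
        obtain ⟨t2, ht2, i2, e3, e4⟩ := m_op_fnm.1 h3 t1 (ht1.trans ht)
        obtain ⟨t3, ht3, i3, e5, e6⟩ := m_op_fnm.1 h4 t2 (ht2.trans (ht1.trans ht))
        have ht3s : t3 ≤ s := ht3.trans (ht2.trans (ht1.trans ht))
        have hi2 : i1 = i2 := hyy _ _ _ (e_trans (e_symm (RO.mono _ ht2 e1)) e3)
        have hi3 : i1 = i3 := hyy _ _ _ (e_trans (e_symm (RO.mono _ (ht3.trans ht2) e1)) e5)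
        subst hi2
        subst hi3
        have hG' : m (op (zn (L.get i1).1) y) G t3 := m_left
          (op_congr (RO.mono _ (ht3.trans ht2) e2) (e_refl _ _)) (RO.mono _ ht3s h2)
        have hyv : e y (zn (L.get i1).2) t3 :=
          fun_unique hG (ht3s.trans (hs.trans hq)) hG' (RO.mono _ (ht3s.trans hs) (hval i1))
        exact ⟨t3, ht3.trans (ht2.trans ht1),
          LL_congr (e_symm (RO.mono _ ht3 e4)) (e_symm hyv) (LL_zn.2 (by linarith)),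
          LL_congr (e_symm hyv) (e_symm e6) (LL_zn.2 (by linarith))⟩
      exact ⟨RO.dense _ fun t ht => (key t ht).imp fun v hv => ⟨hv.1, hv.2.1⟩,
        RO.dense _ fun t ht => (key t ht).imp fun v hv => ⟨hv.1, hv.2.2⟩⟩⟩ q le_rfl
  refine ⟨r, hr, f, hf, fun a ha u hu d hd => ?_⟩
  obtain ⟨i, rfl⟩ := List.get_of_mem ha
  obtain ⟨h1, h2⟩ := hb (on i) (zn (L.get i).1) (zn d) (zn ((L.get i).2 - ε))
    (zn ((L.get i).2 + ε)) u hu ⟨m_op_fnm.2 fun v hv => ⟨v, le_rfl, i, e_refl _ _, e_refl _ _⟩,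
      hd, m_op_fnm.2 fun v hv => ⟨v, le_rfl, i, e_refl _ _, e_refl _ _⟩,
      m_op_fnm.2 fun v hv => ⟨v, le_rfl, i, e_refl _ _, e_refl _ _⟩⟩
  have h5 := LL_zn.1 h1
  have h6 := LL_zn.1 h2
  rw [abs_lt]
  constructor <;> linarith

end GS

end Pool.Agent.SymExt
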