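import Pool.Agent.SymExt.Top.Plain
import Pool.Agent.SymExt.Top.TopNotions

/-!
# Names for the elements of a ground model set, natural numbers
-/

set_option linter.unusedSectionVars false
set_option linter.unusedVariables false
set_option linter.unusedSimpArgs false

namespace Pool.Agent.SymExt

/-- pairwise different sets, indexed by a type -/
noncomputable def wnP {Z : Type} : Z → PSet.{0} :=
  (IsWellFounded.wf : WellFounded (WellOrderingRel (α := Z))).fix fun z ih =>
    PSet.mk {z' // WellOrderingRel z' z} fun z' => ih z' z'.2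

theorem wnP_eq {Z : Type} (z : Z) :
    wnP z = PSet.mk {z' // WellOrderingRel z' z} fun z' => wnP z'.1 :=
  (IsWellFounded.wf : WellFounded (WellOrderingRel (α := Z))).fix_eq _ z

theorem wnP_mem {Z : Type} {a b : Z} (h : WellOrderingRel a b) : wnP a ∈ wnP b := by
  rw [wnP_eq b]
  exact PSet.Mem.mk (fun z' : {z' // WellOrderingRel z' b} => wnP z'.1) ⟨a, h⟩

theorem wnP_inj {Z : Type} {a b : Z} (h : PSet.Equiv (wnP a) (wnP b)) : a = b := by
  rcases trichotomous_of WellOrderingRel a b with h1 | h1 | h1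
  · exact absurd ((PSet.Mem.congr_right h).2 (wnP_mem h1)) (PSet.mem_irrefl _)
  · exact h1
  · exact absurd ((PSet.Mem.congr_right h).1 (wnP_mem h1)) (PSet.mem_irrefl _)

theorem ofNat_mem {a b : ℕ} : PSet.ofNat a ∈ PSet.ofNat b ↔ a < b := by
  induction b with
  | zero =>
    constructor
    · rintro ⟨i, _⟩
      exact i.elim
    · intro h
      omega
  | succ b ih =>
    rw [show PSet.ofNat (b + 1) = insert (PSet.ofNat b) (PSet.ofNat b) from rfl,
      PSet.mem_insert_iff, ih]
    constructor
    · rintro (h | h)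
      · by_contra hc
        have h1 : b < a := by omega
        have h2 : ∀ n, b < n → PSet.ofNat b ∈ PSet.ofNat n := by
          intro n hn
          induction n, hn using Nat.le_induction with
          | base =>
            rw [show PSet.ofNat (b + 1) = insert (PSet.ofNat b) (PSet.ofNat b) from rfl,
              PSet.mem_insert_iff]
            exact Or.inl (PSet.Equiv.refl _)
          | succ n hn ihn =>
            rw [show PSet.ofNat (n + 1) = insert (PSet.ofNat n) (PSet.ofNat n) from rfl,
              PSet.mem_insert_iff]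
            exact Or.inr ihn
        exact PSet.mem_irrefl _ ((PSet.Mem.congr_right h).1 (h2 a h1))
      · omega
    · intro h
      rcases Nat.lt_succ_iff_lt_or_eq.1 h with h | h
      · exact Or.inr h
      · subst h
        exact Or.inl (PSet.Equiv.refl _)

theorem ofNat_inj {a b : ℕ} (h : PSet.Equiv (PSet.ofNat a : PSet.{0}) (PSet.ofNat b : PSet.{0})) : a = b := by
  rcases lt_trichotomy a b with h1 | h1 | h1
  · exact absurd ((PSet.Mem.congr_right h).2 (ofNat_mem.2 h1)) (PSet.mem_irrefl _)
  · exact h1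
  · exact absurd ((PSet.Mem.congr_right h).1 (ofNat_mem.2 h1)) (PSet.mem_irrefl _)

variable {P : Type} [PartialOrder P] [OrderTop P]

namespace SN

/-- names for the elements of a type -/
noncomputable def zn {Z : Type} (z : Z) : VN P := ck (wnP z)

theorem rig_zn {Z : Type} : Rig (P := P) (zn : Z → VN P) := fun i j p h => wnP_inj (e_ck.1 h)

/-- the name of the natural number `n` -/
def on (n : ℕ) : VN P := ck (PSet.ofNat n)

theorem rig_on : Rig (P := P) on := fun i j p h => ofNat_inj (e_ck.1 h)

variable (P) in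
/-- the name of the set of natural numbers -/
def om : VN P := ck PSet.omega

theorem m_om {x : VN P} {p : P} : m x (om P) p ↔ ∀ q ≤ p, ∃ r ≤ q, ∃ n, e x (on n) r := by
  unfold om
  rw [m_ck]
  refine forall_congr' fun q => forall_congr' fun _ => exists_congr fun r =>
    and_congr_right fun _ => ?_
  constructor
  · rintro ⟨i, h⟩
    exact ⟨i.down, h⟩
  · rintro ⟨n, h⟩
    exact ⟨ULift.up n, h⟩

theorem m_on_om (n : ℕ) (p : P) : m (on n) (om P) p :=
  m_om.2 fun q _ => ⟨q, le_rfl, n, e_refl _ _⟩

theorem m_on_succ {x : VN P} {n : ℕ} {p : P} : m x (on (n + 1)) p ↔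
    ∀ q ≤ p, ∃ r ≤ q, m x (on n) r ∨ e x (on n) r :=
  m_ck_insert (PSet.ofNat n) (PSet.ofNat n) x p

theorem not_m_on_zero {x : VN P} {p : P} : ¬ m x (on 0) p := by
  intro h
  obtain ⟨r, _, i, _⟩ := (m_ck _ _ _).1 h p le_rfl
  exact i.elim

theorem m_on {x : VN P} {n : ℕ} {p : P} : m x (on n) p ↔
    ∀ q ≤ p, ∃ r ≤ q, ∃ k < n, e x (on k) r := by
  induction n generalizing p with
  | zero =>
    constructor
    · intro h
      exact absurd h not_m_on_zero
    · intro h
      obtain ⟨r, _, k, hk, _⟩ := h p le_rfl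
      omega
  | succ n ih =>
    rw [m_on_succ]
    constructor
    · intro h q hq
      obtain ⟨r, hr, h | h⟩ := h q hq
      · obtain ⟨s, hs, k, hk, he⟩ := ih.1 h r le_rfl
        exact ⟨s, hs.trans hr, k, by omega, he⟩
      · exact ⟨r, hr, n, by omega, h⟩
    · intro h q hq
      obtain ⟨r, hr, k, hk, he⟩ := h q hq
      rcases Nat.lt_succ_iff_lt_or_eq.1 hk with hk | hk
      · exact ⟨r, hr, Or.inl (ih.2 fun s hs => ⟨s, le_rfl, k, hk, RO.mono _ hs he⟩)⟩
      · subst hk
        exact ⟨r, hr, Or.inr he⟩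

theorem m_on_on {a b : ℕ} {p : P} : m (on a) (on b : VN P) p ↔ a < b := by
  rw [m_on]
  constructor
  · intro h
    obtain ⟨r, _, k, hk, he⟩ := h p le_rfl
    rwa [rig_on a k r he]
  · intro h q _
    exact ⟨q, le_rfl, a, h, e_refl _ _⟩

theorem empty_iff {x : VN P} {p : P} : lg.empty x p ↔ e x (on 0) p := by
  simp only [Lg.empty, ro_all, ro_neg, ro_mem]
  constructor
  · intro h
    refine e_ext fun q hq z => ⟨fun hz => absurd hz (h z q hq), fun hz => absurd hz not_m_on_zero⟩
  · intro h z q hq hz
    exact not_m_on_zero (m_right (RO.mono _ hq h) hz)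

theorem adj_iff {x : VN P} {n : ℕ} {p : P} : lg.adj x (on n) (on n) p ↔ e x (on (n + 1)) p := by
  simp only [Lg.adj, ro_all, ro_iff, ro_or, ro_mem, ro_eq]
  constructor
  · intro h
    refine e_ext fun q hq z => ?_
    rw [h z q hq, m_on_succ]
  · intro h z q hq
    have h1 := RO.mono _ hq h
    rw [← m_on_succ]
    exact ⟨fun h2 => m_right h1 h2, fun h2 => m_right (e_symm h1) h2⟩

theorem isOm_om (p : P) : lg.isOm (om P) p := by
  simp only [Lg.isOm, Lg.indv, ro_all, ro_iff, ro_imp, ro_and, ro_ex, ro_mem]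
  intro t q hq
  constructor
  · rintro ht I r hr ⟨h0, hs⟩
    -- all `on n` are in `I`
    have key : ∀ n, m (on n) I r := by
      intro n
      induction n with
      | zero =>
        refine RO.dense _ fun u hu => ?_
        obtain ⟨v, hv, z, hz, hzI⟩ := h0 u hu
        exact ⟨v, hv, m_left (empty_iff.1 hz) hzI⟩
      | succ n ih =>
        refine RO.dense _ fun u hu => ?_
        obtain ⟨v, hv, s, hsI, hadj⟩ := hs (on n) r le_rfl ih u hu
        exact ⟨v, hv, m_left (adj_iff.1 hadj) hsI⟩
    refine RO.dense _ fun u hu => ?_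
    obtain ⟨v, hv, n, he⟩ := m_om.1 ht u (hu.trans hr)
    exact ⟨v, hv, m_left (e_symm he) (RO.mono _ (hv.trans hu) (key n))⟩
  · intro h
    refine h (om P) q le_rfl ⟨fun r hr => ⟨r, le_rfl, on 0, empty_iff.2 (e_refl _ _),
      m_on_om 0 r⟩, fun z r hr hz s hs => ?_⟩
    obtain ⟨v, hv, n, he⟩ := m_om.1 hz s hs
    refine ⟨v, hv, on (n + 1), m_on_om _ _, ?_⟩
    have h1 : lg.adj (on (n + 1) : VN P) (on n) (on n) v := adj_iff.2 (e_refl _ _)
    simp only [Lg.adj, ro_all, ro_iff, ro_or, ro_mem, ro_eq] at h1 ⊢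
    intro w u hu
    rw [h1 w u hu]
    refine forall_congr' fun a => forall_congr' fun ha => exists_congr fun b =>
      and_congr_right fun hb => ?_
    have he' := RO.mono _ (hb.trans (ha.trans hu)) he
    exact or_congr ⟨fun h => m_right (e_symm he') h, fun h => m_right he' h⟩
      ⟨fun h => e_trans h (e_symm he'), fun h => e_trans h he'⟩

end SN

end Pool.Agent.SymExt
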