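import Pool.Agent.SymExt.Flat

/-!
# Plain forcing extensions (trivial group), nice names, the axiom of choice
-/

set_option linter.unusedSectionVars false
set_option linter.unusedVariables false
set_option linter.unusedSimpArgs false

namespace Pool.Agent.SymExt

open Name

/-- the trivial group -/
def Tv : Type := Unit

instance : Group Tv := inferInstanceAs (Group Unit)

instance (P : Type) : MulAction Tv P where
  smul _ p := p
  one_smul _ := rfl
  mul_smul _ _ _ := rfl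

instance (P : Type) [PartialOrder P] : OrdAct Tv P where
  le _ _ _ h := h

/-- the filter of all subgroups of the trivial group -/
def tvF : NFilter Tv where
  mem _ := True
  top := trivial
  up _ _ := trivial
  inf _ _ := trivial
  conj _ _ _ := trivial

variable {P : Type} [PartialOrder P] [OrderTop P]

variable (P) in
/-- the names of the forcing extension -/
abbrev VN : Type 1 := SN P tvF

theorem tv_act (g : Tv) (x : Name P) : g • x = x := by
  induction x with
  | mk ι x c ih =>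
    change Name.mk ι (fun i => g • x i) (fun i => g • c i) = _
    congr 1
    funext i
    exact ih i

namespace SN

theorem tv_smul (g : Tv) (x : VN P) : g • x = x := Subtype.ext (tv_act g x.1)

theorem famSym {ι : Type} (y : ι → VN P) : FamSym y :=
  ⟨⊤, trivial, fun g _ i => ⟨i, fun p => by rw [tv_smul]; exact e_refl _ _⟩⟩

/-- the name with elements `y i` and conditions `c i` -/
theorem exists_mkn {ι : Type} (y : ι → VN P) (c : ι → P) : ∃ x : VN P, ∀ z p,
    m z x p ↔ ∀ q ≤ p, ∃ r ≤ q, ∃ i, r ≤ c i ∧ e z (y i) r := by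
  refine exists_mk ι y c _ (fun z p => Iff.rfl) (H := ⊤) trivial ?_
  intro g _ z p h
  rw [tv_smul]
  exact h

/-- the set with elements `y i` and truth values `ν i` -/
theorem exists_nn {ι : Type} (y : ι → VN P) (ν : ι → P → Prop)
    (hν : ∀ i {p q}, q ≤ p → ν i p → ν i q) : ∃ x : VN P, ∀ z p,
    m z x p ↔ ∀ q ≤ p, ∃ r ≤ q, ∃ i, ν i r ∧ e z (y i) r := by
  obtain ⟨x, hx⟩ := exists_mkn (P := P) (ι := Σ i : ι, {p : P // ν i p}) (fun j => y j.1)
    (fun j => j.2.1)
  refine ⟨x, fun z p => ?_⟩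
  rw [hx]
  refine forall_congr' fun q => forall_congr' fun _ => exists_congr fun r =>
    and_congr_right fun _ => ?_
  constructor
  · rintro ⟨⟨i, p', hp'⟩, hr, h⟩
    exact ⟨i, hν i hr hp', h⟩
  · rintro ⟨i, hi, h⟩
    exact ⟨⟨i, r, hi⟩, le_rfl, h⟩

/-- the nice name for the set with elements `y i` and truth values `ν i` -/
noncomputable def nn {ι : Type} (y : ι → VN P) (ν : ι → RO P) : VN P :=
  (exists_nn y (fun i => ν i) (fun i _ _ h hp => (ν i).mono h hp)).choose

theorem m_nn {ι : Type} {y : ι → VN P} {ν : ι → RO P} {z : VN P} {p : P} :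
    m z (nn y ν) p ↔ ∀ q ≤ p, ∃ r ≤ q, ∃ i, ν i r ∧ e z (y i) r :=
  (exists_nn y (fun i => ν i) (fun i _ _ h hp => (ν i).mono h hp)).choose_spec z p

theorem m_nn_of {ι : Type} {y : ι → VN P} {ν : ι → RO P} {i : ι} {p : P} (h : ν i p) :
    m (y i) (nn y ν) p :=
  m_nn.2 fun q hq => ⟨q, le_rfl, i, (ν i).mono hq h, e_refl _ _⟩

/-- rigid families -/
def Rig {ι : Type} (y : ι → VN P) : Prop := ∀ i j p, e (y i) (y j) p → i = j

theorem m_nn_iff {ι : Type} {y : ι → VN P} (hy : Rig y) {ν : ι → RO P} {i : ι} {p : P} :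
    m (y i) (nn y ν) p ↔ ν i p := by
  refine ⟨fun h => (ν i).dense fun q hq => ?_, m_nn_of⟩
  obtain ⟨r, hr, j, hj, he⟩ := m_nn.1 h q hq
  have := hy i j r he
  subst this
  exact ⟨r, hr, hj⟩

/-- the axiom of choice -/
theorem exists_choice (F : VN P) : ∃ C : VN P, ∀ p : P,
    (∀ x, ∀ q ≤ p, m x F q → ∀ r ≤ q, ∃ s ≤ r, ∃ t, m t x s) →
    (∀ x y, ∀ q ≤ p, m x F q → m y F q → ∀ t, m t x q → m t y q → e x y q) →
    ∀ x, ∀ q ≤ p, m x F q → ∀ r ≤ q, ∃ s ≤ r, ∃ t, (m t C s ∧ m t x s) ∧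
      ∀ t', ∀ u ≤ s, m t' C u → m t' x u → e t' t u := by
  classical
  let J : Type := Σ i : F.1.Idx, (F.elt i).1.Idx
  let y : J → VN P := fun j => (F.elt j.1).elt j.2
  let sel : J → P → Prop := fun j p => ∃ x : VN P, m x F p ∧ m (y j) x p ∧
    ∀ j', WellOrderingRel j' j → ∀ q ≤ p, ¬ m (y j') x q
  obtain ⟨C, hC⟩ := exists_nn y sel (by
    rintro j p q hqp ⟨x, h1, h2, h3⟩
    exact ⟨x, RO.mono _ hqp h1, RO.mono _ hqp h2, fun j' hj' r hr => h3 j' hj' r (hr.trans hqp)⟩)
  refine ⟨C, fun p hne hdis x q hq hx r hr => ?_⟩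
  -- some member of the family is in `x`
  have hS : ∃ j, ∃ s ≤ r, m (y j) x s := by
    obtain ⟨s, hs, t, ht⟩ := hne x q hq hx r hr
    obtain ⟨s1, hs1, i, hi, he⟩ := (m_iff _ _ _).1 hx s (hs.trans hr)
    have ht1 : m t (F.elt i) s1 := m_right he (RO.mono _ hs1 ht)
    obtain ⟨s2, hs2, k, hk, he2⟩ := (m_iff _ _ _).1 ht1 s1 le_rfl
    refine ⟨⟨i, k⟩, s2, hs2.trans (hs1.trans hs), ?_⟩
    have h1 : m t x s2 := RO.mono _ (hs2.trans hs1) ht
    exact m_left he2 h1
  have hwf : WellFounded (WellOrderingRel : J → J → Prop) := IsWellFounded.wf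
  obtain ⟨j0, ⟨s, hs, hj0⟩, hmin⟩ := hwf.has_min {j | ∃ s ≤ r, m (y j) x s} hS
  have hxs : m x F s := RO.mono _ (hs.trans hr) hx
  have hno : ∀ j', WellOrderingRel j' j0 → ∀ q ≤ s, ¬ m (y j') x q := by
    intro j' hj' q' hq' hm
    exact hmin j' ⟨q', hq'.trans hs, hm⟩ hj'
  refine ⟨s, hs, y j0, ⟨?_, hj0⟩, ?_⟩
  · rw [hC]
    intro q' hq'
    refine ⟨q', le_rfl, j0, ⟨x, RO.mono _ hq' hxs, RO.mono _ hq' hj0,
      fun j' hj' r' hr' => hno j' hj' r' (hr'.trans hq')⟩, e_refl _ _⟩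
  · intro t' u hu htC htx
    refine RO.dense _ fun v hv => ?_
    obtain ⟨w, hw, j, ⟨x1, h1, h2, h3⟩, he⟩ := (hC _ _).1 htC v hv
    have hws : w ≤ s := hw.trans (hv.trans hu)
    have hyx : m (y j) x w := m_left he (RO.mono _ (hw.trans hv) htx)
    have hex : e x x1 w := hdis x x1 w (hws.trans (hs.trans (hr.trans hq)))
      (RO.mono _ hws hxs) h1 (y j) hyx h2
    have hj : j = j0 := by
      rcases trichotomous_of WellOrderingRel j j0 with h | h | h
      · exact absurd hyx (hno j h w hws)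
      · exact h
      · exact absurd (m_right hex (RO.mono _ hws hj0)) (h3 j0 h w le_rfl)
    subst hj
    exact ⟨w, hw, he⟩

end SN

end Pool.Agent.SymExt
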