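import Pool.Agent.SymExt.Top.TopNotions

/-!
# Notions for spaces of quasicontinuous functions, evaluated in an arbitrary logic
-/

set_option linter.unusedSectionVars false
set_option linter.unusedVariables false
set_option linter.unusedSimpArgs false

universe u v

namespace Pool.Agent.SymExt

namespace Lg

variable {Ω : Type u} {V : Type v} (l : Lg Ω V)

/-- `L` is a strict linear order on `R` without end points -/
def lin (R L : V) : Ω :=
  l.and (l.all fun x => l.all fun y => l.imp (l.app L x y) (l.and (l.mem x R) (l.mem y R)))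
  (l.and (l.all fun x => l.neg (l.app L x x))
  (l.and (l.all fun x => l.all fun y => l.all fun z =>
      l.imp (l.and (l.app L x y) (l.app L y z)) (l.app L x z))
  (l.and (l.all fun x => l.all fun y => l.imp (l.and (l.mem x R) (l.and (l.mem y R)
      (l.and (l.neg (l.app L x y)) (l.neg (l.app L y x))))) (l.eq x y))
  (l.and (l.ex fun x => l.mem x R)
    (l.all fun x => l.imp (l.mem x R) (l.and (l.ex fun y => l.app L x y)
      (l.ex fun y => l.app L y x)))))))

/-- `b` is an upper bound of `S` -/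
def ub (L S b : V) : Ω := l.all fun x => l.imp (l.mem x S) (l.neg (l.app L b x))

/-- nonempty bounded subsets of `R` have suprema -/
def cpl (R L : V) : Ω :=
  l.all fun S => l.imp (l.and (l.sub S R) (l.and (l.ex fun x => l.mem x S)
      (l.ex fun b => l.and (l.mem b R) (l.ub L S b))))
    (l.ex fun s => l.and (l.mem s R) (l.and (l.ub L S s) (l.all fun b =>
      l.imp (l.and (l.mem b R) (l.ub L S b)) (l.neg (l.app L b s)))))

/-- there is a countable dense subset -/
def sep (w R L : V) : Ω :=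
  l.ex fun d => l.and (l.isFun d w R) (l.all fun x => l.all fun y => l.imp (l.app L x y)
    (l.ex fun n => l.ex fun z => l.and (l.app d n z) (l.and (l.app L x z) (l.app L z y))))

/-- `(R, L)` is the real line -/
def real (w R L : V) : Ω := l.and (l.lin R L) (l.and (l.cpl R L) (l.sep w R L))

/-- `c < y < d` -/
def btw (L c y d : V) : Ω := l.and (l.app L c y) (l.app L y d)

/-- `f` is a quasicontinuous function -/
def qc (X τ R L f : V) : Ω :=
  l.and (l.isFun f X R)
    (l.all fun x => l.all fun y => l.all fun U => l.all fun a => l.all fun b =>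
      l.imp (l.and (l.app f x y) (l.and (l.mem U τ) (l.and (l.mem x U) (l.btw L a y b))))
        (l.ex fun W => l.and (l.mem W τ) (l.and (l.ex fun t => l.mem t W) (l.and (l.sub W U)
          (l.all fun x' => l.all fun y' => l.imp (l.and (l.mem x' W) (l.app f x' y'))
            (l.btw L a y' b))))))

/-- `f` is in the basic open set given by `x`, `a` and `b` -/
def bas (L x a b f : V) : Ω :=
  l.all fun i => l.all fun u => l.all fun y => l.all fun c => l.all fun d =>
    l.imp (l.and (l.app x i u) (l.and (l.app f u y) (l.and (l.app a i c) (l.app b i d))))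
      (l.btw L c y d)

/-- `g` is in the pointwise closure of `A` -/
def clos (w X R L g A : V) : Ω :=
  l.all fun n => l.all fun x => l.all fun a => l.all fun b =>
    l.imp (l.and (l.mem n w) (l.and (l.isFun x n X) (l.and (l.isFun a n R)
        (l.and (l.isFun b n R) (l.bas L x a b g)))))
      (l.ex fun f => l.and (l.mem f A) (l.bas L x a b f))

/-- the sequence `s` converges pointwise to `g` -/
def pconv (w L s g : V) : Ω :=
  l.all fun x => l.all fun y => l.all fun a => l.all fun b =>
    l.imp (l.and (l.app g x y) (l.btw L a y b))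
      (l.ex fun n => l.and (l.mem n w) (l.all fun k => l.all fun f => l.all fun y' =>
        l.imp (l.and (l.mem n k) (l.and (l.app s k f) (l.app f x y'))) (l.btw L a y' b)))

/-- the space of quasicontinuous functions is Frechet-Urysohn -/
def qfu (w X τ R L : V) : Ω :=
  l.all fun A => l.all fun g =>
    l.imp (l.and (l.all fun f => l.imp (l.mem f A) (l.qc X τ R L f))
        (l.and (l.qc X τ R L g) (l.clos w X R L g A)))
      (l.ex fun s => l.and (l.isFun s w A) (l.pconv w L s g))

/-- `y` is in the closure of `V` -/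
def adh (τ y V : V) : Ω :=
  l.all fun O => l.imp (l.and (l.mem O τ) (l.mem y O)) (l.meet V O)

/-- regular -/
def reg (X τ : V) : Ω :=
  l.all fun x => l.all fun U => l.imp (l.and (l.mem U τ) (l.mem x U))
    (l.ex fun V => l.and (l.mem V τ) (l.and (l.mem x V)
      (l.all fun y => l.imp (l.and (l.mem y X) (l.adh τ y V)) (l.mem y U))))

/-- semi-regular -/
def sreg (τ : V) : Ω :=
  l.all fun x => l.all fun U => l.imp (l.and (l.mem U τ) (l.mem x U))
    (l.ex fun V => l.and (l.mem V τ) (l.and (l.mem x V) (l.and (l.sub V U)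
      (l.all fun y => l.all fun O => l.imp (l.and (l.mem O τ) (l.and (l.mem y O)
        (l.all fun z => l.imp (l.mem z O) (l.adh τ z V)))) (l.mem y V)))))

/-- open Whyburn -/
def owhy (X τ : V) : Ω :=
  l.all fun A => l.all fun x => l.imp (l.and (l.mem A τ) (l.and (l.mem x X)
      (l.and (l.adh τ x A) (l.neg (l.mem x A)))))
    (l.ex fun B => l.and (l.mem B τ) (l.and (l.sub B A) (l.all fun y => l.imp (l.mem y X)
      (l.iff (l.and (l.adh τ y B) (l.neg (l.mem y A))) (l.eq y x)))))

/-- first countable -/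
def fctb (w X τ : V) : Ω :=
  l.all fun x => l.imp (l.mem x X) (l.ex fun u => l.and (l.isFun u w τ)
    (l.and (l.all fun n => l.all fun U => l.imp (l.app u n U) (l.mem x U))
      (l.all fun U => l.imp (l.and (l.mem U τ) (l.mem x U))
        (l.ex fun n => l.ex fun V => l.and (l.app u n V) (l.sub V U)))))

/-- second countable -/
def sctb (w τ : V) : Ω :=
  l.ex fun u => l.and (l.isFun u w τ)
    (l.all fun x => l.all fun U => l.imp (l.and (l.mem U τ) (l.mem x U))
      (l.ex fun n => l.ex fun V => l.and (l.app u n V) (l.and (l.mem x V) (l.sub V U))))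

/-- there is a coarser second countable regular Hausdorff topology -/
def smet (w X τ : V) : Ω :=
  l.ex fun σ => l.and (l.isTop X σ) (l.and (l.sub σ τ) (l.and (l.t2 X σ)
    (l.and (l.reg X σ) (l.sctb w σ))))

/-- uncountable -/
def unc (w X : V) : Ω :=
  l.and (l.ex fun x => l.mem x X) (l.neg (l.ex fun u => l.and (l.isFun u w X)
    (l.all fun x => l.imp (l.mem x X) (l.ex fun n => l.app u n x))))

/-- the example -/
def qs : Ω :=
  l.ex fun w => l.ex fun R => l.ex fun L => l.ex fun X => l.ex fun τ =>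
    l.and (l.isOm w) (l.and (l.real w R L) (l.and (l.isTop X τ) (l.and (l.t2 X τ)
      (l.and (l.reg X τ) (l.and (l.sreg τ) (l.and (l.owhy X τ) (l.and (l.fctb w X τ)
        (l.and (l.smet w X τ) (l.and (l.unc w X) (l.qfu w X τ R L))))))))))

end Lg

namespace Fm

/-- linear order -/
def lin (R L n : ℕ) : Fm :=
  .and (.all n (.all (n + 1) (.imp (.app L n (n + 1) (n + 2))
      (.and (.mem n R) (.mem (n + 1) R)))))
  (.and (.all n (.neg (.app L n n (n + 1))))
  (.and (.all n (.all (n + 1) (.all (n + 2)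
      (.imp (.and (.app L n (n + 1) (n + 3)) (.app L (n + 1) (n + 2) (n + 3)))
        (.app L n (n + 2) (n + 3))))))
  (.and (.all n (.all (n + 1) (.imp (.and (.mem n R) (.and (.mem (n + 1) R)
      (.and (.neg (.app L n (n + 1) (n + 2))) (.neg (.app L (n + 1) n (n + 2))))))
        (.eq n (n + 1)))))
  (.and (.ex n (.mem n R))
    (.all n (.imp (.mem n R) (.and (.ex (n + 1) (.app L n (n + 1) (n + 2)))
      (.ex (n + 1) (.app L (n + 1) n (n + 2))))))))))

/-- upper bound -/
def ub (L S b n : ℕ) : Fm := .all n (.imp (.mem n S) (.neg (.app L b n (n + 1))))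

/-- completeness -/
def cpl (R L n : ℕ) : Fm :=
  .all n (.imp (.and (.sub n R (n + 1)) (.and (.ex (n + 1) (.mem (n + 1) n))
      (.ex (n + 1) (.and (.mem (n + 1) R) (.ub L n (n + 1) (n + 2))))))
    (.ex (n + 1) (.and (.mem (n + 1) R) (.and (.ub L n (n + 1) (n + 2)) (.all (n + 2)
      (.imp (.and (.mem (n + 2) R) (.ub L n (n + 2) (n + 3)))
        (.neg (.app L (n + 2) (n + 1) (n + 3)))))))))

/-- separability -/
def sep (w R L n : ℕ) : Fm :=
  .ex n (.and (.isFun n w R (n + 1)) (.all (n + 1) (.all (n + 2)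
    (.imp (.app L (n + 1) (n + 2) (n + 3))
    (.ex (n + 3) (.ex (n + 4) (.and (.app n (n + 3) (n + 4) (n + 5))
      (.and (.app L (n + 1) (n + 4) (n + 5)) (.app L (n + 4) (n + 2) (n + 5))))))))))

/-- the real line -/
def real (w R L n : ℕ) : Fm := .and (.lin R L n) (.and (.cpl R L n) (.sep w R L n))

/-- between -/
def btw (L c y d n : ℕ) : Fm := .and (.app L c y n) (.app L y d n)

/-- quasicontinuous -/
def qc (X τ R L f n : ℕ) : Fm :=
  .and (.isFun f X R n)
    (.all n (.all (n + 1) (.all (n + 2) (.all (n + 3) (.all (n + 4)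
      (.imp (.and (.app f n (n + 1) (n + 5)) (.and (.mem (n + 2) τ) (.and (.mem n (n + 2))
          (.btw L (n + 3) (n + 1) (n + 4) (n + 5)))))
        (.ex (n + 5) (.and (.mem (n + 5) τ) (.and (.ex (n + 6) (.mem (n + 6) (n + 5)))
          (.and (.sub (n + 5) (n + 2) (n + 6))
          (.all (n + 6) (.all (n + 7) (.imp (.and (.mem (n + 6) (n + 5))
            (.app f (n + 6) (n + 7) (n + 8)))
            (.btw L (n + 3) (n + 7) (n + 4) (n + 8)))))))))))))))

/-- basic open set -/
def bas (L x a b f n : ℕ) : Fm :=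
  .all n (.all (n + 1) (.all (n + 2) (.all (n + 3) (.all (n + 4)
    (.imp (.and (.app x n (n + 1) (n + 5)) (.and (.app f (n + 1) (n + 2) (n + 5))
        (.and (.app a n (n + 3) (n + 5)) (.app b n (n + 4) (n + 5)))))
      (.btw L (n + 3) (n + 2) (n + 4) (n + 5)))))))

/-- pointwise closure -/
def clos (w X R L g A n : ℕ) : Fm :=
  .all n (.all (n + 1) (.all (n + 2) (.all (n + 3)
    (.imp (.and (.mem n w) (.and (.isFun (n + 1) n X (n + 4)) (.and (.isFun (n + 2) n R (n + 4))
        (.and (.isFun (n + 3) n R (n + 4)) (.bas L (n + 1) (n + 2) (n + 3) g (n + 4))))))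
      (.ex (n + 4) (.and (.mem (n + 4) A)
        (.bas L (n + 1) (n + 2) (n + 3) (n + 4) (n + 5))))))))

/-- pointwise convergence -/
def pconv (w L s g n : ℕ) : Fm :=
  .all n (.all (n + 1) (.all (n + 2) (.all (n + 3)
    (.imp (.and (.app g n (n + 1) (n + 4)) (.btw L (n + 2) (n + 1) (n + 3) (n + 4)))
      (.ex (n + 4) (.and (.mem (n + 4) w) (.all (n + 5) (.all (n + 6) (.all (n + 7)
        (.imp (.and (.mem (n + 4) (n + 5)) (.and (.app s (n + 5) (n + 6) (n + 8))
          (.app (n + 6) n (n + 7) (n + 8))))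
          (.btw L (n + 2) (n + 7) (n + 3) (n + 8))))))))))))

/-- Frechet-Urysohn -/
def qfu (w X τ R L n : ℕ) : Fm :=
  .all n (.all (n + 1)
    (.imp (.and (.all (n + 2) (.imp (.mem (n + 2) n) (.qc X τ R L (n + 2) (n + 3))))
        (.and (.qc X τ R L (n + 1) (n + 2)) (.clos w X R L (n + 1) n (n + 2))))
      (.ex (n + 2) (.and (.isFun (n + 2) w n (n + 3)) (.pconv w L (n + 2) (n + 1) (n + 3))))))

/-- closure -/
def adh (τ y V n : ℕ) : Fm :=
  .all n (.imp (.and (.mem n τ) (.mem y n)) (.meet V n (n + 1)))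

/-- regular -/
def reg (X τ n : ℕ) : Fm :=
  .all n (.all (n + 1) (.imp (.and (.mem (n + 1) τ) (.mem n (n + 1)))
    (.ex (n + 2) (.and (.mem (n + 2) τ) (.and (.mem n (n + 2))
      (.all (n + 3) (.imp (.and (.mem (n + 3) X) (.adh τ (n + 3) (n + 2) (n + 4)))
        (.mem (n + 3) (n + 1)))))))))

/-- semi-regular -/
def sreg (τ n : ℕ) : Fm :=
  .all n (.all (n + 1) (.imp (.and (.mem (n + 1) τ) (.mem n (n + 1)))
    (.ex (n + 2) (.and (.mem (n + 2) τ) (.and (.mem n (n + 2))
      (.and (.sub (n + 2) (n + 1) (n + 3))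
      (.all (n + 3) (.all (n + 4) (.imp (.and (.mem (n + 4) τ) (.and (.mem (n + 3) (n + 4))
        (.all (n + 5) (.imp (.mem (n + 5) (n + 4)) (.adh τ (n + 5) (n + 2) (n + 6))))))
          (.mem (n + 3) (n + 2)))))))))))

/-- open Whyburn -/
def owhy (X τ n : ℕ) : Fm :=
  .all n (.all (n + 1) (.imp (.and (.mem n τ) (.and (.mem (n + 1) X)
      (.and (.adh τ (n + 1) n (n + 2)) (.neg (.mem (n + 1) n)))))
    (.ex (n + 2) (.and (.mem (n + 2) τ) (.and (.sub (n + 2) n (n + 3))
      (.all (n + 3) (.imp (.mem (n + 3) X)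
        (.iff (.and (.adh τ (n + 3) (n + 2) (n + 4)) (.neg (.mem (n + 3) n)))
          (.eq (n + 3) (n + 1))))))))))

/-- first countable -/
def fctb (w X τ n : ℕ) : Fm :=
  .all n (.imp (.mem n X) (.ex (n + 1) (.and (.isFun (n + 1) w τ (n + 2))
    (.and (.all (n + 2) (.all (n + 3) (.imp (.app (n + 1) (n + 2) (n + 3) (n + 4))
        (.mem n (n + 3)))))
      (.all (n + 2) (.imp (.and (.mem (n + 2) τ) (.mem n (n + 2)))
        (.ex (n + 3) (.ex (n + 4) (.and (.app (n + 1) (n + 3) (n + 4) (n + 5))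
          (.sub (n + 4) (n + 2) (n + 5)))))))))))

/-- second countable -/
def sctb (w τ n : ℕ) : Fm :=
  .ex n (.and (.isFun n w τ (n + 1))
    (.all (n + 1) (.all (n + 2) (.imp (.and (.mem (n + 2) τ) (.mem (n + 1) (n + 2)))
      (.ex (n + 3) (.ex (n + 4) (.and (.app n (n + 3) (n + 4) (n + 5))
        (.and (.mem (n + 1) (n + 4)) (.sub (n + 4) (n + 2) (n + 5))))))))))

/-- submetrizable -/
def smet (w X τ n : ℕ) : Fm :=
  .ex n (.and (.isTop X n (n + 1)) (.and (.sub n τ (n + 1)) (.and (.t2 X n (n + 1))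
    (.and (.reg X n (n + 1)) (.sctb w n (n + 1))))))

/-- uncountable -/
def unc (w X n : ℕ) : Fm :=
  .and (.ex n (.mem n X)) (.neg (.ex n (.and (.isFun n w X (n + 1))
    (.all (n + 1) (.imp (.mem (n + 1) X) (.ex (n + 2) (.app n (n + 2) (n + 1) (n + 3))))))))

/-- the sentence -/
def qs : Fm :=
  .ex 0 (.ex 1 (.ex 2 (.ex 3 (.ex 4
    (.and (.isOm 0 5) (.and (.real 0 1 2 5) (.and (.isTop 3 4 5) (.and (.t2 3 4 5)
      (.and (.reg 3 4 5) (.and (.sreg 4 5) (.and (.owhy 3 4 5) (.and (.fctb 0 3 4 5)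
        (.and (.smet 0 3 4 5) (.and (.unc 0 3 5) (.qfu 0 3 4 1 2 5)))))))))))))))

end Fm

section eval

variable {Ω : Type u} {V : Type v} (l : Lg Ω V)

theorem eval_lin {R L n : ℕ} (hR : R < n) (hL : L < n) (s : ℕ → V) :
    l.eval (.lin R L n) s = l.lin (s R) (s L) := by
  simp (disch := omega) only [Fm.lin, Lg.lin, Lg.eval, Lg.eval_ex, Lg.eval_and, Lg.eval_neg,
    eval_app, Function.update_of_ne, Function.update_self]

theorem eval_ub {L S b n : ℕ} (hL : L < n) (hS : S < n) (hb : b < n) (s : ℕ → V) :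
    l.eval (.ub L S b n) s = l.ub (s L) (s S) (s b) := by
  simp (disch := omega) only [Fm.ub, Lg.ub, Lg.eval, Lg.eval_neg, eval_app,
    Function.update_of_ne, Function.update_self]

theorem eval_cpl {R L n : ℕ} (hR : R < n) (hL : L < n) (s : ℕ → V) :
    l.eval (.cpl R L n) s = l.cpl (s R) (s L) := by
  simp (disch := omega) only [Fm.cpl, Lg.cpl, Lg.eval, Lg.eval_ex, Lg.eval_and, Lg.eval_neg,
    eval_app, eval_sub, eval_ub, Function.update_of_ne, Function.update_self]

theorem eval_sep {w R L n : ℕ} (hw : w < n) (hR : R < n) (hL : L < n) (s : ℕ → V) :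
    l.eval (.sep w R L n) s = l.sep (s w) (s R) (s L) := by
  simp (disch := omega) only [Fm.sep, Lg.sep, Lg.eval, Lg.eval_ex, Lg.eval_and,
    eval_app, eval_isFun, Function.update_of_ne, Function.update_self]

theorem eval_real {w R L n : ℕ} (hw : w < n) (hR : R < n) (hL : L < n) (s : ℕ → V) :
    l.eval (.real w R L n) s = l.real (s w) (s R) (s L) := by
  simp (disch := omega) only [Fm.real, Lg.real, Lg.eval_and, eval_lin, eval_cpl, eval_sep]

theorem eval_btw {L c y d n : ℕ} (hL : L < n) (hc : c < n) (hy : y < n) (hd : d < n)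
    (s : ℕ → V) : l.eval (.btw L c y d n) s = l.btw (s L) (s c) (s y) (s d) := by
  simp (disch := omega) only [Fm.btw, Lg.btw, Lg.eval_and, eval_app]

theorem eval_qc {X τ R L f n : ℕ} (hX : X < n) (hτ : τ < n) (hR : R < n) (hL : L < n)
    (hf : f < n) (s : ℕ → V) :
    l.eval (.qc X τ R L f n) s = l.qc (s X) (s τ) (s R) (s L) (s f) := by
  simp (disch := omega) only [Fm.qc, Lg.qc, Lg.eval, Lg.eval_ex, Lg.eval_and,
    eval_app, eval_isFun, eval_btw, eval_sub, Function.update_of_ne, Function.update_self]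

theorem eval_bas {L x a b f n : ℕ} (hL : L < n) (hx : x < n) (ha : a < n) (hb : b < n)
    (hf : f < n) (s : ℕ → V) :
    l.eval (.bas L x a b f n) s = l.bas (s L) (s x) (s a) (s b) (s f) := by
  simp (disch := omega) only [Fm.bas, Lg.bas, Lg.eval, Lg.eval_and,
    eval_app, eval_btw, Function.update_of_ne, Function.update_self]

theorem eval_clos {w X R L g A n : ℕ} (hw : w < n) (hX : X < n) (hR : R < n) (hL : L < n)
    (hg : g < n) (hA : A < n) (s : ℕ → V) :
    l.eval (.clos w X R L g A n) s = l.clos (s w) (s X) (s R) (s L) (s g) (s A) := by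
  simp (disch := omega) only [Fm.clos, Lg.clos, Lg.eval, Lg.eval_ex, Lg.eval_and,
    eval_isFun, eval_bas, Function.update_of_ne, Function.update_self]

theorem eval_pconv {w L t g n : ℕ} (hw : w < n) (hL : L < n) (ht : t < n) (hg : g < n)
    (s : ℕ → V) : l.eval (.pconv w L t g n) s = l.pconv (s w) (s L) (s t) (s g) := by
  simp (disch := omega) only [Fm.pconv, Lg.pconv, Lg.eval, Lg.eval_ex, Lg.eval_and,
    eval_app, eval_btw, Function.update_of_ne, Function.update_self]

theorem eval_qfu {w X τ R L n : ℕ} (hw : w < n) (hX : X < n) (hτ : τ < n) (hR : R < n)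
    (hL : L < n) (s : ℕ → V) :
    l.eval (.qfu w X τ R L n) s = l.qfu (s w) (s X) (s τ) (s R) (s L) := by
  simp (disch := omega) only [Fm.qfu, Lg.qfu, Lg.eval, Lg.eval_ex, Lg.eval_and,
    eval_isFun, eval_qc, eval_clos, eval_pconv, Function.update_of_ne, Function.update_self]

theorem eval_adh {τ y V' n : ℕ} (hτ : τ < n) (hy : y < n) (hV : V' < n) (s : ℕ → V) :
    l.eval (.adh τ y V' n) s = l.adh (s τ) (s y) (s V') := by
  simp (disch := omega) only [Fm.adh, Lg.adh, Lg.eval, Lg.eval_and, eval_meet,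
    Function.update_of_ne, Function.update_self]

theorem eval_reg {X τ n : ℕ} (hX : X < n) (hτ : τ < n) (s : ℕ → V) :
    l.eval (.reg X τ n) s = l.reg (s X) (s τ) := by
  simp (disch := omega) only [Fm.reg, Lg.reg, Lg.eval, Lg.eval_ex, Lg.eval_and, eval_adh,
    Function.update_of_ne, Function.update_self]

theorem eval_sreg {τ n : ℕ} (hτ : τ < n) (s : ℕ → V) :
    l.eval (.sreg τ n) s = l.sreg (s τ) := by
  simp (disch := omega) only [Fm.sreg, Lg.sreg, Lg.eval, Lg.eval_ex, Lg.eval_and, eval_adh,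
    eval_sub, Function.update_of_ne, Function.update_self]

theorem eval_owhy {X τ n : ℕ} (hX : X < n) (hτ : τ < n) (s : ℕ → V) :
    l.eval (.owhy X τ n) s = l.owhy (s X) (s τ) := by
  simp (disch := omega) only [Fm.owhy, Lg.owhy, Lg.eval, Lg.eval_ex, Lg.eval_and, Lg.eval_neg,
    Lg.eval_iff, eval_adh, eval_sub, Function.update_of_ne, Function.update_self]

theorem eval_fctb {w X τ n : ℕ} (hw : w < n) (hX : X < n) (hτ : τ < n) (s : ℕ → V) :
    l.eval (.fctb w X τ n) s = l.fctb (s w) (s X) (s τ) := by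
  simp (disch := omega) only [Fm.fctb, Lg.fctb, Lg.eval, Lg.eval_ex, Lg.eval_and, eval_app,
    eval_isFun, eval_sub, Function.update_of_ne, Function.update_self]

theorem eval_sctb {w τ n : ℕ} (hw : w < n) (hτ : τ < n) (s : ℕ → V) :
    l.eval (.sctb w τ n) s = l.sctb (s w) (s τ) := by
  simp (disch := omega) only [Fm.sctb, Lg.sctb, Lg.eval, Lg.eval_ex, Lg.eval_and, eval_app,
    eval_isFun, eval_sub, Function.update_of_ne, Function.update_self]

theorem eval_smet {w X τ n : ℕ} (hw : w < n) (hX : X < n) (hτ : τ < n) (s : ℕ → V) :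
    l.eval (.smet w X τ n) s = l.smet (s w) (s X) (s τ) := by
  simp (disch := omega) only [Fm.smet, Lg.smet, Lg.eval, Lg.eval_ex, Lg.eval_and, eval_isTop,
    eval_t2, eval_reg, eval_sctb, eval_sub, Function.update_of_ne, Function.update_self]

theorem eval_unc {w X n : ℕ} (hw : w < n) (hX : X < n) (s : ℕ → V) :
    l.eval (.unc w X n) s = l.unc (s w) (s X) := by
  simp (disch := omega) only [Fm.unc, Lg.unc, Lg.eval, Lg.eval_ex, Lg.eval_and, Lg.eval_neg,
    eval_app, eval_isFun, Function.update_of_ne, Function.update_self]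

theorem eval_qs (s : ℕ → V) : l.eval .qs s = l.qs := by
  simp (disch := omega) only [Fm.qs, Lg.qs, Lg.eval_ex, Lg.eval_and,
    eval_isOm, eval_real, eval_isTop, eval_t2, eval_reg, eval_sreg, eval_owhy, eval_fctb,
    eval_smet, eval_unc, eval_qfu, Function.update_of_ne, Function.update_self]

end eval

end Pool.Agent.SymExt
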