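import Pool.Agent.SymExt.Top.GT
import Pool.Agent.SymExt.Top.QNotions

/-!
# The real line of the ground model in an extension by a countably closed set of conditions
-/

set_option linter.unusedSectionVars false
set_option linter.unusedVariables false
set_option linter.unusedSimpArgs false

namespace Pool.Agent.SymExt

variable {P : Type} [PartialOrder P] [OrderTop P]

namespace SN

variable (P) in
/-- the name of the set of real numbers -/
noncomputable def RR : VN P := fm (zn : ℝ → VN P)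

variable (P) in
/-- the name of the order relation -/
noncomputable def LL : VN P := fm fun a : {a : ℝ × ℝ // a.1 < a.2} => op (zn a.1.1) (zn a.1.2)

theorem m_RR {x : VN P} {p : P} : m x (RR P) p ↔ ∀ q ≤ p, ∃ r ≤ q, ∃ a : ℝ, e x (zn a) r := m_fm

theorem zn_RR (a : ℝ) (p : P) : m (zn a) (RR P) p := m_fm_self a

theorem m_LL {x y : VN P} {p : P} : m (op x y) (LL P) p ↔
    ∀ q ≤ p, ∃ r ≤ q, ∃ a b : ℝ, a < b ∧ e x (zn a) r ∧ e y (zn b) r := by
  unfold LL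
  rw [m_fm]
  refine forall_congr' fun q => forall_congr' fun _ => exists_congr fun r =>
    and_congr_right fun _ => ?_
  constructor
  · rintro ⟨⟨⟨a, b⟩, h⟩, he⟩
    obtain ⟨h1, h2⟩ := op_inj he
    exact ⟨a, b, h, h1, h2⟩
  · rintro ⟨a, b, h, h1, h2⟩
    exact ⟨⟨(a, b), h⟩, op_congr h1 h2⟩

theorem LL_zn {a b : ℝ} {p : P} : m (op (zn a) (zn b)) (LL P) p ↔ a < b := by
  rw [m_LL]
  constructor
  · intro h
    obtain ⟨r, _, a', b', hab, h1, h2⟩ := h p le_rfl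
    rwa [rig_zn _ _ _ h1, rig_zn _ _ _ h2]
  · intro h q _
    exact ⟨q, le_rfl, a, b, h, e_refl _ _, e_refl _ _⟩

theorem LL_left {a : ℝ} {y : VN P} {p : P} : m (op (zn a) y) (LL P) p ↔
    ∀ q ≤ p, ∃ r ≤ q, ∃ b : ℝ, a < b ∧ e y (zn b) r := by
  rw [m_LL]
  refine forall_congr' fun q => forall_congr' fun _ => exists_congr fun r =>
    and_congr_right fun _ => ?_
  constructor
  · rintro ⟨a', b, h, h1, h2⟩
    have := rig_zn _ _ _ h1
    subst this
    exact ⟨b, h, h2⟩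
  · rintro ⟨b, h, h2⟩
    exact ⟨a, b, h, e_refl _ _, h2⟩

theorem LL_congr {x y x' y' : VN P} {p : P} (hx : e x x' p) (hy : e y y' p)
    (h : m (op x y) (LL P) p) : m (op x' y') (LL P) p := m_left (op_congr hx hy) h

theorem op_LL_mem {x y : VN P} {p : P} (h : m (op x y) (LL P) p) :
    m x (RR P) p ∧ m y (RR P) p := by
  rw [m_LL] at h
  constructor
  · refine m_RR.2 fun q hq => ?_
    obtain ⟨r, hr, a, b, _, h1, _⟩ := h q hq
    exact ⟨r, hr, a, h1⟩
  · refine m_RR.2 fun q hq => ?_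
    obtain ⟨r, hr, a, b, _, _, h1⟩ := h q hq
    exact ⟨r, hr, b, h1⟩

theorem forced_lin (p : P) : lg.lin (RR P) (LL P) p := by
  simp only [Lg.lin, ro_and, ro_all, ro_imp, ro_mem, ro_neg, ro_eq, app_iff]
  refine ⟨?_, ?_, ?_, ?_, ?_, ?_⟩
  · intro x y q hq h
    exact op_LL_mem h
  · intro x q hq h
    obtain ⟨r, _, a, b, hab, h1, h2⟩ := m_LL.1 h q le_rfl
    have := rig_zn _ _ _ (e_trans (e_symm h1) h2)
    exact absurd hab (by rw [this]; exact lt_irrefl _)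
  · rintro x y z q hq ⟨h, h'⟩
    rw [m_LL] at h h' ⊢
    intro r hr
    obtain ⟨s, hs, a, b, hab, h1, h2⟩ := h r hr
    obtain ⟨t, ht, b', c, hbc, h3, h4⟩ := h' s (hs.trans hr)
    have := rig_zn _ _ _ (e_trans (e_symm (RO.mono _ ht h2)) h3)
    subst this
    exact ⟨t, ht.trans hs, a, c, hab.trans hbc, RO.mono _ ht h1, h4⟩
  · rintro x y q hq ⟨hx, hy, h1, h2⟩
    refine RO.dense _ fun r hr => ?_
    obtain ⟨s, hs, a, ha⟩ := m_RR.1 hx r hr
    obtain ⟨t, ht, b, hb⟩ := m_RR.1 hy s (hs.trans hr)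
    have ha' := RO.mono _ ht ha
    have htq : t ≤ q := ht.trans (hs.trans hr)
    rcases lt_trichotomy a b with hab | hab | hab
    · exact absurd (LL_congr (e_symm ha') (e_symm hb) (LL_zn.2 hab)) (h1 t htq)
    · subst hab
      exact ⟨t, ht.trans hs, e_trans ha' (e_symm hb)⟩
    · exact absurd (LL_congr (e_symm hb) (e_symm ha') (LL_zn.2 hab)) (h2 t htq)
  · rw [ro_ex]
    intro q _
    exact ⟨q, le_rfl, zn (0 : ℝ), zn_RR _ _⟩
  · intro x q hq hx
    simp only [ro_ex, app_iff]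
    constructor
    · intro r hr
      obtain ⟨s, hs, a, ha⟩ := m_RR.1 hx r hr
      exact ⟨s, hs, zn (a + 1), LL_congr (e_symm ha) (e_refl _ _) (LL_zn.2 (lt_add_one a))⟩
    · intro r hr
      obtain ⟨s, hs, a, ha⟩ := m_RR.1 hx r hr
      exact ⟨s, hs, zn (a - 1), LL_congr (e_refl _ _) (e_symm ha) (LL_zn.2 (sub_one_lt a))⟩

/-- an enumeration of the rational numbers -/
noncomputable def rq (n : ℕ) : ℝ := (((exists_surjective_nat ℚ).choose n : ℚ) : ℝ)

theorem exists_rq {a b : ℝ} (h : a < b) : ∃ n, a < rq n ∧ rq n < b := by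
  obtain ⟨q, h1, h2⟩ := exists_rat_btwn h
  obtain ⟨n, hn⟩ := (exists_surjective_nat ℚ).choose_spec q
  refine ⟨n, ?_, ?_⟩ <;> unfold rq <;> rw [hn] <;> assumption

theorem forced_sep (p : P) : lg.sep (om P) (RR P) (LL P) p := by
  simp only [Lg.sep, ro_ex, ro_and, ro_all, ro_imp, app_iff]
  intro q _
  refine ⟨q, le_rfl, fnm on (fun n => zn (rq n)), isFun_fnm rig_on (fun x r hr hx s hs =>
    m_om.1 hx s hs) (fun n => m_on_om n q) (fun n => zn_RR _ q), fun x y r hr h s hs => ?_⟩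
  obtain ⟨t, ht, a, b, hab, h1, h2⟩ := m_LL.1 h s hs
  obtain ⟨n, hn1, hn2⟩ := exists_rq hab
  refine ⟨t, ht, on n, fun u hu => ⟨u, le_rfl, zn (rq n), m_op_fnm.2 fun v hv =>
    ⟨v, le_rfl, n, e_refl _ _, e_refl _ _⟩, ?_, ?_⟩⟩
  · exact LL_congr (e_symm (RO.mono _ hu h1)) (e_refl _ _) (LL_zn.2 hn1)
  · exact LL_congr (e_refl _ _) (e_symm (RO.mono _ hu h2)) (LL_zn.2 hn2)

theorem forced_cpl (closed : ∀ c : ℕ → P, (∀ n, c (n + 1) ≤ c n) → ∃ d, ∀ n, d ≤ c n) (p : P) :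
    lg.cpl (RR P) (LL P) p := by
  simp only [Lg.cpl, Lg.ub, ro_ex, ro_and, ro_all, ro_imp, ro_mem, ro_neg, app_iff, sub_iff]
  rintro S q hq ⟨hS, hne, hbd⟩ r0 hr0
  -- decide the rational lower part
  let E : ℕ → P → Prop := fun k s => ∃ x : VN P, m x S s ∧ m (op (zn (rq k)) x) (LL P) s
  obtain ⟨r, hr, b, hb⟩ := decide_seq closed
    (fun k (b : Bool) s => (b = true → E k s) ∧ (b = false → ∀ t ≤ s, ¬ E k t))
    (fun k b {s t} hts h => ⟨fun hb => by
      obtain ⟨x, h1, h2⟩ := h.1 hb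
      exact ⟨x, RO.mono _ hts h1, RO.mono _ hts h2⟩, fun hb u hu => h.2 hb u (hu.trans hts)⟩) r0
    (fun k s hs => by
      by_cases h : ∃ t ≤ s, E k t
      · obtain ⟨t, ht, h⟩ := h
        exact ⟨t, ht, true, fun _ => h, fun h => by simp at h⟩
      · refine ⟨s, le_rfl, false, fun h => by simp at h, fun _ t ht h' => h ⟨t, ht, h'⟩⟩)
  have hrq : r ≤ q := hr.trans hr0
  have hdec : ∀ k, ∀ s ≤ r, E k s → b k = true := by
    intro k s hs h
    by_contra hb'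
    rw [Bool.not_eq_true] at hb'
    exact (hb k).2 hb' s hs h
  let D : Set ℝ := {x | ∃ k, b k = true ∧ rq k = x}
  have hE : ∀ k, b k = true → ∃ s ≤ r, ∃ a : ℝ, rq k < a ∧ m (zn a) S s := by
    intro k hk
    obtain ⟨x, h1, h2⟩ := (hb k).1 hk
    obtain ⟨s, hs, a, ha, he⟩ := LL_left.1 h2 r le_rfl
    exact ⟨s, hs, a, ha, m_left he (RO.mono _ hs h1)⟩
  have hE' : ∀ k, ∀ s ≤ r, ∀ a : ℝ, rq k < a → m (zn a) S s → b k = true := by
    intro k s hs a ha h
    exact hdec k s hs ⟨zn a, h, LL_zn.2 ha⟩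
  have hDne : D.Nonempty := by
    obtain ⟨s, hs, x, hx⟩ := hne r hrq
    obtain ⟨t, ht, a, ha⟩ := m_RR.1 (hS x s (hs.trans hrq) hx) s le_rfl
    obtain ⟨k, _, hk⟩ := exists_rq (sub_one_lt a)
    exact ⟨rq k, k, hE' k t (ht.trans hs) a hk (m_left ha (RO.mono _ ht hx)), rfl⟩
  have hDb : BddAbove D := by
    obtain ⟨s, hs, β, hβ, hub⟩ := hbd r hrq
    obtain ⟨t, ht, a, ha⟩ := m_RR.1 hβ s le_rfl
    refine ⟨a, ?_⟩
    rintro x ⟨k, hk, rfl⟩
    by_contra hlt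
    push Not at hlt
    obtain ⟨x, h1, h2⟩ := (hb k).1 hk
    have htr : t ≤ r := ht.trans hs
    obtain ⟨u, hu, c, hc, he⟩ := LL_left.1 (RO.mono _ htr h2) t le_rfl
    refine hub x u (hu.trans ht) (RO.mono _ (hu.trans htr) h1) u le_rfl ?_
    exact LL_congr (e_symm (RO.mono _ hu ha)) (e_symm he) (LL_zn.2 (hlt.trans hc))
  refine ⟨r, hr, zn (sSup D), zn_RR _ _, ?_, ?_⟩
  · intro x s hs hx t ht hlt
    obtain ⟨u, hu, c, hc, he⟩ := LL_left.1 hlt t le_rfl
    obtain ⟨k, hk1, hk2⟩ := exists_rq hc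
    have h1 : b k = true := hE' k u (hu.trans (ht.trans hs)) c hk2
      (m_left he (RO.mono _ (hu.trans ht) hx))
    exact absurd (le_csSup hDb ⟨k, h1, rfl⟩) (not_le.2 hk1)
  · rintro β s hs ⟨hβ, hub⟩ t ht hlt
    obtain ⟨u, hu, a, c, hac, h1, h2⟩ := m_LL.1 hlt t le_rfl
    have := rig_zn _ _ _ h2
    subst this
    obtain ⟨_, ⟨k, hk, rfl⟩, hk2⟩ := exists_lt_of_lt_csSup hDne hac
    have hur : u ≤ r := hu.trans (ht.trans hs)
    obtain ⟨x, h3, h4⟩ := (hb k).1 hk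
    obtain ⟨v, hv, c', hc', he⟩ := LL_left.1 (RO.mono _ hur h4) u le_rfl
    refine hub x v (hv.trans (hu.trans ht)) (RO.mono _ (hv.trans hur) h3) v le_rfl ?_
    exact LL_congr (e_symm (RO.mono _ hv h1)) (e_symm he) (LL_zn.2 (hk2.trans hc'))

theorem forced_real (closed : ∀ c : ℕ → P, (∀ n, c (n + 1) ≤ c n) → ∃ d, ∀ n, d ≤ c n) (p : P) :
    lg.real (om P) (RR P) (LL P) p := by
  simp only [Lg.real, ro_and]
  exact ⟨forced_lin p, forced_cpl closed p, forced_sep p⟩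

end SN

end Pool.Agent.SymExt
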